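import Pool.Agent.L0h63.MP.Pred2

set_option autoImplicit false

/-!
# Arbitrary predictors: conclusion
-/

namespace Pool.Agent.L0h63.MP

open PowerSeries

theorem pred_small (ε : ℝ) (hε : 0 < ε) (hε1 : ε ≤ 1) :
    ∃ C : ℝ, 0 < C ∧ ∀ F : S, coeff 0 F ≠ 0 → ∀ (g : ℕ → ZMod 2) (A x N : ℕ) (y : ℝ),
      1 ≤ x → 1 ≤ N → 1 ≤ y →
      (((Finset.Ico A (A + N)).filter fun t => (err F g x t : ℝ) ≤ y).card : ℝ) ≤
        C * N * Real.sqrt (y / ((min x N : ℕ) : ℝ) ^ (1 - ε)) := by
  classical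
  obtain ⟨C, hC, hcore⟩ := core lineStatement treeStatement ε hε
  refine ⟨6 + 8 * C, by positivity, fun F hF g A x N y hx hN hy => ?_⟩
  set z := min x N with hz
  have hz1 : 1 ≤ z := le_min hx hN
  have hzx : z ≤ x := min_le_left _ _
  have hzN : z ≤ N := min_le_right _ _
  have hzr : (1 : ℝ) ≤ z := by exact_mod_cast hz1
  set Z : ℝ := (z : ℝ) ^ (1 - ε) with hZ
  have hZpos : 0 < Z := by positivity
  have hZz : Z ≤ z := by
    calc Z ≤ (z : ℝ) ^ (1 : ℝ) := Real.rpow_le_rpow_of_exponent_le hzr (by linarith)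
      _ = z := Real.rpow_one _
  set s : ℝ := Real.sqrt (y / Z) with hs
  have hs0 : 0 ≤ s := Real.sqrt_nonneg _
  have hss : s * s = y / Z := Real.mul_self_sqrt (by positivity)
  have hsz : 1 ≤ s * z := by
    have h1 : 1 ≤ (s * z) * (s * z) := by
      have e : (s * z) * (s * z) = (s * s) * (z * z) := by ring
      rw [e, hss, div_mul_eq_mul_div, le_div_iff₀ hZpos]
      nlinarith
    by_contra hcon
    push Not at hcon
    have : 0 ≤ s * z := by positivity
    nlinarith
  set B := (Finset.Ico A (A + N)).filter fun t => (err F g x t : ℝ) ≤ y with hB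
  have hBsub : B ⊆ Finset.Ico A (A + N) := Finset.filter_subset _ _
  have hNr : (1 : ℝ) ≤ N := by exact_mod_cast hN
  have hxr : (1 : ℝ) ≤ x := by exact_mod_cast hx
  -- a shift
  have hshift : ∀ h ∈ Finset.Ico 1 N, ¬ 2 ^ (Nat.log 2 x) ∣ h →
      ((B.filter fun t => t + h ∈ B).card : ℝ) ≤ 4 * C * y * N / Z := by
    intro h hh hdvd
    rw [Finset.mem_Ico] at hh
    obtain ⟨v, G, hv, hG0, hG⟩ := one_add_pow h hh.1
    have hvx : 2 * 2 ^ v ≤ x := by
      have h1 : v < Nat.log 2 x := by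
        by_contra hcon
        push Not at hcon
        exact hdvd ((pow_dvd_pow 2 hcon).trans hv)
      calc 2 * 2 ^ v = 2 ^ (v + 1) := by rw [pow_succ]; ring
        _ ≤ 2 ^ (Nat.log 2 x) := Nat.pow_le_pow_right (by norm_num) h1
        _ ≤ x := Nat.pow_log_le_self 2 (by omega)
    have hFG : coeff 0 (F * G) ≠ 0 := by
      rw [coeff_zero_eq_constantCoeff_apply, map_mul, ← coeff_zero_eq_constantCoeff_apply,
        ← coeff_zero_eq_constantCoeff_apply]
      exact mul_ne_zero hF hG0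
    have hp : 0 < 2 ^ v := by positivity
    have hx1 : 1 ≤ x - 2 ^ v := by omega
    have h1 := hcore (F * G) hFG A (x - 2 ^ v) N (2 * y) hx1 hN (by linarith)
    have h2 : ((B.filter fun t => t + h ∈ B).card : ℝ) ≤
        (((Finset.Ico A (A + N)).filter fun t =>
          (cnt (F * G) (x - 2 ^ v) t : ℝ) ≤ 2 * y).card : ℝ) := by
      have : (B.filter fun t => t + h ∈ B) ⊆ ((Finset.Ico A (A + N)).filter fun t =>
          (cnt (F * G) (x - 2 ^ v) t : ℝ) ≤ 2 * y) := by
        intro t ht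
        rw [Finset.mem_filter] at ht ⊢
        refine ⟨hBsub ht.1, ?_⟩
        have h3 := ht.1
        have h4 := ht.2
        rw [hB, Finset.mem_filter] at h3 h4
        have h5 : (cnt (F * G) (x - 2 ^ v) t : ℝ) ≤ (err F g x t : ℝ) + (err F g x (t + h) : ℝ) := by
          exact_mod_cast cnt_le_err F g x t h v G hG
        linarith [h3.2, h4.2]
      exact_mod_cast Finset.card_le_card this
    refine (h2.trans h1).trans ?_
    set w := min (x - 2 ^ v) N with hw
    have hw1 : 1 ≤ w := le_min hx1 hN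
    have hwz : z ≤ 2 * w := by
      rcases le_total (x - 2 ^ v) N with hle | hle
      · rw [hw, min_eq_left hle]
        omega
      · rw [hw, min_eq_right hle]
        omega
    have hwr : (1 : ℝ) ≤ w := by exact_mod_cast hw1
    have hwzr : (z : ℝ) ≤ 2 * w := by exact_mod_cast hwz
    have h6 : Z ≤ 2 * (w : ℝ) ^ (1 - ε) := by
      calc Z ≤ (2 * (w : ℝ)) ^ (1 - ε) := Real.rpow_le_rpow (by positivity) hwzr (by linarith)
        _ = (2 : ℝ) ^ (1 - ε) * (w : ℝ) ^ (1 - ε) := Real.mul_rpow (by positivity) (by positivity)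
        _ ≤ 2 * (w : ℝ) ^ (1 - ε) := by
          have : (2 : ℝ) ^ (1 - ε) ≤ 2 := by
            calc (2 : ℝ) ^ (1 - ε) ≤ (2 : ℝ) ^ (1 : ℝ) :=
                  Real.rpow_le_rpow_of_exponent_le (by norm_num) (by linarith)
              _ = 2 := Real.rpow_one _
          gcongr
    have hwp : (0 : ℝ) < (w : ℝ) ^ (1 - ε) := by positivity
    rw [div_le_div_iff₀ hwp hZpos]
    have hc0 : 0 ≤ C * (2 * y) * N := by positivity
    calc C * (2 * y) * N * Z ≤ C * (2 * y) * N * (2 * (w : ℝ) ^ (1 - ε)) := by gcongr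
      _ = 4 * C * y * N * (w : ℝ) ^ (1 - ε) := by ring
  -- all shifts
  have hsum : ((∑ h ∈ Finset.Ico 1 N, (B.filter fun t => t + h ∈ B).card : ℕ) : ℝ) ≤
      4 * C * y * N / Z * N + 2 * N / x * B.card := by
    rw [← Finset.sum_filter_add_sum_filter_not (Finset.Ico 1 N)
      (fun h => 2 ^ (Nat.log 2 x) ∣ h), Nat.cast_add, add_comm, Nat.cast_sum, Nat.cast_sum]
    refine add_le_add ?_ ?_
    · calc _ ≤ ∑ h ∈ (Finset.Ico 1 N).filter (fun h => ¬ 2 ^ (Nat.log 2 x) ∣ h),
              4 * C * y * N / Z := by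
            refine Finset.sum_le_sum fun h hh => ?_
            rw [Finset.mem_filter] at hh
            exact hshift h hh.1 hh.2
        _ = ((Finset.Ico 1 N).filter (fun h => ¬ 2 ^ (Nat.log 2 x) ∣ h)).card *
              (4 * C * y * N / Z) := by
            rw [Finset.sum_const, nsmul_eq_mul]
        _ ≤ (N : ℝ) * (4 * C * y * N / Z) := by
            have h1 : ((Finset.Ico 1 N).filter (fun h => ¬ 2 ^ (Nat.log 2 x) ∣ h)).card ≤ N := by
              refine (Finset.card_filter_le _ _).trans ?_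
              rw [Nat.card_Ico]
              omega
            have h2 : ((((Finset.Ico 1 N).filter (fun h => ¬ 2 ^ (Nat.log 2 x) ∣ h)).card : ℕ) : ℝ) ≤ N := by
              exact_mod_cast h1
            gcongr
        _ = 4 * C * y * N / Z * N := by ring
    · calc _ ≤ ∑ h ∈ (Finset.Ico 1 N).filter (fun h => 2 ^ (Nat.log 2 x) ∣ h), (B.card : ℝ) := by
            refine Finset.sum_le_sum fun h _ => ?_
            exact_mod_cast Finset.card_filter_le _ _
        _ = ((Finset.Ico 1 N).filter (fun h => 2 ^ (Nat.log 2 x) ∣ h)).card * (B.card : ℝ) := by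
            rw [Finset.sum_const, nsmul_eq_mul]
        _ ≤ 2 * N / x * B.card := by
            have := card_mult_le x N hx
            gcongr
  have hsq := card_sq_le A N hN B hBsub
  have hsq' : (B.card : ℝ) * B.card ≤ B.card + 2 * (4 * C * y * N / Z * N + 2 * N / x * B.card) := by
    calc (B.card : ℝ) * B.card ≤ B.card +
          2 * ((∑ h ∈ Finset.Ico 1 N, (B.filter fun t => t + h ∈ B).card : ℕ) : ℝ) := by
            exact_mod_cast hsq
      _ ≤ _ := by gcongr
  have hb0 : (0 : ℝ) ≤ B.card := by positivity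
  have hM0 : (0 : ℝ) ≤ N * s := by positivity
  have hM1 : 1 ≤ (N : ℝ) * s := by
    have : (z : ℝ) ≤ N := by exact_mod_cast hzN
    nlinarith
  have hM2 : (N : ℝ) / x ≤ N * s := by
    rw [div_le_iff₀ (by linarith)]
    have h1 : (z : ℝ) ≤ x := by exact_mod_cast hzx
    have h2 : 1 ≤ s * x := hsz.trans (by gcongr)
    calc (N : ℝ) = N * 1 := by ring
      _ ≤ N * (s * x) := by gcongr
      _ = N * s * x := by ring
  have hfin := quad (B.card : ℝ) (N * s) C hb0 hM0 hC.le ?_
  · calc _ ≤ _ := hfin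
      _ = _ := by ring
  · calc (B.card : ℝ) * B.card ≤ B.card + 2 * (4 * C * y * N / Z * N + 2 * N / x * B.card) := hsq'
      _ = (1 + 4 * (N / x)) * B.card + 8 * C * (N * N * (y / Z)) := by ring
      _ = (1 + 4 * (N / x)) * B.card + 8 * C * (N * N * (s * s)) := by rw [hss]
      _ ≤ (N * s + 4 * (N * s)) * B.card + 8 * C * (N * N * (s * s)) := by gcongr
      _ = 5 * (N * s) * B.card + 8 * C * (N * s * (N * s)) := by ring

theorem pred (ε : ℝ) (hε : 0 < ε) :
    ∃ C : ℝ, 0 < C ∧ ∀ F : S, coeff 0 F ≠ 0 → ∀ (g : ℕ → ZMod 2) (A x N : ℕ) (y : ℝ),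
      1 ≤ x → 1 ≤ N → 1 ≤ y →
      (((Finset.Ico A (A + N)).filter fun t => (err F g x t : ℝ) ≤ y).card : ℝ) ≤
        C * N * Real.sqrt (y / ((min x N : ℕ) : ℝ) ^ (1 - ε)) := by
  obtain ⟨C, hC, h⟩ := pred_small (min ε 1) (lt_min hε one_pos) (min_le_right _ _)
  refine ⟨C, hC, fun F hF g A x N y hx hN hy => (h F hF g A x N y hx hN hy).trans ?_⟩
  have hz : 1 ≤ min x N := le_min hx hN
  have hxr : (1 : ℝ) ≤ ((min x N : ℕ) : ℝ) := by exact_mod_cast hz
  have h1 : ((min x N : ℕ) : ℝ) ^ (1 - ε) ≤ ((min x N : ℕ) : ℝ) ^ (1 - min ε 1) :=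
    Real.rpow_le_rpow_of_exponent_le hxr (by linarith [min_le_left ε 1])
  have hxp : (0 : ℝ) < ((min x N : ℕ) : ℝ) ^ (1 - ε) := by positivity
  have hy0 : 0 < y := by linarith
  have h2 : Real.sqrt (y / ((min x N : ℕ) : ℝ) ^ (1 - min ε 1)) ≤
      Real.sqrt (y / ((min x N : ℕ) : ℝ) ^ (1 - ε)) := by
    apply Real.sqrt_le_sqrt
    gcongr
  gcongr

end Pool.Agent.L0h63.MP
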