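import Pool.Agent.L0h63.MP.Final2

set_option autoImplicit false

/-!
# Both parities
-/

namespace Pool.Agent.L0h63.MP

open PowerSeries

theorem zmod2_cases (a : ZMod 2) : a = 0 ∨ a = 1 := by
  revert a
  decide

/-- number of coefficients equal to `κ` -/
noncomputable def cntk (F : S) (κ : ZMod 2) (x t : ℕ) : ℕ :=
  ((Finset.range x).filter fun k => coeff k (F * P ^ t) = κ).card

theorem cntk_one (F : S) (x t : ℕ) : cntk F 1 x t = cnt F x t := by
  unfold cntk cnt
  congr 1
  ext k
  simp only [Finset.mem_filter]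
  refine and_congr_right fun _ => ?_
  rcases zmod2_cases (coeff k (F * P ^ t)) with h | h
  · rw [h]
    simp
  · rw [h]
    simp

theorem cnt_le (F : S) (x t : ℕ) : cnt ((1 + X) * F) x t ≤ 2 * cntk F 0 x t + 1 := by
  classical
  unfold cnt cntk
  set A := (Finset.range x).filter fun k => coeff k (F * P ^ t) = 0 with hA
  have hsub : ((Finset.range x).filter fun k => coeff k ((1 + X) * F * P ^ t) ≠ 0) ⊆
      (A ∪ A.image (fun k => k + 1)) ∪ {0} := by
    intro k hk
    rw [Finset.mem_filter, Finset.mem_range] at hk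
    rw [Finset.mem_union, Finset.mem_union, Finset.mem_singleton, Finset.mem_image]
    rcases k with _ | k
    · right; rfl
    · left
      have e : coeff (k + 1) ((1 + X) * F * P ^ t) =
          coeff (k + 1) (F * P ^ t) + coeff k (F * P ^ t) := by
        have : (1 + X) * F * P ^ t = F * P ^ t + X * (F * P ^ t) := by ring
        rw [this, map_add, coeff_succ_X_mul]
      rw [e] at hk
      rcases zmod2_cases (coeff (k + 1) (F * P ^ t)) with h | h
      · left
        rw [hA, Finset.mem_filter, Finset.mem_range]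
        exact ⟨hk.1, h⟩
      · right
        rcases zmod2_cases (coeff k (F * P ^ t)) with h' | h'
        · refine ⟨k, ?_, rfl⟩
          rw [hA, Finset.mem_filter, Finset.mem_range]
          exact ⟨by omega, h'⟩
        · exfalso
          apply hk.2
          rw [h, h']
          decide
  calc _ ≤ ((A ∪ A.image (fun k => k + 1)) ∪ {0}).card := Finset.card_le_card hsub
    _ ≤ (A ∪ A.image (fun k => k + 1)).card + 1 := by
      refine (Finset.card_union_le _ _).trans ?_
      rw [Finset.card_singleton]
    _ ≤ (A.card + A.card) + 1 := by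
      refine Nat.add_le_add_right ?_ 1
      refine (Finset.card_union_le _ _).trans ?_
      exact Nat.add_le_add_left Finset.card_image_le _
    _ = 2 * A.card + 1 := by ring

theorem one_add_X_ne : (1 + X : S) ≠ 0 := by
  intro h
  have := congrArg (coeff 0) h
  rw [map_add, coeff_zero_X, map_zero] at this
  simp at this

theorem core_k (hLine : LineStatement) (hTree : TreeStatement) (ε : ℝ) (hε : 0 < ε) :
    ∃ C : ℝ, 0 < C ∧ ∀ F : S, coeff 0 F ≠ 0 → ∀ (κ : ZMod 2) (A x N : ℕ) (y : ℝ),
      1 ≤ x → 1 ≤ N → 1 ≤ y →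
      (((Finset.Ico A (A + N)).filter fun t => (cntk F κ x t : ℝ) ≤ y).card : ℝ) ≤
        C * y * N / ((min x N : ℕ) : ℝ) ^ (1 - ε) := by
  classical
  obtain ⟨C, hC, h⟩ := core hLine hTree ε hε
  refine ⟨3 * C, by positivity, fun F hF κ A x N y hx hN hy => ?_⟩
  rcases zmod2_cases κ with rfl | rfl
  · have hF' : coeff 0 ((1 + X) * F) ≠ 0 := by
      rw [add_mul, one_mul, map_add, coeff_zero_X_mul, add_zero]
      exact hF
    have h1 := h ((1 + X) * F) hF' A x N (3 * y) hx hN (by linarith)
    have h2 : (((Finset.Ico A (A + N)).filter fun t => (cntk F 0 x t : ℝ) ≤ y).card : ℝ) ≤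
        (((Finset.Ico A (A + N)).filter fun t =>
          (cnt ((1 + X) * F) x t : ℝ) ≤ 3 * y).card : ℝ) := by
      have : ((Finset.Ico A (A + N)).filter fun t => (cntk F 0 x t : ℝ) ≤ y) ⊆
          ((Finset.Ico A (A + N)).filter fun t => (cnt ((1 + X) * F) x t : ℝ) ≤ 3 * y) := by
        intro t ht
        rw [Finset.mem_filter] at ht ⊢
        refine ⟨ht.1, ?_⟩
        have h3 : (cnt ((1 + X) * F) x t : ℝ) ≤ 2 * (cntk F 0 x t : ℝ) + 1 := by
          exact_mod_cast cnt_le F x t
        linarith [ht.2]
      exact_mod_cast Finset.card_le_card this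
    refine (h2.trans h1).trans (le_of_eq ?_)
    ring
  · have h1 := h F hF A x N y hx hN hy
    simp only [cntk_one]
    refine h1.trans ?_
    have hz : 1 ≤ min x N := le_min hx hN
    have hxp : (0 : ℝ) < ((min x N : ℕ) : ℝ) ^ (1 - ε) := by positivity
    have hy0 : (0 : ℝ) < y := by linarith
    have hN0 : (0 : ℝ) ≤ N := by positivity
    gcongr
    linarith

end Pool.Agent.L0h63.MP
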