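import Pool.Agent.L0h63.MP.Defs

set_option autoImplicit false

/-!
# Module M4: the Kakeya inequality
-/

namespace Pool.Agent.L0h63.MP.Kak

open Finset

lemma eight_dir (d : ℕ) : (8 : ℤ) * (dir d : ℤ) = 9 ^ d - 1 := by
  have h : (8 : ℕ) ∣ 9 ^ d - 1 := by
    have := Nat.sub_dvd_pow_sub_pow 9 1 d
    simpa using this
  have h2 : 8 * dir d = 9 ^ d - 1 := by
    unfold dir
    exact Nat.mul_div_cancel' h
  have h3 : 1 ≤ 9 ^ d := Nat.one_le_pow _ _ (by norm_num)
  have h4 : ((8 * dir d : ℕ) : ℤ) = ((9 ^ d - 1 : ℕ) : ℤ) := by rw [h2]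
  push_cast [Nat.cast_sub h3] at h4
  exact h4

lemma emult_dir (d : ℕ) : emultiplicity (2 : ℤ) (dir d : ℤ) = emultiplicity (2 : ℤ) (d : ℤ) := by
  have h := Int.two_pow_sub_pow' (x := 9) (y := 1) d (by norm_num) (by decide)
  rw [one_pow, ← eight_dir, emultiplicity_mul Int.prime_two] at h
  have h8 : emultiplicity (2 : ℤ) 8 = 3 := by
    have : (8 : ℤ) = 2 ^ 3 := by norm_num
    rw [this, emultiplicity_pow_self_of_prime Int.prime_two]
    rfl
  have h9 : emultiplicity (2 : ℤ) (9 - 1) = 3 := by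
    rw [← h8]; norm_num
  rw [h8, h9] at h
  exact (ENat.add_right_injective_of_ne_top (by decide) h)

lemma dvd_of (j d : ℕ) (w : ℤ) (h : (2 : ℤ) ^ j ∣ (dir d : ℤ) * w) :
    (2 : ℤ) ^ j ∣ (d : ℤ) * w := by
  rw [pow_dvd_iff_le_emultiplicity, emultiplicity_mul Int.prime_two] at h ⊢
  rwa [← emult_dir]

lemma dir_sub (i i' : ℕ) (h : i' ≤ i) : (dir i : ℤ) - dir i' = 9 ^ i' * dir (i - i') := by
  have h1 := eight_dir i
  have h2 := eight_dir i'
  have h3 := eight_dir (i - i')
  have h4 : (9 : ℤ) ^ i = 9 ^ i' * 9 ^ (i - i') := by rw [← pow_add]; congr 1; omega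
  have : (8 : ℤ) * ((dir i : ℤ) - dir i') = 8 * (9 ^ i' * dir (i - i')) := by
    calc (8 : ℤ) * ((dir i : ℤ) - dir i') = 8 * dir i - 8 * dir i' := by ring
      _ = (9 ^ i - 1) - (9 ^ i' - 1) := by rw [h1, h2]
      _ = 9 ^ i' * (9 ^ (i - i') - 1) := by rw [h4]; ring
      _ = 9 ^ i' * (8 * dir (i - i')) := by rw [h3]
      _ = _ := by ring
  linarith

lemma coprime9 (j k : ℕ) : IsCoprime ((2 : ℤ) ^ j) (9 ^ k) :=
  IsCoprime.pow (by
    refine ⟨-4, 1, by norm_num⟩)

lemma dvd_sub_of (j i i' : ℕ) (w : ℤ) (h : (2 : ℤ) ^ j ∣ ((dir i : ℤ) - dir i') * w) :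
    (2 : ℤ) ^ j ∣ ((i : ℤ) - i') * w := by
  rcases le_total i' i with hle | hle
  · rw [dir_sub i i' hle, mul_assoc] at h
    have h2 := dvd_of j (i - i') w ((coprime9 j i').dvd_of_dvd_mul_left h)
    rwa [Nat.cast_sub hle] at h2
  · have e : ((dir i : ℤ) - dir i') * w = -(9 ^ i * (dir (i' - i) * w)) := by
      have := dir_sub i' i hle
      have : (dir i : ℤ) - dir i' = -(9 ^ i * dir (i' - i)) := by linarith
      rw [this]; ring
    rw [e, dvd_neg] at h
    have h2 := dvd_of j (i' - i) w ((coprime9 j i).dvd_of_dvd_mul_left h)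
    rw [Nat.cast_sub hle] at h2
    have : ((i : ℤ) - i') * w = -(((i' : ℤ) - i) * w) := by ring
    rw [this, dvd_neg]
    exact h2

/-- the number of `u < m` in a set of numbers congruent modulo `m / g` is at most `g` -/
lemma card_le (m g : ℕ) (hm : 0 < m) (hg : g ∣ m) (s : Finset ℕ) (hs : s ⊆ range m)
    (h : ∀ u ∈ s, ∀ u' ∈ s, ((m / g : ℕ) : ℤ) ∣ (u : ℤ) - u') : s.card ≤ g := by
  obtain ⟨q, rfl⟩ := hg
  have hg0 : 0 < g := Nat.pos_of_mul_pos_right hm |> fun _ => by
    rcases Nat.eq_zero_or_pos g with h0 | h0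
    · simp [h0] at hm
    · exact h0
  have hq0 : 0 < q := by
    rcases Nat.eq_zero_or_pos q with h0 | h0
    · simp [h0] at hm
    · exact h0
  rw [Nat.mul_div_cancel_left _ hg0] at h
  calc s.card = (s.image (fun u => u / q)).card := by
        rw [card_image_of_injOn]
        intro u hu u' hu' he
        simp only at he
        have h1 := h u hu u' hu'
        have h2 : u % q = u' % q := by
          have : (u : ℤ) ≡ u' [ZMOD q] := (Int.modEq_iff_dvd.2 (by
            have := dvd_neg.2 h1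
            rwa [neg_sub] at this))
          exact (Int.natCast_modEq_iff.1 this)
        rw [← Nat.div_add_mod u q, ← Nat.div_add_mod u' q, he, h2]
    _ ≤ (range g).card := by
        apply card_le_card
        intro x hx
        rw [mem_image] at hx
        obtain ⟨u, hu, rfl⟩ := hx
        have := mem_range.1 (hs hu)
        rw [mem_range, Nat.div_lt_iff_lt_mul hq0]
        exact this
    _ = g := card_range g

lemma sum_gcd (j : ℕ) : 2 * ∑ d ∈ range (2 ^ j), Nat.gcd d (2 ^ j) = (j + 2) * 2 ^ j := by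
  induction j with
  | zero => simp
  | succ j ih =>
    have e : ∑ d ∈ range (2 ^ (j + 1)), Nat.gcd d (2 ^ (j + 1)) =
        ∑ d ∈ range (2 ^ j), (Nat.gcd (2 * d) (2 ^ (j + 1)) + Nat.gcd (2 * d + 1) (2 ^ (j + 1))) := by
      have key : ∀ (f : ℕ → ℕ) (n : ℕ), ∑ d ∈ range (2 * n), f d =
          ∑ d ∈ range n, (f (2 * d) + f (2 * d + 1)) := by
        intro f n
        induction n with
        | zero => simp
        | succ n ihn =>
          rw [show 2 * (n + 1) = 2 * n + 1 + 1 by ring, sum_range_succ, sum_range_succ, ihn,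
            sum_range_succ]
          ring
      have h2 : 2 ^ (j + 1) = 2 * 2 ^ j := by rw [pow_succ, mul_comm]
      calc ∑ d ∈ range (2 ^ (j + 1)), Nat.gcd d (2 ^ (j + 1))
          = ∑ d ∈ range (2 * 2 ^ j), Nat.gcd d (2 ^ (j + 1)) := by rw [h2]
        _ = _ := key _ _
    have e2 : ∀ d ∈ range (2 ^ j), (Nat.gcd (2 * d) (2 ^ (j + 1)) +
        Nat.gcd (2 * d + 1) (2 ^ (j + 1))) = 2 * Nat.gcd d (2 ^ j) + 1 := by
      intro d _
      have h1 : Nat.gcd (2 * d) (2 ^ (j + 1)) = 2 * Nat.gcd d (2 ^ j) := by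
        rw [pow_succ, mul_comm (2 ^ j) 2, Nat.gcd_mul_left]
      have h2 : Nat.gcd (2 * d + 1) (2 ^ (j + 1)) = 1 := by
        apply Nat.Coprime.pow_right
        rw [Nat.coprime_two_right]
        exact ⟨d, rfl⟩
      rw [h1, h2]
    rw [e, sum_congr rfl e2, sum_add_distrib, ← mul_sum, sum_const, card_range, smul_eq_mul,
      mul_one, mul_add, ih, pow_succ]
    ring

/-- the number of solutions of `b_i + c_i u = b_i' + c_i' u` -/
lemma sol (j i i' : ℕ) (b : ℕ → ZMod (2 ^ j)) :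
    ((range (2 ^ j)).filter (fun u : ℕ => b i + (dir i : ZMod (2 ^ j)) * (u : ZMod (2 ^ j)) =
      b i' + (dir i' : ZMod (2 ^ j)) * (u : ZMod (2 ^ j)))).card ≤
      Int.gcd ((i : ℤ) - i') (2 ^ j : ℕ) := by
  have hm : 0 < 2 ^ j := by positivity
  apply card_le (2 ^ j) _ hm
  · have := Int.gcd_dvd_right ((i : ℤ) - i') ((2 ^ j : ℕ) : ℤ)
    exact_mod_cast this
  · exact filter_subset _ _
  · intro u hu u' hu'
    rw [mem_filter] at hu hu'
    have h1 : ((((dir i : ℤ) - dir i') * ((u : ℤ) - u') : ℤ) : ZMod (2 ^ j)) = 0 := by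
      push_cast
      have a1 := hu.2
      have a2 := hu'.2
      linear_combination a1 - a2
    have h2 : ((2 ^ j : ℕ) : ℤ) ∣ ((dir i : ℤ) - dir i') * ((u : ℤ) - u') :=
      (ZMod.intCast_zmod_eq_zero_iff_dvd _ _).1 h1
    push_cast at h2
    have h3 := dvd_sub_of j i i' _ h2
    -- 2^j ∣ (i - i') w implies 2^j / g ∣ w
    have h4 : ((2 ^ j : ℕ) : ℤ) ∣ ((i : ℤ) - i') * ((u : ℤ) - u') := by push_cast; exact h3
    set g : ℕ := Int.gcd ((i : ℤ) - i') ((2 ^ j : ℕ) : ℤ) with hg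
    have hgd : g ∣ 2 ^ j := Int.natCast_dvd_natCast.1
      (Int.gcd_dvd_right ((i : ℤ) - i') ((2 ^ j : ℕ) : ℤ))
    have hg0 : 0 < g := Nat.pos_of_dvd_of_pos hgd hm
    have h5 : ((2 ^ j : ℕ) : ℤ) ∣ (g : ℤ) * ((u : ℤ) - u') := by
      rw [hg, Int.gcd_eq_gcd_ab]
      rw [add_mul]
      apply dvd_add
      · have : ((i : ℤ) - i') * Int.gcdA ((i : ℤ) - i') ((2 ^ j : ℕ) : ℤ) * ((u : ℤ) - u') =
            (((i : ℤ) - i') * ((u : ℤ) - u')) * Int.gcdA ((i : ℤ) - i') ((2 ^ j : ℕ) : ℤ) := by ring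
        rw [this]
        exact h4.mul_right _
      · rw [mul_assoc]
        exact dvd_mul_right _ _
    obtain ⟨q, hq⟩ := hgd
    have h6 : 2 ^ j / g = q := by rw [hq, Nat.mul_div_cancel_left _ hg0]
    rw [h6]
    rw [hq] at h5
    push_cast at h5
    exact (mul_dvd_mul_iff_left (by exact_mod_cast hg0.ne')).1 h5

lemma sum_gcd_sub (m i : ℕ) (hi : i < m) :
    ∑ i' ∈ range m, Int.gcd ((i : ℤ) - i') (m : ℤ) = ∑ d ∈ range m, Nat.gcd d m := by
  have key : ∀ a, a < m → (if a ≤ i then i - a else i + m - a) < m := by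
    intro a ha; split_ifs <;> omega
  have key2 : ∀ a, a < m → (if (if a ≤ i then i - a else i + m - a) ≤ i then
      i - (if a ≤ i then i - a else i + m - a) else
      i + m - (if a ≤ i then i - a else i + m - a)) = a := by
    intro a ha; split_ifs <;> omega
  refine sum_bij' (fun i' _ => if i' ≤ i then i - i' else i + m - i')
    (fun i' _ => if i' ≤ i then i - i' else i + m - i')
    (fun a ha => mem_range.2 (key a (mem_range.1 ha)))
    (fun a ha => mem_range.2 (key a (mem_range.1 ha)))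
    (fun a ha => key2 a (mem_range.1 ha)) (fun a ha => key2 a (mem_range.1 ha)) ?_
  intro a ha
  rw [mem_range] at ha
  show Int.gcd ((i : ℤ) - a) (m : ℤ) = Nat.gcd (if a ≤ i then i - a else i + m - a) m
  split_ifs with h
  · rw [← Nat.cast_sub h, Int.gcd_natCast_natCast]
  · have e : ((i + m - a : ℕ) : ℤ) = (i : ℤ) - a + m := by
      rw [Nat.cast_sub (by omega)]; push_cast; ring
    rw [← Int.gcd_natCast_natCast, e, Int.gcd_add_self_left]

theorem aux (j m : ℕ) (hm : m = 2 ^ j) (b : ℕ → ZMod m) :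
    ∑ u ∈ Finset.range m, (1 : ℝ) / (((Finset.range m).image fun i =>
      b i + (dir i : ZMod m) * (u : ZMod m)).card : ℝ) ≤ 1 + (j : ℝ) / 2 := by
  have hm0 : 0 < m := by rw [hm]; positivity
  have hmR : (0 : ℝ) < m := by exact_mod_cast hm0
  -- Cauchy-Schwarz for every `u`
  let f : ℕ → ℕ → ZMod m := fun u i => b i + (dir i : ZMod m) * (u : ZMod m)
  let N : ℕ → ℕ := fun u => ((range m ×ˢ range m).filter (fun p => f u p.1 = f u p.2)).card
  have h1 : ∀ u : ℕ, (1 : ℝ) / (((range m).image (f u)).card : ℝ) ≤ (N u : ℝ) / (m : ℝ) ^ 2 := by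
    intro u
    have hK : 0 < ((range m).image (f u)).card :=
      card_pos.2 ⟨f u 0, mem_image_of_mem _ (mem_range.2 hm0)⟩
    have hKR : (0 : ℝ) < (((range m).image (f u)).card : ℝ) := by exact_mod_cast hK
    have e1 : ∑ x ∈ (range m).image (f u), ((range m).filter (fun i => f u i = x)).card = m := by
      rw [← card_eq_sum_card_image, card_range]
    have e2 : N u = ∑ x ∈ (range m).image (f u), ((range m).filter (fun i => f u i = x)).card ^ 2 := by
      have : ((range m ×ˢ range m).filter (fun p => f u p.1 = f u p.2)) =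
          ((range m).image (f u)).biUnion (fun x => ((range m).filter (fun i => f u i = x)) ×ˢ
            ((range m).filter (fun i => f u i = x))) := by
        ext ⟨i, i'⟩
        simp only [mem_filter, mem_product, mem_biUnion, mem_image]
        constructor
        · rintro ⟨⟨hi, hi'⟩, he⟩
          exact ⟨f u i, ⟨i, hi, rfl⟩, ⟨hi, rfl⟩, ⟨hi', he.symm⟩⟩
        · rintro ⟨x, _, ⟨hi, h1⟩, ⟨hi', h2⟩⟩
          exact ⟨⟨hi, hi'⟩, h1.trans h2.symm⟩
      show ((range m ×ˢ range m).filter (fun p => f u p.1 = f u p.2)).card = _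
      rw [this, card_biUnion]
      · refine sum_congr rfl (fun x _ => ?_)
        rw [card_product, sq]
      · intro x _ y _ hxy
        rw [Function.onFun, disjoint_left]
        rintro ⟨i, i'⟩ ha hb
        rw [mem_product, mem_filter, mem_filter] at ha hb
        exact hxy (ha.1.2.symm.trans hb.1.2)
    have e3 := sq_sum_le_card_mul_sum_sq (s := (range m).image (f u))
      (f := fun x => ((((range m).filter (fun i => f u i = x)).card : ℕ) : ℝ))
    rw [div_le_div_iff₀ hKR (by positivity), one_mul]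
    have e4 : ∑ x ∈ (range m).image (f u), ((((range m).filter (fun i => f u i = x)).card : ℕ) : ℝ)
        = (m : ℝ) := by exact_mod_cast e1
    have e5 : ∑ x ∈ (range m).image (f u), ((((range m).filter (fun i => f u i = x)).card : ℕ) : ℝ) ^ 2
        = (N u : ℝ) := by rw [e2]; push_cast; rfl
    rw [e4, e5] at e3
    linarith
  -- double counting
  have h2 : ∑ u ∈ range m, N u ≤ ∑ i ∈ range m, ∑ i' ∈ range m, Int.gcd ((i : ℤ) - i') (m : ℤ) := by
    have e : ∑ u ∈ range m, N u = ∑ i ∈ range m, ∑ i' ∈ range m,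
        ((range m).filter (fun u => f u i = f u i')).card := by
      have e0 : ∀ u, N u = ∑ i ∈ range m, ∑ i' ∈ range m, (if f u i = f u i' then 1 else 0) := by
        intro u
        show ((range m ×ˢ range m).filter (fun p => f u p.1 = f u p.2)).card = _
        rw [card_filter, sum_product]
      simp_rw [e0, card_filter]
      rw [sum_comm]
      refine sum_congr rfl (fun i _ => ?_)
      rw [sum_comm]
    rw [e]
    refine sum_le_sum (fun i _ => sum_le_sum (fun i' _ => ?_))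
    subst hm
    exact sol j i i' b
  have h3 : ∑ i ∈ range m, ∑ i' ∈ range m, Int.gcd ((i : ℤ) - i') (m : ℤ) =
      m * ∑ d ∈ range m, Nat.gcd d m := by
    rw [sum_congr rfl (fun i hi => sum_gcd_sub m i (mem_range.1 hi)), sum_const, card_range,
      smul_eq_mul]
  have h4 := sum_gcd j
  rw [← hm] at h4
  have h5 : (∑ u ∈ range m, (N u : ℝ)) ≤ (m : ℝ) ^ 2 * (1 + (j : ℝ) / 2) := by
    have h6 : ((∑ u ∈ range m, N u : ℕ) : ℝ) ≤ ((m * ∑ d ∈ range m, Nat.gcd d m : ℕ) : ℝ) := by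
      exact_mod_cast (h2.trans h3.le)
    have h7 : (2 : ℝ) * ((∑ d ∈ range m, Nat.gcd d m : ℕ) : ℝ) = ((j : ℝ) + 2) * m := by
      exact_mod_cast h4
    push_cast at h6 h7
    have h8 : (∑ d ∈ range m, (Nat.gcd d m : ℝ)) = ((j : ℝ) + 2) * m / 2 := by linarith
    rw [h8] at h6
    calc (∑ u ∈ range m, (N u : ℝ)) ≤ m * (((j : ℝ) + 2) * m / 2) := h6
      _ = _ := by ring
  calc ∑ u ∈ range m, (1 : ℝ) / (((range m).image fun i =>
      b i + (dir i : ZMod m) * (u : ZMod m)).card : ℝ)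
      ≤ ∑ u ∈ range m, (N u : ℝ) / (m : ℝ) ^ 2 := sum_le_sum (fun u _ => h1 u)
    _ = (∑ u ∈ range m, (N u : ℝ)) / (m : ℝ) ^ 2 := by rw [sum_div]
    _ ≤ ((m : ℝ) ^ 2 * (1 + (j : ℝ) / 2)) / (m : ℝ) ^ 2 := by
        apply div_le_div_of_nonneg_right h5 (by positivity)
    _ = 1 + (j : ℝ) / 2 := by
        field_simp

/-- Module M4 -/
theorem main : KakeyaStatement := fun j b => aux j _ rfl b

end Pool.Agent.L0h63.MP.Kak
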