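import Pool.Agent.L0h63.MP.Defs

/-! # Module M3: the line property from the stability of the relations between theta series -/

set_option autoImplicit false

namespace Pool.Agent.L0h63.MP.LineM

open PowerSeries Pool.Agent.L0h63.MP

/-! ### squares -/

lemma zz (x : ZMod 2) : x + x = 0 := by
  revert x; decide

lemma zsq (x : ZMod 2) : x * x = x := by
  revert x; decide

lemma coeff_sq (G : S) (n : ℕ) : coeff n (G ^ 2) = if 2 ∣ n then coeff (n / 2) G else 0 := by
  rw [sq, coeff_mul]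
  rw [← Finset.sum_filter_add_sum_filter_not (Finset.HasAntidiagonal.antidiagonal n) (fun p => p.1 = p.2)]
  have h1 : ∑ p ∈ (Finset.HasAntidiagonal.antidiagonal n).filter (fun p => ¬ p.1 = p.2),
      coeff p.1 G * coeff p.2 G = 0 := by
    apply Finset.sum_involution (fun p _ => (p.2, p.1))
    · intro p _
      rw [mul_comm (coeff p.2 G)]
      exact zz _
    · intro p hp _ h
      rw [Finset.mem_filter] at hp
      exact hp.2 (congrArg Prod.fst h).symm
    · intro p hp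
      rw [Finset.mem_filter, Finset.HasAntidiagonal.mem_antidiagonal] at hp ⊢
      exact ⟨by rw [← hp.1]; exact add_comm _ _, fun h => hp.2 h.symm⟩
    · intro p _
      rfl
  rw [h1, add_zero]
  split_ifs with h
  · obtain ⟨k, rfl⟩ := h
    have : (Finset.HasAntidiagonal.antidiagonal (2 * k)).filter (fun p => p.1 = p.2) = {(k, k)} := by
      ext ⟨a, b⟩
      simp only [Finset.mem_filter, Finset.HasAntidiagonal.mem_antidiagonal, Finset.mem_singleton, Prod.mk.injEq]
      omega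
    rw [this, Finset.sum_singleton, zsq]
    congr 1
    congr 1
    omega
  · apply Finset.sum_eq_zero
    intro p hp
    rw [Finset.mem_filter, Finset.HasAntidiagonal.mem_antidiagonal] at hp
    exfalso
    apply h
    exact ⟨p.1, by omega⟩

lemma coeff_pow8 (G : S) (n : ℕ) : coeff (8 * n) (G ^ 8) = coeff n G := by
  have : G ^ 8 = ((G ^ 2) ^ 2) ^ 2 := by ring
  rw [this, coeff_sq, if_pos (by omega), coeff_sq, if_pos (by omega), coeff_sq, if_pos (by omega)]
  congr 1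
  congr 1
  omega

lemma coeff_pow8_ne (G : S) (n : ℕ) (h : coeff n (G ^ 8) ≠ 0) : ∃ k, n = 8 * k := by
  have e : G ^ 8 = ((G ^ 2) ^ 2) ^ 2 := by ring
  rw [e, coeff_sq] at h
  split_ifs at h with h1
  · rw [coeff_sq] at h
    split_ifs at h with h2
    · rw [coeff_sq] at h
      split_ifs at h with h3
      · exact ⟨n / 8, by omega⟩
      · exact absurd rfl h
    · exact absurd rfl h
  · exact absurd rfl h

lemma Db_eq : (Db : S) = X * T ^ 8 := by
  change X * (Pool.Agent.TH693.PP.E) ^ 24 = X * (Pool.Agent.TH693.PP.E ^ 3) ^ 8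
  ring

/-! ### residue parts -/

/-- the part of `G` with exponents `≡ ρ` modulo `M` -/
noncomputable def e (M : ℕ) (ρ : ZMod M) (G : S) : S :=
  PowerSeries.mk fun n => if (n : ZMod M) = ρ then coeff n G else 0

lemma coeff_e (M : ℕ) (ρ : ZMod M) (G : S) (n : ℕ) :
    coeff n (e M ρ G) = if (n : ZMod M) = ρ then coeff n G else 0 := by
  rw [e, coeff_mk]

lemma e_add (M : ℕ) (ρ : ZMod M) (G H : S) : e M ρ (G + H) = e M ρ G + e M ρ H := by
  ext n
  simp only [coeff_e, map_add]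
  split_ifs <;> simp

lemma e_zero (M : ℕ) (ρ : ZMod M) : e M ρ (0 : S) = 0 := by
  ext n; simp [coeff_e]

lemma e_sum {ι : Type*} (M : ℕ) (ρ : ZMod M) (s : Finset ι) (f : ι → S) :
    e M ρ (∑ i ∈ s, f i) = ∑ i ∈ s, e M ρ (f i) := by
  classical
  induction s using Finset.induction_on with
  | empty => simp [e_zero]
  | insert a s ha ih => rw [Finset.sum_insert ha, Finset.sum_insert ha, e_add, ih]

/-- a factor with exponents in one class -/
lemma e_mul_hom (M : ℕ) (ρ σ : ZMod M) (G H : S)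
    (hG : ∀ n, coeff n G ≠ 0 → (n : ZMod M) = σ) : e M ρ (G * H) = G * e M (ρ - σ) H := by
  ext n
  rw [coeff_e, coeff_mul, coeff_mul]
  have : ∀ p ∈ Finset.HasAntidiagonal.antidiagonal n, coeff p.1 G * coeff p.2 (e M (ρ - σ) H) =
      if (n : ZMod M) = ρ then coeff p.1 G * coeff p.2 H else 0 := by
    intro p hp
    rw [Finset.HasAntidiagonal.mem_antidiagonal] at hp
    by_cases h0 : coeff p.1 G = 0
    · rw [h0]; simp
    · have h1 := hG _ h0
      rw [coeff_e]
      have h2 : ((p.2 : ZMod M) = ρ - σ) ↔ ((n : ZMod M) = ρ) := by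
        rw [← hp, Nat.cast_add, h1, eq_sub_iff_add_eq, add_comm]
      by_cases h3 : (n : ZMod M) = ρ
      · rw [if_pos (h2.2 h3), if_pos h3]
      · rw [if_neg (fun h => h3 (h2.1 h)), if_neg h3, mul_zero]
  rw [Finset.sum_congr rfl this]
  split_ifs with h
  · rfl
  · simp

/-! ### the polynomials -/

/-- the part of `Db ^ u` in the class `ρ` modulo `8 m` as a polynomial in the theta series -/
noncomputable def Ep (m : ℕ) : ℕ → ZMod (8 * m) → MvPolynomial ℤ (ZMod 2)
  | 0, ρ => if ρ = 0 then 1 else 0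
  | u + 1, ρ => ∑ s ∈ Finset.range m,
      MvPolynomial.X (2 * (s : ℤ) + 1) * Ep m u (ρ - ((2 * s + 1 : ℕ) : ZMod (8 * m)) ^ 2)

lemma Th_class (hTF : ThetaFacts) (m s n : ℕ) (h : coeff n (Th (4 * m) (2 * (s : ℤ) + 1)) ≠ 0) :
    (n : ZMod (8 * m)) = ((2 * s + 1 : ℕ) : ZMod (8 * m)) ^ 2 := by
  by_contra hcon
  apply h
  apply hTF.low
  intro k hk hdvd
  apply hcon
  obtain ⟨q, hq⟩ := hdvd
  have h1 : ((n : ℤ) : ZMod (8 * m)) = (((2 * s + 1 : ℕ) : ℤ) ^ 2 : ℤ) := by
    rw [ZMod.intCast_eq_intCast_iff_dvd_sub]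
    have hk2 : k = 2 * (s : ℤ) + 1 + 4 * m * q := by push_cast at hq; linarith
    refine ⟨-(q * (2 * s + 1) + 2 * m * q ^ 2), ?_⟩
    rw [← hk, hk2]
    push_cast
    ring
  have h2 := h1
  push_cast at h2 ⊢
  exact h2

lemma aeval_Ep (hTF : ThetaFacts) (m : ℕ) (hm : 1 ≤ m) (u : ℕ) : ∀ ρ : ZMod (8 * m),
    MvPolynomial.aeval (fun a => Th (4 * m) a) (Ep m u ρ) = e (8 * m) ρ ((Db : S) ^ u) := by
  induction u with
  | zero =>
    intro ρ
    rw [Ep, pow_zero]
    ext n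
    rw [coeff_e, PowerSeries.coeff_one]
    by_cases hρ : ρ = 0
    · rw [if_pos hρ, map_one, PowerSeries.coeff_one]
      by_cases hn : n = 0
      · simp [hn, hρ]
      · simp [hn]
    · rw [if_neg hρ, map_zero, map_zero]
      by_cases hn : n = 0
      · subst hn
        rw [if_neg]
        simpa using fun h => hρ h.symm
      · simp [hn]
  | succ u ih =>
    intro ρ
    rw [Ep, map_sum, pow_succ', hTF.sum m hm, Finset.sum_mul, e_sum]
    apply Finset.sum_congr rfl
    intro s _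
    rw [map_mul, MvPolynomial.aeval_X, ih, ← hTF.sum m hm,
      e_mul_hom (8 * m) ρ (((2 * s + 1 : ℕ) : ZMod (8 * m)) ^ 2) _ _
        (fun n hn => Th_class hTF m s n hn)]

/-- iterated stability -/
lemma stab_iter (h : StabStatement) (m : ℕ) (f : MvPolynomial ℤ (ZMod 2))
    (hf : MvPolynomial.aeval (fun a => Th (2 ^ (m + 2)) a) f = (0 : S)) (l : ℕ) :
    MvPolynomial.aeval (fun a => Th (2 ^ (m + 2)) (3 ^ l * a)) f = (0 : S) := by
  induction l with
  | zero => simpa using hf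
  | succ l ih =>
    have h1 : MvPolynomial.aeval (fun a => Th (2 ^ (m + 2)) a)
        (MvPolynomial.rename (fun a : ℤ => 3 ^ l * a) f) = (0 : S) := by
      rw [MvPolynomial.aeval_rename]
      exact ih
    have h2 := h m _ h1
    rw [MvPolynomial.aeval_rename] at h2
    have e1 : ((fun a : ℤ => Th (2 ^ (m + 2)) (3 * a)) ∘ fun a : ℤ => 3 ^ l * a) =
        fun a : ℤ => Th (2 ^ (m + 2)) (3 ^ (l + 1) * a) := by
      funext a
      simp only [Function.comp]
      congr 1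
      ring
    rw [e1] at h2
    exact h2

/-! ### leading terms -/

/-- evaluation at series `y` with one leading series -/
lemma lead (m : ℕ) (y : ℤ → S) (s₀ : ℕ) (hs₀ : s₀ < m)
    (h0 : ∀ s < m, coeff 0 (y (2 * (s : ℤ) + 1)) = 0)
    (h1 : ∀ s < m, coeff 1 (y (2 * (s : ℤ) + 1)) = if s = s₀ then 1 else 0) (u : ℕ) :
    ∀ ρ : ZMod (8 * m), ∃ A : S, MvPolynomial.aeval y (Ep m u ρ) = X ^ u * A ∧
      constantCoeff A = if ρ = (u : ZMod (8 * m)) * ((2 * s₀ + 1 : ℕ) : ZMod (8 * m)) ^ 2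
        then 1 else 0 := by
  have hy : ∀ s < m, ∃ B : S, y (2 * (s : ℤ) + 1) = X * B ∧
      constantCoeff B = if s = s₀ then 1 else 0 := by
    intro s hs
    have : X ∣ y (2 * (s : ℤ) + 1) := by
      rw [PowerSeries.X_dvd_iff]
      rw [← PowerSeries.coeff_zero_eq_constantCoeff_apply]
      exact h0 s hs
    obtain ⟨B, hB⟩ := this
    refine ⟨B, hB, ?_⟩
    rw [← h1 s hs, hB, ← PowerSeries.coeff_zero_eq_constantCoeff_apply]
    rw [show (1 : ℕ) = 0 + 1 from rfl, PowerSeries.coeff_succ_X_mul]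
  choose! B hB1 hB2 using hy
  induction u with
  | zero =>
    intro ρ
    refine ⟨if ρ = 0 then 1 else 0, ?_, ?_⟩
    · rw [Ep]; split_ifs <;> simp
    · simp only [Nat.cast_zero, zero_mul]
      split_ifs <;> simp
  | succ u ih =>
    intro ρ
    choose A hA1 hA2 using ih
    refine ⟨∑ s ∈ Finset.range m, B s * A (ρ - ((2 * s + 1 : ℕ) : ZMod (8 * m)) ^ 2), ?_, ?_⟩
    · rw [Ep, map_sum, Finset.mul_sum]
      apply Finset.sum_congr rfl
      intro s hs
      rw [Finset.mem_range] at hs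
      rw [map_mul, MvPolynomial.aeval_X, hA1, hB1 s hs]
      ring
    · rw [map_sum, Finset.sum_eq_single s₀]
      · rw [map_mul, hB2 s₀ hs₀, if_pos rfl, one_mul, hA2]
        congr 1
        rw [sub_eq_iff_eq_add]
        push_cast
        apply propext
        constructor
        · intro h; rw [h]; ring
        · intro h; rw [h]; ring
      · intro s hs hne
        rw [Finset.mem_range] at hs
        rw [map_mul, hB2 s hs, if_neg hne, zero_mul]
      · intro h
        exact absurd (Finset.mem_range.2 hs₀) h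

/-! ### arithmetic of the directions -/

lemma three_pow (j : ℕ) (hj : 1 ≤ j) : (4 * 2 ^ j : ℤ) ∣ 3 ^ (2 ^ j) - 1 := by
  induction j, hj using Nat.le_induction with
  | base => norm_num
  | succ j _ ih =>
    obtain ⟨q, hq⟩ := ih
    have h1 : (3 : ℤ) ^ (2 ^ (j + 1)) - 1 = (3 ^ (2 ^ j) - 1) * (3 ^ (2 ^ j) - 1 + 2) := by
      rw [pow_succ, pow_mul]; ring
    rw [h1, hq]
    refine ⟨q * (2 * 2 ^ j * q + 1), ?_⟩
    ring

lemma dir_spec (i : ℕ) : (8 : ℤ) * (dir i : ℤ) + 1 = 9 ^ i := by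
  have h : 8 ∣ 9 ^ i - 1 := by
    have := Nat.sub_dvd_pow_sub_pow 9 1 i
    simpa using this
  unfold dir
  have h1 : 8 * ((9 ^ i - 1) / 8) = 9 ^ i - 1 := Nat.mul_div_cancel' h
  have h2 : 1 ≤ 9 ^ i := Nat.one_le_pow _ _ (by norm_num)
  have h3 : 8 * ((9 ^ i - 1) / 8) + 1 = 9 ^ i := by omega
  exact_mod_cast h3

/-- the index with leading term -/
lemma exists_s (j : ℕ) (i : ℕ) : ∃ s₀ : ℕ, s₀ < 2 ^ j ∧ ∃ ε q : ℤ, ε ^ 2 = 1 ∧
    2 * (s₀ : ℤ) + 1 = ε * 3 ^ i + 4 * 2 ^ j * q := by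
  set m : ℕ := 2 ^ j with hm
  have hmpos : 0 < m := by positivity
  set x := 3 ^ i % (4 * m) with hx
  have hx1 : x < 4 * m := Nat.mod_lt _ (by omega)
  have hodd : x % 2 = 1 := by
    have h1 : 3 ^ i % 2 = 1 := by
      rw [Nat.pow_mod]; norm_num
    rw [hx, Nat.mod_mod_of_dvd _ ⟨2 * m, by ring⟩]
    exact h1
  have hxe : (3 ^ i : ℤ) = x + 4 * m * ((3 ^ i / (4 * m) : ℕ) : ℤ) := by
    have := Nat.mod_add_div (3 ^ i) (4 * m)
    rw [← hx] at this
    exact_mod_cast this.symm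
  have hmc : (2 : ℤ) ^ j = (m : ℤ) := by rw [hm]; push_cast; rfl
  by_cases h : x < 2 * m
  · refine ⟨x / 2, by omega, 1, -((3 ^ i / (4 * m) : ℕ) : ℤ), by norm_num, ?_⟩
    rw [hmc, hxe]
    have : 2 * (x / 2) + 1 = x := by omega
    have h2 : 2 * ((x / 2 : ℕ) : ℤ) + 1 = x := by exact_mod_cast this
    rw [h2]; ring
  · refine ⟨(4 * m - x) / 2, by omega, -1, 1 + ((3 ^ i / (4 * m) : ℕ) : ℤ), by norm_num, ?_⟩
    rw [hmc, hxe]
    have : 2 * ((4 * m - x) / 2) + 1 + x = 4 * m := by omega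
    have h2 : 2 * (((4 * m - x) / 2 : ℕ) : ℤ) + 1 + x = 4 * m := by exact_mod_cast this
    linear_combination h2

/-- the values of `3 ^ l (2 s + 1)` -/
lemma three_l (j : ℕ) (hj : 1 ≤ j) (i s₀ : ℕ) (hs₀ : s₀ < 2 ^ j) (ε q : ℤ) (hε : ε ^ 2 = 1)
    (h : 2 * (s₀ : ℤ) + 1 = ε * 3 ^ i + 4 * 2 ^ j * q) (s : ℕ) (hs : s < 2 ^ j) :
    ((4 * 2 ^ j : ℤ) ∣ 3 ^ ((2 ^ j - 1) * i) * (2 * (s : ℤ) + 1) - 1 ∨
      (4 * 2 ^ j : ℤ) ∣ 3 ^ ((2 ^ j - 1) * i) * (2 * (s : ℤ) + 1) + 1) ↔ s = s₀ := by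
  set m : ℕ := 2 ^ j with hm
  have hmpos : 0 < m := by positivity
  have hmc : (2 : ℤ) ^ j = (m : ℤ) := by rw [hm]; push_cast; rfl
  rw [hmc] at h ⊢
  have h3 : (4 * m : ℤ) ∣ 3 ^ (m * i) - 1 := by
    have h4 := three_pow j hj
    rw [hmc, ← hm] at h4
    have h5 : (3 ^ m - 1 : ℤ) ∣ 3 ^ (m * i) - 1 := by
      rw [pow_mul]
      simpa using sub_dvd_pow_sub_pow ((3 : ℤ) ^ m) 1 i
    exact h4.trans h5
  have hsplit : (3 : ℤ) ^ ((m - 1) * i) * 3 ^ i = 3 ^ (m * i) := by
    rw [← pow_add]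
    congr 1
    have : m = (m - 1) + 1 := by omega
    nth_rw 2 [this]
    ring
  set L : ℤ := 3 ^ ((m - 1) * i) with hL
  obtain ⟨w, hw⟩ := h3
  have hLs0 : L * (2 * (s₀ : ℤ) + 1) = ε + 4 * m * (ε * w + L * q) := by
    rw [h]
    linear_combination ε * hsplit + ε * hw
  have hε2 : ε = 1 ∨ ε = -1 := by
    have : (ε - 1) * (ε + 1) = 0 := by linear_combination hε
    rcases mul_eq_zero.1 this with h | h
    · left; linarith
    · right; linarith
  have hcop : IsCoprime (4 * m : ℤ) L := by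
    have h1 : IsCoprime (2 : ℤ) 3 := ⟨-1, 1, by norm_num⟩
    have h2 : (4 * m : ℤ) = 2 ^ (j + 2) := by rw [← hmc]; ring
    rw [h2, hL]
    exact h1.pow
  constructor
  · intro hor
    -- 2 s + 1 = ± (2 s₀ + 1) mod 4 m
    have key : (4 * m : ℤ) ∣ (2 * (s : ℤ) + 1) - (2 * s₀ + 1) ∨
        (4 * m : ℤ) ∣ (2 * (s : ℤ) + 1) + (2 * s₀ + 1) := by
      have hd0 : ∀ δ : ℤ, (4 * m : ℤ) ∣ L * (2 * (s : ℤ) + 1) - δ * ε →
          (4 * m : ℤ) ∣ (2 * (s : ℤ) + 1) - δ * (2 * s₀ + 1) := by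
        intro δ hδ
        apply hcop.dvd_of_dvd_mul_left
        obtain ⟨z, hz⟩ := hδ
        refine ⟨z - δ * (ε * w + L * q), ?_⟩
        linear_combination hz - δ * hLs0
      rcases hor with h1 | h1 <;> rcases hε2 with h2 | h2
      · left
        have := hd0 1 (by rw [h2]; simpa using h1)
        simpa using this
      · right
        have := hd0 (-1) (by rw [h2]; simpa using h1)
        have e : (2 * (s : ℤ) + 1) - (-1) * (2 * s₀ + 1) = (2 * (s : ℤ) + 1) + (2 * s₀ + 1) := by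
          ring
        rwa [e] at this
      · right
        have := hd0 (-1) (by
          rw [h2]
          have e : L * (2 * (s : ℤ) + 1) - (-1) * 1 = L * (2 * (s : ℤ) + 1) + 1 := by ring
          rwa [e])
        have e : (2 * (s : ℤ) + 1) - (-1) * (2 * s₀ + 1) = (2 * (s : ℤ) + 1) + (2 * s₀ + 1) := by
          ring
        rwa [e] at this
      · left
        have := hd0 1 (by
          rw [h2]
          have e : L * (2 * (s : ℤ) + 1) - 1 * (-1) = L * (2 * (s : ℤ) + 1) + 1 := by ring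
          rwa [e])
        simpa using this
    have hs' : (s : ℤ) < m := by exact_mod_cast hs
    have hs0' : (s₀ : ℤ) < m := by exact_mod_cast hs₀
    have hsn : (0 : ℤ) ≤ s := Int.natCast_nonneg s
    have hs0n : (0 : ℤ) ≤ s₀ := Int.natCast_nonneg s₀
    rcases key with ⟨z, hz⟩ | ⟨z, hz⟩
    · have hz0 : z = 0 := by
        by_contra hne
        rcases lt_or_gt_of_ne hne with h1 | h1
        · have : z ≤ -1 := by omega
          nlinarith
        · have : 1 ≤ z := by omega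
          nlinarith
      rw [hz0, mul_zero] at hz
      have : (s : ℤ) = s₀ := by linarith
      exact_mod_cast this
    · exfalso
      have h1 : 0 < 4 * (m : ℤ) * z := by rw [← hz]; linarith
      have h2 : 0 < z := by
        by_contra hcon
        push Not at hcon
        have : (0 : ℤ) < m := by exact_mod_cast hmpos
        nlinarith
      have : 1 ≤ z := by omega
      have h3 : (0 : ℤ) < m := by exact_mod_cast hmpos
      nlinarith
  · rintro rfl
    rcases hε2 with h1 | h1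
    · left
      refine ⟨ε * w + L * q, ?_⟩
      rw [hLs0, h1]; ring
    · right
      refine ⟨ε * w + L * q, ?_⟩
      rw [hLs0, h1]; ring

/-! ### the determinant -/

/-- the class of the row `b` -/
noncomputable def rw' (j i : ℕ) (u : ZMod (2 ^ j) → ℕ) (b : ZMod (2 ^ j)) : ZMod (8 * 2 ^ j) :=
  ((8 * (b + (dir i : ZMod (2 ^ j)) * (u b : ZMod (2 ^ j))).val + u b : ℕ) : ZMod (8 * 2 ^ j))

/-- the class of the column `r` -/
noncomputable def cl (j : ℕ) (r : ZMod (2 ^ j)) : ZMod (8 * 2 ^ j) :=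
  ((8 * r.val : ℕ) : ZMod (8 * 2 ^ j))

lemma cond (j i : ℕ) (u : ZMod (2 ^ j) → ℕ) (b r : ZMod (2 ^ j)) (s₀ : ℕ) (ε q : ℤ)
    (hε : ε ^ 2 = 1) (h : 2 * (s₀ : ℤ) + 1 = ε * 3 ^ i + 4 * 2 ^ j * q) :
    rw' j i u b - cl j r = (u b : ZMod (8 * 2 ^ j)) * ((2 * s₀ + 1 : ℕ) : ZMod (8 * 2 ^ j)) ^ 2 ↔
      b = r := by
  have : NeZero (2 ^ j) := ⟨by positivity⟩
  set v := (b + (dir i : ZMod (2 ^ j)) * (u b : ZMod (2 ^ j))).val with hv
  have h9 : ((2 * s₀ + 1 : ℕ) : ZMod (8 * 2 ^ j)) ^ 2 = ((8 * dir i + 1 : ℕ) : ZMod (8 * 2 ^ j)) := by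
    have : (((2 * s₀ + 1 : ℕ) : ℤ) ^ 2 : ℤ) - ((8 * dir i + 1 : ℕ) : ℤ) =
        ((8 * 2 ^ j : ℕ) : ℤ) * (ε * 3 ^ i * q + 2 * 2 ^ j * q ^ 2) := by
      push_cast
      rw [dir_spec, h]
      have : (9 : ℤ) ^ i = (3 ^ i) ^ 2 := by
        rw [← pow_mul, mul_comm, pow_mul]; norm_num
      rw [this]
      linear_combination (3 ^ i) ^ 2 * hε
    have h2 : (((((2 * s₀ + 1 : ℕ) : ℤ) ^ 2 : ℤ)) : ZMod (8 * 2 ^ j)) =
        (((8 * dir i + 1 : ℕ) : ℤ) : ZMod (8 * 2 ^ j)) := by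
      rw [ZMod.intCast_eq_intCast_iff_dvd_sub]
      refine ⟨-(ε * 3 ^ i * q + 2 * 2 ^ j * q ^ 2), ?_⟩
      linear_combination -this
    rw [Int.cast_pow, Int.cast_natCast, Int.cast_natCast] at h2
    exact h2
  rw [h9]
  unfold rw' cl
  rw [← hv]
  have h1 : (((8 * v + u b : ℕ) : ZMod (8 * 2 ^ j)) - ((8 * r.val : ℕ) : ZMod (8 * 2 ^ j)) =
      (u b : ZMod (8 * 2 ^ j)) * ((8 * dir i + 1 : ℕ) : ZMod (8 * 2 ^ j))) ↔
      ((2 ^ j : ℕ) : ℤ) ∣ (v : ℤ) - r.val - dir i * u b := by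
    rw [← sub_eq_zero]
    have e1 : ((8 * v + u b : ℕ) : ZMod (8 * 2 ^ j)) - ((8 * r.val : ℕ) : ZMod (8 * 2 ^ j)) -
        (u b : ZMod (8 * 2 ^ j)) * ((8 * dir i + 1 : ℕ) : ZMod (8 * 2 ^ j)) =
        ((8 * ((v : ℤ) - r.val - dir i * u b) : ℤ) : ZMod (8 * 2 ^ j)) := by
      push_cast; ring
    rw [e1, ZMod.intCast_zmod_eq_zero_iff_dvd]
    push_cast
    constructor
    · rintro ⟨z, hz⟩
      refine ⟨z, ?_⟩
      linarith
    · rintro ⟨z, hz⟩
      refine ⟨z, ?_⟩
      rw [hz]; ring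
  rw [h1]
  have h2 : (((v : ℤ) - r.val - dir i * u b : ℤ) : ZMod (2 ^ j)) = b - r := by
    push_cast
    rw [hv, ZMod.natCast_zmod_val, ZMod.natCast_zmod_val]
    ring
  rw [← ZMod.intCast_zmod_eq_zero_iff_dvd, h2, sub_eq_zero]

/-- the matrix -/
noncomputable def Mx (j i : ℕ) (u : ZMod (2 ^ j) → ℕ) : Matrix (ZMod (2 ^ j)) (ZMod (2 ^ j)) S :=
  fun b r => e (8 * 2 ^ j) (rw' j i u b - cl j r) ((Db : S) ^ (u b))

lemma det_ne (hst : StabStatement) (hTF : ThetaFacts) (j : ℕ) (hj : 1 ≤ j) (i : ℕ)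
    (u : ZMod (2 ^ j) → ℕ) :
    haveI : NeZero (2 ^ j) := ⟨by positivity⟩
    (Mx j i u).det ≠ 0 := by
  have : NeZero (2 ^ j) := ⟨by positivity⟩
  intro hdet
  obtain ⟨s₀, hs₀, ε, q, hε, hs₀e⟩ := exists_s j i
  have hm1 : 1 ≤ 2 ^ j := Nat.one_le_two_pow
  have hN : 2 ^ (j + 2) = 4 * 2 ^ j := by ring
  set Mp : Matrix (ZMod (2 ^ j)) (ZMod (2 ^ j)) (MvPolynomial ℤ (ZMod 2)) :=
    fun b r => Ep (2 ^ j) (u b) (rw' j i u b - cl j r) with hMp
  have h1 : MvPolynomial.aeval (fun a => Th (2 ^ (j + 2)) a) Mp.det = (0 : S) := by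
    rw [AlgHom.map_det, hN]
    have : (MvPolynomial.aeval fun a => Th (4 * 2 ^ j) a).mapMatrix Mp = Mx j i u := by
      ext1 b r
      rw [AlgHom.mapMatrix_apply, Matrix.map_apply, hMp]
      exact aeval_Ep hTF (2 ^ j) hm1 (u b) _
    rw [this]
    exact hdet
  have h2 := stab_iter hst j Mp.det h1 ((2 ^ j - 1) * i)
  rw [hN] at h2
  set y : ℤ → S := fun a => Th (4 * 2 ^ j) (3 ^ ((2 ^ j - 1) * i) * a) with hy
  have hoddL : ∀ s : ℕ, ¬ (((4 * 2 ^ j : ℕ) : ℤ) ∣
      0 - 3 ^ ((2 ^ j - 1) * i) * (2 * (s : ℤ) + 1)) := by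
    intro s ⟨z, hz⟩
    have h3 : Odd ((3 : ℤ) ^ ((2 ^ j - 1) * i) * (2 * (s : ℤ) + 1)) :=
      (Odd.pow (by decide)).mul ⟨s, by ring⟩
    obtain ⟨w, hw⟩ := h3
    push_cast at hz
    have : 2 * (w + 2 * 2 ^ j * z) = -1 := by linear_combination -hz - hw
    omega
  have h0 : ∀ s : ℕ, s < 2 ^ j → coeff 0 (y (2 * (s : ℤ) + 1)) = 0 := by
    intro s hs
    apply hTF.low
    intro k hk hdvd
    have : k = 0 := by simpa using hk
    rw [this] at hdvd
    exact hoddL s hdvd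
  have h1c : ∀ s : ℕ, s < 2 ^ j → coeff 1 (y (2 * (s : ℤ) + 1)) = if s = s₀ then 1 else 0 := by
    intro s hs
    have hiff := three_l j hj i s₀ hs₀ ε q hε hs₀e s hs
    split_ifs with h
    · have h3 : 3 ≤ 4 * 2 ^ j := by omega
      rcases hiff.2 h with h4 | h4
      · rw [hy]
        simp only
        rw [hTF.congr (4 * 2 ^ j) _ 1 (by push_cast; exact h4)]
        exact hTF.one _ h3
      · rw [hy]
        simp only
        rw [hTF.congr (4 * 2 ^ j) _ (-1) (by push_cast; rw [sub_neg_eq_add]; exact h4), hTF.neg]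
        exact hTF.one _ h3
    · apply hTF.low
      intro k hk hdvd
      apply h
      apply hiff.1
      have hk2 : k = 1 ∨ k = -1 := by
        have : (k - 1) * (k + 1) = 0 := by
          push_cast at hk; linear_combination hk
        rcases mul_eq_zero.1 this with h | h
        · left; linarith
        · right; linarith
      obtain ⟨z, hz⟩ := hdvd
      push_cast at hz
      rcases hk2 with h5 | h5
      · left
        refine ⟨-z, ?_⟩
        rw [h5] at hz
        linear_combination -hz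
      · right
        refine ⟨-z, ?_⟩
        rw [h5] at hz
        linear_combination -hz
  have hlead := fun b r => lead (2 ^ j) y s₀ hs₀ h0 h1c (u b) (rw' j i u b - cl j r)
  choose A hA1 hA2 using hlead
  rw [AlgHom.map_det] at h2
  have h3 : (MvPolynomial.aeval y).mapMatrix Mp =
      Matrix.of fun b r => (X : S) ^ (u b) * A b r := by
    ext1 b r
    rw [AlgHom.mapMatrix_apply, Matrix.map_apply, Matrix.of_apply, hMp]
    exact hA1 b r
  rw [h3] at h2
  have h4 : (Matrix.of fun b r => (X : S) ^ (u b) * A b r).det =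
      (∏ b, (X : S) ^ (u b)) * (Matrix.of A).det := by
    exact Matrix.det_mul_column (fun b => (X : S) ^ (u b)) (Matrix.of A)
  rw [h4, mul_eq_zero] at h2
  rcases h2 with h2 | h2
  · rw [Finset.prod_eq_zero_iff] at h2
    obtain ⟨b, _, hb⟩ := h2
    exact pow_ne_zero _ PowerSeries.X_ne_zero hb
  · have h5 : constantCoeff ((Matrix.of A).det) = 1 := by
      rw [RingHom.map_det]
      have : (constantCoeff (R := ZMod 2)).mapMatrix (Matrix.of A) = 1 := by
        ext b r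
        rw [RingHom.mapMatrix_apply, Matrix.map_apply, Matrix.of_apply, hA2, Matrix.one_apply]
        congr 1
        exact propext (cond j i u b r s₀ ε q hε hs₀e)
      rw [this, Matrix.det_one]
    rw [h2, map_zero] at h5
    exact zero_ne_one h5

theorem main (hst : StabStatement) (hTF : ThetaFacts) : LineStatement := by
  intro j hj
  have : NeZero (2 ^ j) := ⟨by positivity⟩
  have hm1 : 1 ≤ 2 ^ j := Nat.one_le_two_pow
  set W : ℕ := (∑ i ∈ Finset.range (2 ^ j), ∑ u : ZMod (2 ^ j) → Fin (2 ^ j),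
    (Mx j i (fun b => (u b : ℕ))).det.order.toNat) + 2 ^ j with hW
  refine ⟨W, by omega, ?_⟩
  intro F hF i hi
  by_contra hcon
  push Not at hcon
  choose u hu hcon using hcon
  set u' : ZMod (2 ^ j) → Fin (2 ^ j) := fun b => ⟨u b, hu b⟩ with hu'
  have hMdet := det_ne hst hTF j hj i u
  set Dt : S := (Mx j i u).det with hDt
  have hWle : Dt.order.toNat + 2 ^ j ≤ W := by
    have h1 : Dt.order.toNat ≤ ∑ u : ZMod (2 ^ j) → Fin (2 ^ j),
        (Mx j i (fun b => (u b : ℕ))).det.order.toNat := by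
      have : Dt.order.toNat = (Mx j i (fun b => (u' b : ℕ))).det.order.toNat := by
        rw [hDt]
      rw [this]
      exact Finset.single_le_sum (f := fun u : ZMod (2 ^ j) → Fin (2 ^ j) =>
        (Mx j i (fun b => (u b : ℕ))).det.order.toNat) (fun _ _ => Nat.zero_le _)
        (Finset.mem_univ u')
    have h2 : ∑ u : ZMod (2 ^ j) → Fin (2 ^ j), (Mx j i (fun b => (u b : ℕ))).det.order.toNat ≤
        ∑ i ∈ Finset.range (2 ^ j), ∑ u : ZMod (2 ^ j) → Fin (2 ^ j),
          (Mx j i (fun b => (u b : ℕ))).det.order.toNat :=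
      Finset.single_le_sum (f := fun i => ∑ u : ZMod (2 ^ j) → Fin (2 ^ j),
        (Mx j i (fun b => (u b : ℕ))).det.order.toNat) (fun _ _ => Nat.zero_le _)
        (Finset.mem_range.2 hi)
    omega
  set F8 : S := F ^ 8 with hF8
  set x : ZMod (2 ^ j) → S := fun r => e (8 * 2 ^ j) (cl j r) F8 with hx
  -- decomposition of `F8`
  have hcl_inj : ∀ r r' : ZMod (2 ^ j), cl j r = cl j r' → r = r' := by
    intro r r' h
    unfold cl at h
    rw [ZMod.natCast_eq_natCast_iff] at h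
    have h1 : r.val ≡ r'.val [MOD 2 ^ j] := Nat.ModEq.mul_left_cancel' (by norm_num) h
    rw [← ZMod.natCast_eq_natCast_iff, ZMod.natCast_zmod_val, ZMod.natCast_zmod_val] at h1
    exact h1
  have hcl : ∀ k : ℕ, ((8 * k : ℕ) : ZMod (8 * 2 ^ j)) = cl j (k : ZMod (2 ^ j)) := by
    intro k
    unfold cl
    rw [ZMod.natCast_eq_natCast_iff]
    apply Nat.ModEq.mul_left'
    rw [← ZMod.natCast_eq_natCast_iff, ZMod.natCast_zmod_val]
  have hdec : F8 = ∑ r, x r := by
    ext n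
    rw [map_sum]
    simp only [hx, coeff_e]
    by_cases h : coeff n F8 = 0
    · rw [h]; simp
    · obtain ⟨k, rfl⟩ := coeff_pow8_ne F n h
      rw [Finset.sum_eq_single (k : ZMod (2 ^ j))]
      · rw [if_pos (hcl k)]
      · intro r _ hne
        rw [if_neg]
        intro h2
        apply hne
        apply hcl_inj
        rw [← h2, hcl]
      · intro h2
        exact absurd (Finset.mem_univ _) h2
  have hmul : ∀ b, ((Mx j i u).mulVec x) b = e (8 * 2 ^ j) (rw' j i u b) ((Db : S) ^ (u b) * F8) := by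
    intro b
    rw [hdec, Finset.mul_sum, e_sum]
    unfold Matrix.mulVec dotProduct
    apply Finset.sum_congr rfl
    intro r _
    rw [mul_comm ((Db : S) ^ (u b)), e_mul_hom (8 * 2 ^ j) (rw' j i u b) (cl j r) (x r)]
    · rw [mul_comm]; rfl
    · intro n hn
      simp only [hx, coeff_e] at hn
      by_contra h
      rw [if_neg h] at hn
      exact hn rfl
  have hdvd : ∀ b, (X : S) ^ (8 * W) ∣ ((Mx j i u).mulVec x) b := by
    intro b
    rw [hmul, PowerSeries.X_pow_dvd_iff]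
    intro n hn
    rw [coeff_e]
    split_ifs with h
    · have e1 : (Db : S) ^ (u b) * F8 = X ^ (u b) * (T ^ (u b) * F) ^ 8 := by
        rw [Db_eq, hF8]; ring
      rw [e1, PowerSeries.coeff_X_pow_mul']
      split_ifs with h2
      · by_contra hne
        obtain ⟨k, hk⟩ := coeff_pow8_ne _ _ hne
        rw [hk, coeff_pow8] at hne
        have hn2 : n = 8 * k + u b := by omega
        apply hne
        apply hcon b k (by omega)
        -- residue of `k`
        unfold rw' at h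
        rw [hn2, Nat.cast_add, Nat.cast_add] at h
        have h3 : ((8 * k : ℕ) : ZMod (8 * 2 ^ j)) =
            ((8 * (b + (dir i : ZMod (2 ^ j)) * (u b : ZMod (2 ^ j))).val : ℕ) :
              ZMod (8 * 2 ^ j)) := add_right_cancel h
        rw [hcl] at h3
        exact hcl_inj _ _ h3
      · rfl
    · rfl
  have hadj : ∀ r, (X : S) ^ (8 * W) ∣ Dt * x r := by
    intro r
    have h1 : ((Mx j i u).adjugate.mulVec ((Mx j i u).mulVec x)) r = Dt * x r := by
      rw [Matrix.mulVec_mulVec, Matrix.adjugate_mul, Matrix.smul_mulVec, Matrix.one_mulVec]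
      rfl
    rw [← h1]
    unfold Matrix.mulVec dotProduct
    apply Finset.dvd_sum
    intro b _
    exact Dvd.dvd.mul_left (hdvd b) _
  obtain ⟨n, hn, hnF⟩ := hF
  have hxn : coeff (8 * n) (x (n : ZMod (2 ^ j))) ≠ 0 := by
    simp only [hx, coeff_e]
    rw [if_pos (hcl n), hF8, coeff_pow8]
    exact hnF
  have h1 := hadj (n : ZMod (2 ^ j))
  have h2 : ((8 * W : ℕ) : ℕ∞) ≤ (Dt * x (n : ZMod (2 ^ j))).order := by
    apply PowerSeries.nat_le_order
    exact PowerSeries.X_pow_dvd_iff.1 h1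
  rw [PowerSeries.order_mul] at h2
  have h3 : (x (n : ZMod (2 ^ j))).order ≤ ((8 * n : ℕ) : ℕ∞) := PowerSeries.order_le _ hxn
  have h4 : Dt.order = ((Dt.order.toNat : ℕ) : ℕ∞) := by
    rw [ENat.natCast_toNat]
    rw [ne_eq, PowerSeries.order_eq_top]
    exact hMdet
  have h5 : ((8 * W : ℕ) : ℕ∞) ≤ ((Dt.order.toNat + 8 * n : ℕ) : ℕ∞) := by
    refine h2.trans ?_
    rw [Nat.cast_add, ← h4]
    gcongr
  have h6 : 8 * W ≤ Dt.order.toNat + 8 * n := by exact_mod_cast h5
  omega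

end Pool.Agent.L0h63.MP.LineM
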