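import Pool.Agent.L0h63.MP.Stab5

set_option autoImplicit false

/-!
# Equivariance of the theta series, part 6: the induction, and the final statement
-/

namespace Pool.Agent.L0h63.MP

open PowerSeries

namespace Stab

/-- the automorphism `a ↦ 3 a` of level `M` -/
def Stage (M : ℕ) : Prop :=
  ∃ τ : KK M →+* Om, ∀ a, R (KK M) τ (th M a) (th M (3 * a))

section facts

variable (H : ThetaFacts)

include H

theorem stage_zero : Stage 4 := by
  refine ⟨(KK 4).subtype, fun a => ⟨th_mem 4 a, ?_⟩⟩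
  show th 4 a = th 4 (3 * a)
  rw [← th_neg H 4 (3 * a)]
  apply th_congr H
  refine ⟨a, ?_⟩
  push_cast
  ring

theorem stage_succ {M : ℕ} (hM : 0 < M) (h4 : 4 ∣ M) (hs : Stage M)
    (hn : th (2 * M) 1 ∉ KK M) : Stage (2 * M) := by
  obtain ⟨τ, hτ⟩ := hs
  have h2 : 2 ∣ M := dvd_trans (by norm_num) h4
  have h42 : 4 ∣ 2 * M := by omega
  obtain ⟨hb, hb'⟩ := hτ 1
  obtain ⟨hc, hc'⟩ := cc_mem H h4 hM (by decide : Odd (3 : ℤ)) hτ 1
  rw [mul_one] at hb' hc'
  obtain ⟨K1, τ1, hext, hα⟩ := extend (K := KK M) (τ := τ) (α := th (2 * M) 1) (β := th (2 * M) 3)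
    ⟨_, hb⟩ ⟨_, hc⟩ (root H hM h2 1) (by rw [hb', hc']; exact root H hM h2 3) hn
  have heq := equiv H hM (th_ne_odd h42 1 (by decide)) (th_ne_odd h42 3 (by decide))
    (fun a => hext _ _ (hτ a)) hα
  have hle : KK (2 * M) ≤ K1 := by
    refine Subfield.closure_le.mpr ?_
    rintro x ⟨a, rfl⟩
    exact (heq a).1
  refine ⟨τ1.comp (Subfield.inclusion hle), fun a => ⟨th_mem _ _, ?_⟩⟩
  obtain ⟨h5, h6⟩ := heq a
  rw [← h6]
  rfl

theorem stage (m : ℕ) : Stage (2 ^ (m + 2)) := by
  induction m with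
  | zero => exact stage_zero H
  | succ m ih =>
    have e : 2 ^ (m + 1 + 2) = 2 * 2 ^ (m + 2) := by ring
    rw [e]
    have h4 : 4 ∣ 2 ^ (m + 2) := ⟨2 ^ m, by ring⟩
    refine stage_succ H (by positivity) h4 ih ?_
    rcases m with _ | m
    · exact not_mem_four H
    · obtain ⟨τ, hτ⟩ := ih
      exact not_mem H τ hτ

end facts

end Stab

open Stab in
/-- Module M2 -/
theorem stab (H : ThetaFacts) : StabStatement := by
  intro m f hf
  have hst := stage H m
  set N := 2 ^ (m + 2) with hN
  obtain ⟨τ, hτ⟩ := hst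
  have h1 : MvPolynomial.aeval (fun a => th N a) f = (0 : Om) := by
    have := congrArg (algebraMap S Om) hf
    rw [map_zero] at this
    rw [← this, ← MvPolynomial.aeval_algebraMap_apply]
    rfl
  have hR : ∀ p : MvPolynomial ℤ (ZMod 2), R (KK N) τ (MvPolynomial.aeval (fun a => th N a) p)
      (MvPolynomial.aeval (fun a => th N (3 * a)) p) := by
    intro p
    induction p using MvPolynomial.induction_on with
    | C c =>
      rw [MvPolynomial.aeval_C, MvPolynomial.aeval_C]
      have hc : c = 0 ∨ c = 1 := by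
        revert c
        decide
      rcases hc with rfl | rfl
      · rw [map_zero]
        exact R.zero
      · rw [map_one]
        exact R.one
    | add p q hp hq =>
      rw [map_add, map_add]
      exact hp.add hq
    | mul_X p a hp =>
      rw [map_mul, map_mul, MvPolynomial.aeval_X, MvPolynomial.aeval_X]
      exact hp.mul (hτ a)
  have h3 := hR f
  rw [h1] at h3
  have h4 := R.unique h3 R.zero
  apply inj
  rw [map_zero, ← h4, ← MvPolynomial.aeval_algebraMap_apply]
  rfl

end Pool.Agent.L0h63.MP
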