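import Pool.Agent.L0h63.MP.Defs
import Pool.Agent.H397R2.PP.A

set_option autoImplicit false

/-!
# Module M5: the iteration over the tree of residue classes
-/

namespace Pool.Agent.L0h63.MP.Tree

open PowerSeries Finset

/-- the part of `F` in the residue class `r` modulo `m` -/
noncomputable def sec (m r : ℕ) (F : S) : S := PowerSeries.mk fun n => coeff (m * n + r) F

theorem coeff_sec (m r n : ℕ) (F : S) : coeff n (sec m r F) = coeff (m * n + r) F := by
  simp [sec]

theorem sec_mul (m : ℕ) (hm : m ≠ 0) (r : ℕ) (hr : r < m) (A H : S) :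
    sec m r (PowerSeries.expand m hm A * H) = A * sec m r H := by
  ext n
  rw [coeff_sec, coeff_mul, coeff_mul, Finset.Nat.sum_antidiagonal_eq_sum_range_succ_mk,
    Finset.Nat.sum_antidiagonal_eq_sum_range_succ_mk]
  symm
  apply Finset.sum_of_injOn (fun k => m * k)
  · intro a _ b _ hab
    exact Nat.eq_of_mul_eq_mul_left (Nat.pos_of_ne_zero hm) hab
  · intro k hk
    simp only [Finset.coe_range, Set.mem_Iio] at hk ⊢
    have : m * k ≤ m * n := Nat.mul_le_mul_left m (by omega)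
    omega
  · intro i hi hi'
    simp only [Finset.mem_range, Finset.coe_range, Set.mem_image, Set.mem_Iio, not_exists, not_and] at hi hi'
    by_cases hd : m ∣ i
    · obtain ⟨k, rfl⟩ := hd
      exfalso
      refine hi' k ?_ rfl
      by_contra hk
      have h1 : m * (n + 1) ≤ m * k := Nat.mul_le_mul_left m (by omega)
      have h2 : m * (n + 1) = m * n + m := by ring
      omega
    · rw [PowerSeries.coeff_expand_of_not_dvd m hm _ hd, zero_mul]
  · intro k hk
    simp only [Finset.mem_range] at hk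
    simp only
    rw [PowerSeries.coeff_expand_mul, coeff_sec]
    have h3 : m * (n - k) + m * k = m * n := by
      rw [← mul_add]; congr 1; omega
    have h4 : m * n + r - m * k = m * (n - k) + r := by omega
    rw [h4]

theorem sec_pow (j r : ℕ) (hr : r < 2 ^ j) (T F : S) (u t : ℕ) :
    sec (2 ^ j) r (T ^ (u + 2 ^ j * t) * F) = T ^ t * sec (2 ^ j) r (T ^ u * F) := by
  have h1 : T ^ (u + 2 ^ j * t) * F =
      PowerSeries.expand (2 ^ j) (by positivity) (T ^ t) * (T ^ u * F) := by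
    rw [← Pool.Agent.H397R2.PP.pow_eq_expand, ← pow_mul, pow_add, mul_comm t]
    ring
  rw [h1, sec_mul _ _ _ hr]

theorem G_succ (j W : ℕ) (T : S) (n : ℕ) (F : S) (u t : ℕ) :
    G j W T (n + 1) F (u + 2 ^ j * t) =
      ∑ r ∈ range (2 ^ j), G j W T n (sec (2 ^ j) r (T ^ u * F)) t := by
  have hm : 0 < 2 ^ j := by positivity
  unfold G
  rw [← Finset.card_sigma]
  symm
  apply Finset.card_bij (fun (x : Σ _ : ℕ, ℕ) _ => x.1 + 2 ^ j * x.2)
  · rintro ⟨r, ρ⟩ hx
    simp only [mem_sigma, mem_range, mem_filter] at hx ⊢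
    obtain ⟨hr, hρ, a, ha, hne⟩ := hx
    refine ⟨?_, a, ha, ?_⟩
    · have : 2 ^ j * (ρ + 1) ≤ 2 ^ j * (2 ^ j) ^ n := Nat.mul_le_mul_left _ hρ
      have h2 : 2 ^ j * (ρ + 1) = 2 ^ j * ρ + 2 ^ j := by ring
      rw [pow_succ']
      omega
    · rw [← sec_pow j r hr, coeff_sec] at hne
      have h3 : r + 2 ^ j * ρ + (2 ^ j) ^ (n + 1) * a = 2 ^ j * (ρ + (2 ^ j) ^ n * a) + r := by
        ring
      rw [h3]
      exact hne
  · rintro ⟨r, ρ⟩ hx ⟨r', ρ'⟩ hx' h
    simp only [mem_sigma, mem_range, mem_filter] at hx hx' h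
    have h1 : r = r' := by
      have := congrArg (· % 2 ^ j) h
      simpa [Nat.add_mul_mod_self_left, Nat.mod_eq_of_lt hx.1, Nat.mod_eq_of_lt hx'.1] using this
    subst h1
    have h2 : 2 ^ j * ρ = 2 ^ j * ρ' := by omega
    have h3 : ρ = ρ' := Nat.eq_of_mul_eq_mul_left hm h2
    subst h3
    rfl
  · intro R hR
    simp only [mem_range, mem_filter] at hR
    obtain ⟨hR, a, ha, hne⟩ := hR
    have hr : R % 2 ^ j < 2 ^ j := Nat.mod_lt _ hm
    refine ⟨⟨R % 2 ^ j, R / 2 ^ j⟩, ?_, ?_⟩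
    · simp only [mem_sigma, mem_range, mem_filter]
      refine ⟨hr, ?_, a, ha, ?_⟩
      · rw [Nat.div_lt_iff_lt_mul hm, mul_comm, ← pow_succ']
        exact hR
      · rw [← sec_pow j _ hr, coeff_sec]
        have h3 : 2 ^ j * (R / 2 ^ j + (2 ^ j) ^ n * a) + R % 2 ^ j = R + (2 ^ j) ^ (n + 1) * a := by
          have := Nat.div_add_mod R (2 ^ j)
          calc 2 ^ j * (R / 2 ^ j + (2 ^ j) ^ n * a) + R % 2 ^ j
              = (2 ^ j * (R / 2 ^ j) + R % 2 ^ j) + (2 ^ j) ^ (n + 1) * a := by ring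
            _ = _ := by rw [this]
        rw [h3]
        exact hne
    · simp only
      rw [add_comm]
      exact Nat.div_add_mod R (2 ^ j)

/-- one level: the line property gives, for each `u`, good children in all classes
`b i + dir i * u` -/
theorem children (j W : ℕ) (T : S) (hj : 1 ≤ j) (hL : Line j W T) (F : S)
    (hF : ∃ a < W, coeff a F ≠ 0) :
    ∃ b : ℕ → ZMod (2 ^ j), ∀ i : ℕ, i < 2 ^ j → ∀ u : ℕ, u < 2 ^ j →
      ∃ a < W, coeff a (sec (2 ^ j) (b i + (dir i : ZMod (2 ^ j)) * (u : ZMod (2 ^ j))).val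
        (T ^ u * F)) ≠ 0 := by
  classical
  have hm : 0 < 2 ^ j := by positivity
  have hm2 : 2 ≤ 2 ^ j := by
    calc 2 = 2 ^ 1 := by norm_num
      _ ≤ 2 ^ j := Nat.pow_le_pow_right (by norm_num) hj
  haveI : NeZero (2 ^ j) := ⟨hm.ne'⟩
  -- first nonzero coefficient
  have hex : ∃ a, coeff a F ≠ 0 := ⟨hF.choose, hF.choose_spec.2⟩
  set a0 := Nat.find hex with ha0
  have ha0c : coeff a0 F ≠ 0 := Nat.find_spec hex
  have ha0W : a0 < W := lt_of_le_of_lt (Nat.find_min' hex hF.choose_spec.2) hF.choose_spec.1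
  have hlow : ∀ a < a0, coeff a F = 0 := fun a ha => by
    by_contra h
    exact Nat.find_min hex ha h
  set k := a0 / 2 ^ j with hk
  have hdm : 2 ^ j * k + a0 % 2 ^ j = a0 := Nat.div_add_mod a0 (2 ^ j)
  set F' : S := PowerSeries.mk fun n => coeff (n + 2 ^ j * k) F with hF'
  have hFF' : F = X ^ (2 ^ j * k) * F' := by
    ext n
    rw [coeff_X_pow_mul']
    split_ifs with h
    · rw [hF', coeff_mk, Nat.sub_add_cancel h]
    · apply hlow
      omega
  have hF'0 : ∃ n : ℕ, n < 2 ^ j ∧ coeff n F' ≠ 0 := by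
    refine ⟨a0 % 2 ^ j, Nat.mod_lt _ hm, ?_⟩
    rw [hF', coeff_mk, add_comm, hdm]
    exact ha0c
  have hl : ∀ i : ℕ, i < 2 ^ j → ∃ b : ZMod (2 ^ j), ∀ u : ℕ, u < 2 ^ j →
      ∃ n : ℕ, n < W ∧ (n : ZMod (2 ^ j)) = b + (dir i : ZMod (2 ^ j)) * (u : ZMod (2 ^ j)) ∧
        coeff n (T ^ u * F') ≠ 0 := hL F' hF'0
  choose! b hb using hl
  refine ⟨b, fun i hi u hu => ?_⟩
  obtain ⟨n, hnW, hn, hne⟩ := hb i hi u hu
  have hval : (b i + (dir i : ZMod (2 ^ j)) * (u : ZMod (2 ^ j))).val = n % 2 ^ j := by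
    rw [← hn, ZMod.val_natCast]
  refine ⟨n / 2 ^ j + k, ?_, ?_⟩
  · have h1 : 2 ^ j * (n / 2 ^ j) ≤ n := Nat.mul_div_le n (2 ^ j)
    have h2 : 2 ^ j * (n / 2 ^ j + k) < 2 ^ j * W := by
      calc 2 ^ j * (n / 2 ^ j + k) = 2 ^ j * (n / 2 ^ j) + 2 ^ j * k := by ring
        _ < 2 * W := by omega
        _ ≤ 2 ^ j * W := Nat.mul_le_mul_right W hm2
    exact Nat.lt_of_mul_lt_mul_left h2
  · rw [coeff_sec, hval]
    have h3 : 2 ^ j * (n / 2 ^ j + k) + n % 2 ^ j = n + 2 ^ j * k := by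
      have := Nat.div_add_mod n (2 ^ j)
      calc 2 ^ j * (n / 2 ^ j + k) + n % 2 ^ j = (2 ^ j * (n / 2 ^ j) + n % 2 ^ j) + 2 ^ j * k := by
            ring
        _ = _ := by rw [this]
    rw [h3]
    have h4 : T ^ u * F = X ^ (2 ^ j * k) * (T ^ u * F') := by
      conv_lhs => rw [hFF']
      ring
    rw [h4, coeff_X_pow_mul]
    exact hne

/-- the inequality between the arithmetic and the harmonic mean -/
theorem amhm {ι : Type*} (s : Finset ι) (hs : s.Nonempty) (g : ι → ℝ) (hg : ∀ i ∈ s, 0 < g i) :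
    1 / ∑ i ∈ s, g i ≤ (1 / (s.card : ℝ) ^ 2) * ∑ i ∈ s, 1 / g i := by
  have hc : 0 < (s.card : ℝ) := by exact_mod_cast hs.card_pos
  have hsum : 0 < ∑ i ∈ s, g i := Finset.sum_pos hg hs
  have h1 : (s.card : ℝ) ^ 2 ≤ (∑ i ∈ s, g i) * ∑ i ∈ s, 1 / g i := by
    have := Finset.sum_mul_sq_le_sq_mul_sq s (fun i => Real.sqrt (g i)) (fun i => 1 / Real.sqrt (g i))
    have h2 : ∑ i ∈ s, Real.sqrt (g i) * (1 / Real.sqrt (g i)) = s.card := by
      rw [Finset.sum_congr rfl (g := fun _ => (1 : ℝ))]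
      · simp
      · intro i hi
        have : Real.sqrt (g i) ≠ 0 := (Real.sqrt_pos.mpr (hg i hi)).ne'
        field_simp
    have h3 : ∑ i ∈ s, Real.sqrt (g i) ^ 2 = ∑ i ∈ s, g i :=
      Finset.sum_congr rfl fun i hi => Real.sq_sqrt (hg i hi).le
    have h4 : ∑ i ∈ s, (1 / Real.sqrt (g i)) ^ 2 = ∑ i ∈ s, 1 / g i :=
      Finset.sum_congr rfl fun i hi => by
        rw [div_pow, Real.sq_sqrt (hg i hi).le, one_pow]
    rw [h2, h3, h4] at this
    exact this
  rw [div_mul_eq_mul_div, one_mul, div_le_div_iff₀ hsum (by positivity), one_mul]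
  linarith [h1, mul_comm (∑ i ∈ s, 1 / g i) (∑ i ∈ s, g i)]

theorem main (hK : KakeyaStatement) (j W : ℕ) (T : S) (hj : 1 ≤ j) (hL : Line j W T) (n : ℕ) :
    ∀ F : S, (∃ a < W, coeff a F ≠ 0) →
      (∀ t, t < (2 ^ j) ^ n ∨ coeff 0 T ≠ 0 → 1 ≤ G j W T n F t) ∧
      ∑ t ∈ Finset.range ((2 ^ j) ^ n), (1 : ℝ) / (G j W T n F t : ℝ) ≤ (1 + (j : ℝ) / 2) ^ n := by
  classical
  have hm : 0 < 2 ^ j := by positivity
  haveI : NeZero (2 ^ j) := ⟨hm.ne'⟩
  induction n with
  | zero =>
    intro F hF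
    have key : ∀ t, t < (2 ^ j) ^ 0 ∨ coeff 0 T ≠ 0 → 1 ≤ G j W T 0 F t := by
      intro t ht
      unfold G
      rw [Nat.one_le_iff_ne_zero, Finset.card_ne_zero]
      refine ⟨0, ?_⟩
      simp only [mem_filter, mem_range, pow_zero, one_mul, zero_add]
      refine ⟨by norm_num, ?_⟩
      rcases ht with ht | ht
      · have : t = 0 := by simpa using ht
        subst this
        simpa using hF
      · have hex : ∃ a, coeff a F ≠ 0 := ⟨hF.choose, hF.choose_spec.2⟩
        refine ⟨Nat.find hex, lt_of_le_of_lt (Nat.find_min' hex hF.choose_spec.2)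
          hF.choose_spec.1, ?_⟩
        set a0 := Nat.find hex with ha0
        have hlow : ∀ a < a0, coeff a F = 0 := fun a ha => by
          by_contra h
          exact Nat.find_min hex ha h
        have hFF' : F = X ^ a0 * (PowerSeries.mk fun n => coeff (n + a0) F) := by
          ext n
          rw [coeff_X_pow_mul']
          split_ifs with h
          · rw [coeff_mk, Nat.sub_add_cancel h]
          · apply hlow
            omega
        have h4 : T ^ t * F = X ^ a0 * (T ^ t * (PowerSeries.mk fun n => coeff (n + a0) F)) := by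
          conv_lhs => rw [hFF']
          ring
        rw [h4]
        have h5 := coeff_X_pow_mul (T ^ t * (PowerSeries.mk fun n => coeff (n + a0) F)) a0 0
        rw [zero_add] at h5
        rw [h5, coeff_zero_eq_constantCoeff_apply, map_mul, map_pow]
        apply mul_ne_zero
        · apply pow_ne_zero
          rw [← coeff_zero_eq_constantCoeff_apply]
          exact ht
        · rw [← coeff_zero_eq_constantCoeff_apply, coeff_mk, zero_add]
          exact Nat.find_spec hex
    refine ⟨key, ?_⟩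
    simp only [pow_zero, Finset.range_one, Finset.sum_singleton]
    have h1 : (1 : ℝ) ≤ G j W T 0 F 0 := by exact_mod_cast key 0 (Or.inl (by norm_num))
    rw [div_le_one (by linarith)]
    exact h1
  | succ n ih =>
    intro F hF
    obtain ⟨b, hb⟩ := children j W T hj hL F hF
    -- the good classes
    set A : ℕ → Finset (ZMod (2 ^ j)) := fun u => (Finset.range (2 ^ j)).image fun i =>
      b i + (dir i : ZMod (2 ^ j)) * (u : ZMod (2 ^ j)) with hA
    have hgood : ∀ u < 2 ^ j, ∀ c ∈ A u, ∃ a < W, coeff a (sec (2 ^ j) c.val (T ^ u * F)) ≠ 0 := by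
      intro u hu c hc
      simp only [hA, mem_image, mem_range] at hc
      obtain ⟨i, hi, rfl⟩ := hc
      exact hb i hi u hu
    have hAne : ∀ u, (A u).Nonempty := fun u => by
      simp only [hA, Finset.image_nonempty]
      exact ⟨0, by simpa using hm⟩
    have hsum : ∀ u t, ∑ c ∈ A u, G j W T n (sec (2 ^ j) c.val (T ^ u * F)) t ≤
        G j W T (n + 1) F (u + 2 ^ j * t) := by
      intro u t
      rw [G_succ]
      rw [← Finset.sum_image (s := A u) (g := fun c : ZMod (2 ^ j) => c.val)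
        (f := fun r => G j W T n (sec (2 ^ j) r (T ^ u * F)) t)
        (fun x _ y _ h => ZMod.val_injective _ h)]
      apply Finset.sum_le_sum_of_subset
      intro r hr
      rw [mem_image] at hr
      obtain ⟨c, _, rfl⟩ := hr
      exact mem_range.mpr (ZMod.val_lt c)
    constructor
    · intro t ht
      have hu : t % 2 ^ j < 2 ^ j := Nat.mod_lt _ hm
      have hdm : t % 2 ^ j + 2 ^ j * (t / 2 ^ j) = t := Nat.mod_add_div t (2 ^ j)
      rw [← hdm]
      refine le_trans ?_ (hsum (t % 2 ^ j) (t / 2 ^ j))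
      obtain ⟨c, hc⟩ := hAne (t % 2 ^ j)
      refine le_trans ?_ (Finset.single_le_sum (fun _ _ => Nat.zero_le _) hc)
      apply (ih _ (hgood _ hu c hc)).1
      rcases ht with ht | ht
      · left
        rw [Nat.div_lt_iff_lt_mul hm, mul_comm, ← pow_succ']
        exact ht
      · exact Or.inr ht
    · have hre : ∑ t ∈ range ((2 ^ j) ^ (n + 1)), (1 : ℝ) / (G j W T (n + 1) F t : ℝ) =
          ∑ u ∈ range (2 ^ j), ∑ t ∈ range ((2 ^ j) ^ n),
            (1 : ℝ) / (G j W T (n + 1) F (u + 2 ^ j * t) : ℝ) := by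
        rw [← Finset.sum_product']
        symm
        apply Finset.sum_bij (fun (x : ℕ × ℕ) _ => x.1 + 2 ^ j * x.2)
        · rintro ⟨r, ρ⟩ hx
          simp only [mem_product, mem_range] at hx ⊢
          have : 2 ^ j * (ρ + 1) ≤ 2 ^ j * (2 ^ j) ^ n := Nat.mul_le_mul_left _ hx.2
          have h2 : 2 ^ j * (ρ + 1) = 2 ^ j * ρ + 2 ^ j := by ring
          rw [pow_succ']
          omega
        · rintro ⟨r, ρ⟩ hx ⟨r', ρ'⟩ hx' h
          simp only [mem_product, mem_range] at hx hx' h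
          have h1 : r = r' := by
            have := congrArg (· % 2 ^ j) h
            simpa [Nat.add_mul_mod_self_left, Nat.mod_eq_of_lt hx.1, Nat.mod_eq_of_lt hx'.1] using this
          subst h1
          have h2 : 2 ^ j * ρ = 2 ^ j * ρ' := by omega
          have h3 : ρ = ρ' := Nat.eq_of_mul_eq_mul_left hm h2
          subst h3
          rfl
        · intro R hR
          simp only [mem_range] at hR
          refine ⟨(R % 2 ^ j, R / 2 ^ j), ?_, ?_⟩
          · simp only [mem_product, mem_range]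
            refine ⟨Nat.mod_lt _ hm, ?_⟩
            rw [Nat.div_lt_iff_lt_mul hm, mul_comm, ← pow_succ']
            exact hR
          · exact Nat.mod_add_div R (2 ^ j)
        · rintro ⟨r, ρ⟩ _
          rfl
      rw [hre]
      have hstep : ∀ u ∈ range (2 ^ j), ∑ t ∈ range ((2 ^ j) ^ n),
          (1 : ℝ) / (G j W T (n + 1) F (u + 2 ^ j * t) : ℝ) ≤
            (1 / ((A u).card : ℝ)) * (1 + (j : ℝ) / 2) ^ n := by
        intro u hu
        rw [mem_range] at hu
        have hc : 0 < ((A u).card : ℝ) := by exact_mod_cast (hAne u).card_pos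
        calc ∑ t ∈ range ((2 ^ j) ^ n), (1 : ℝ) / (G j W T (n + 1) F (u + 2 ^ j * t) : ℝ)
            ≤ ∑ t ∈ range ((2 ^ j) ^ n), (1 / ((A u).card : ℝ) ^ 2) *
                ∑ c ∈ A u, 1 / (G j W T n (sec (2 ^ j) c.val (T ^ u * F)) t : ℝ) := by
              apply Finset.sum_le_sum
              intro t ht
              rw [mem_range] at ht
              have hpos : ∀ c ∈ A u, (0 : ℝ) < (G j W T n (sec (2 ^ j) c.val (T ^ u * F)) t : ℝ) := by
                intro c hc
                have := (ih _ (hgood u hu c hc)).1 t (Or.inl ht)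
                exact_mod_cast this
              have h1 := amhm (A u) (hAne u) (fun c => (G j W T n (sec (2 ^ j) c.val (T ^ u * F)) t : ℝ))
                hpos
              refine le_trans ?_ h1
              apply one_div_le_one_div_of_le (Finset.sum_pos hpos (hAne u))
              exact_mod_cast hsum u t
          _ = (1 / ((A u).card : ℝ) ^ 2) * ∑ c ∈ A u, ∑ t ∈ range ((2 ^ j) ^ n),
                1 / (G j W T n (sec (2 ^ j) c.val (T ^ u * F)) t : ℝ) := by
              rw [← Finset.mul_sum, Finset.sum_comm]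
          _ ≤ (1 / ((A u).card : ℝ) ^ 2) * ∑ c ∈ A u, (1 + (j : ℝ) / 2) ^ n := by
              apply mul_le_mul_of_nonneg_left _ (by positivity)
              apply Finset.sum_le_sum
              intro c hc
              exact (ih _ (hgood u hu c hc)).2
          _ = (1 / ((A u).card : ℝ)) * (1 + (j : ℝ) / 2) ^ n := by
              rw [Finset.sum_const, nsmul_eq_mul]
              field_simp
      calc _ ≤ ∑ u ∈ range (2 ^ j), (1 / ((A u).card : ℝ)) * (1 + (j : ℝ) / 2) ^ n :=
            Finset.sum_le_sum hstep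
        _ = (∑ u ∈ range (2 ^ j), 1 / ((A u).card : ℝ)) * (1 + (j : ℝ) / 2) ^ n := by
            rw [Finset.sum_mul]
        _ ≤ (1 + (j : ℝ) / 2) * (1 + (j : ℝ) / 2) ^ n := by
            apply mul_le_mul_of_nonneg_right (hK j b) (by positivity)
        _ = _ := by rw [pow_succ']

end Pool.Agent.L0h63.MP.Tree

namespace Pool.Agent.L0h63.MP

open PowerSeries

/-- Module M5 for units `T` -/
theorem tree (hK : KakeyaStatement) (j W : ℕ) (T : S) (hj : 1 ≤ j) (hT : coeff 0 T ≠ 0)
    (hL : Line j W T) (n : ℕ) (F : S) (hF : ∃ a < W, coeff a F ≠ 0) :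
    (∀ t, 1 ≤ G j W T n F t) ∧
    ∑ t ∈ Finset.range ((2 ^ j) ^ n), (1 : ℝ) / (G j W T n F t : ℝ) ≤ (1 + (j : ℝ) / 2) ^ n :=
  ⟨fun t => (Tree.main hK j W T hj hL n F hF).1 t (Or.inr hT), (Tree.main hK j W T hj hL n F hF).2⟩

/-- Module M5 for arbitrary `T` -/
theorem tree' (hK : KakeyaStatement) (j W : ℕ) (T : S) (hj : 1 ≤ j)
    (hL : Line j W T) (n : ℕ) (F : S) (hF : ∃ a < W, coeff a F ≠ 0) :
    (∀ t, t < (2 ^ j) ^ n → 1 ≤ G j W T n F t) ∧
    ∑ t ∈ Finset.range ((2 ^ j) ^ n), (1 : ℝ) / (G j W T n F t : ℝ) ≤ (1 + (j : ℝ) / 2) ^ n :=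
  ⟨fun t ht => (Tree.main hK j W T hj hL n F hF).1 t (Or.inl ht),
    (Tree.main hK j W T hj hL n F hF).2⟩

end Pool.Agent.L0h63.MP
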