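import Pool.Agent.L0h63.MP.Theta
import Pool.Agent.L0h63.MP.Kak
import Pool.Agent.L0h63.MP.Tree
import Pool.Agent.L0h63.MP.LineM
import Pool.Agent.L0h63.MP.Stab6
import Pool.Agent.L0h63.MP.Final3

set_option autoImplicit false

/-!
# Assembly of the modules
-/

namespace Pool.Agent.L0h63.MP

open PowerSeries

theorem stabStatement : StabStatement := stab thetaFacts

theorem lineStatement : LineStatement := LineM.main stabStatement thetaFacts

theorem treeStatement : TreeStatement := fun j W T hj hT hL n F hF =>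
  tree Kak.main j W T hj hT hL n F hF

theorem final (ε : ℝ) (hε : 0 < ε) :
    ∃ C : ℝ, 0 < C ∧ ∀ F : S, coeff 0 F ≠ 0 → ∀ (κ : ZMod 2) (A x N : ℕ) (y : ℝ),
      1 ≤ x → 1 ≤ N → 1 ≤ y →
      (((Finset.Ico A (A + N)).filter fun t => (cntk F κ x t : ℝ) ≤ y).card : ℝ) ≤
        C * y * N / ((min x N : ℕ) : ℝ) ^ (1 - ε) :=
  core_k lineStatement treeStatement ε hε

end Pool.Agent.L0h63.MP
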