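import Pool.Agent.TH693.PP.Odd

set_option autoImplicit false

/-!
# Parity of multipartition numbers on average over `t`: definitions and module statements
-/

namespace Pool.Agent.L0h63.MP

open PowerSeries

abbrev S := (ZMod 2)⟦X⟧

/-- `T = ∑ X ^ (n (n + 1) / 2)`, the cube of `∏ (1 - X ^ n)` modulo 2 -/
noncomputable abbrev T : S := Pool.Agent.TH693.PP.T

/-- the discriminant modulo 2, `∑ X ^ (k ^ 2)` over odd `k > 0`; `Db = X * expand 8 T` -/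
noncomputable abbrev Db : S := Pool.Agent.H397R2.PP.Db

/-- theta series of a residue class: the sum of `X ^ (k ^ 2)` over all integers `k ≡ a mod N` -/
noncomputable def Th (N : ℕ) (a : ℤ) : S :=
  PowerSeries.mk fun n =>
    (((Finset.Icc (-(n : ℤ)) n).filter fun k => k ^ 2 = (n : ℤ) ∧ (N : ℤ) ∣ k - a).card : ZMod 2)

/-- the directions -/
def dir (i : ℕ) : ℕ := (9 ^ i - 1) / 8

/-- the line property at level `j` with precision `W` -/
def Line (j W : ℕ) (T : S) : Prop :=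
  ∀ F : S, (∃ n : ℕ, n < 2 ^ j ∧ coeff n F ≠ 0) → ∀ i : ℕ, i < 2 ^ j →
    ∃ b : ZMod (2 ^ j), ∀ u : ℕ, u < 2 ^ j →
    ∃ n : ℕ, n < W ∧ (n : ZMod (2 ^ j)) = b + (dir i : ZMod (2 ^ j)) * (u : ZMod (2 ^ j)) ∧
      coeff n (T ^ u * F) ≠ 0

/-- number of the residues `r` modulo `(2 ^ j) ^ n` such that one of the first `W` coefficients of
`T ^ t * F` in this class is odd -/
noncomputable def G (j W : ℕ) (T : S) (n : ℕ) (F : S) (t : ℕ) : ℕ :=
  ((Finset.range ((2 ^ j) ^ n)).filter fun r => ∃ a < W, coeff (r + (2 ^ j) ^ n * a) (T ^ t * F) ≠ 0).card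

/-- Module M2: relations between the theta series are stable under `a ↦ 3 a` -/
def StabStatement : Prop :=
  ∀ (m : ℕ) (f : MvPolynomial ℤ (ZMod 2)),
    MvPolynomial.aeval (fun a => Th (2 ^ (m + 2)) a) f = (0 : S) →
      MvPolynomial.aeval (fun a => Th (2 ^ (m + 2)) (3 * a)) f = (0 : S)

/-- Module M3: `StabStatement` and the formulas of module M1 imply this. -/
def LineStatement : Prop := ∀ j, 1 ≤ j → ∃ W, 0 < W ∧ Line j W T

/-- Module M4 (Kakeya sets) -/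
def KakeyaStatement : Prop :=
  ∀ (j : ℕ) (b : ℕ → ZMod (2 ^ j)),
    ∑ u ∈ Finset.range (2 ^ j), (1 : ℝ) / (((Finset.range (2 ^ j)).image fun i =>
      b i + (dir i : ZMod (2 ^ j)) * (u : ZMod (2 ^ j))).card : ℝ) ≤ 1 + (j : ℝ) / 2

/-- Module M5 (iteration): follows from `KakeyaStatement` and `Line` only -/
def TreeStatement : Prop :=
  ∀ (j W : ℕ) (T : S), 1 ≤ j → coeff 0 T ≠ 0 → Line j W T → ∀ (n : ℕ) (F : S), (∃ a < W, coeff a F ≠ 0) →
    (∀ t, 1 ≤ G j W T n F t) ∧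
    ∑ t ∈ Finset.range ((2 ^ j) ^ n), (1 : ℝ) / (G j W T n F t : ℝ) ≤ (1 + (j : ℝ) / 2) ^ n

/-- Module M1: formulas for the theta series -/
structure ThetaFacts : Prop where
  congr : ∀ (N : ℕ) (a b : ℤ), (N : ℤ) ∣ a - b → Th N a = Th N b
  neg : ∀ (N : ℕ) (a : ℤ), Th N (-a) = Th N a
  add : ∀ (M : ℕ), 0 < M → ∀ a : ℤ, Th (2 * M) a + Th (2 * M) (a + M) = Th M a
  two : ∀ (M : ℕ), 0 < M → ∀ a : ℤ, Th (2 * M) (2 * a) = Th M a ^ 4
  mul : ∀ (M : ℕ), 0 < M → ∀ u v : ℤ, Th (2 * M) (u + v) * Th (2 * M) (u - v) =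
    (Th (2 * M) u * Th (2 * M) v + Th (2 * M) (u + M) * Th (2 * M) (v + M)) ^ 2
  low : ∀ (N : ℕ) (a : ℤ) (n : ℕ), (∀ k : ℤ, k ^ 2 = (n : ℤ) → ¬ (N : ℤ) ∣ k - a) →
    coeff n (Th N a) = 0
  one : ∀ (N : ℕ), 3 ≤ N → coeff 1 (Th N 1) = 1
  sum : ∀ (m : ℕ), 1 ≤ m → Db = ∑ s ∈ Finset.range m, Th (4 * m) (2 * (s : ℤ) + 1)
  four : Th 4 1 = Db

end Pool.Agent.L0h63.MP
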