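import Pool.Agent.L0h63.MP.Pred3

set_option autoImplicit false

/-!
# Families of predictors: pairs of exponents
-/

namespace Pool.Agent.L0h63.MP

open PowerSeries

/-- the Hamming distance of the first `x` coefficients of `F P ^ s` and `F P ^ t` -/
noncomputable def dst (F : S) (x s t : ℕ) : ℕ :=
  ((Finset.range x).filter fun k => coeff k (F * P ^ s) ≠ coeff k (F * P ^ t)).card

theorem dst_comm (F : S) (x s t : ℕ) : dst F x s t = dst F x t s := by
  unfold dst
  congr 1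
  ext k
  simp only [Finset.mem_filter]
  exact and_congr_right fun _ => ne_comm

theorem dst_le_err (F : S) (g : ℕ → ZMod 2) (x s t : ℕ) : dst F x s t ≤ err F g x s + err F g x t := by
  classical
  unfold dst err
  rw [← Finset.card_union_add_card_inter]
  refine le_trans ?_ (Nat.le_add_right _ _)
  refine Finset.card_le_card ?_
  intro k hk
  rw [Finset.mem_filter] at hk
  rw [Finset.mem_union, Finset.mem_filter, Finset.mem_filter]
  by_contra hcon
  push Not at hcon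
  exact hk.2 ((hcon.1 hk.1).trans (hcon.2 hk.1).symm)

theorem cnt_le_dst (F : S) (x t h v : ℕ) (G : S) (hG : (1 : S) + P ^ h = X ^ (2 ^ v) * G) :
    cnt (F * G) (x - 2 ^ v) t ≤ dst F x t (t + h) := by
  have h1 := cnt_le_err F (fun k => coeff k (F * P ^ t)) x t h v G hG
  have h2 : err F (fun k => coeff k (F * P ^ t)) x t = 0 := by
    unfold err
    rw [Finset.card_eq_zero, Finset.filter_eq_empty_iff]
    intro k _ hk
    exact hk rfl
  have h3 : err F (fun k => coeff k (F * P ^ t)) x (t + h) = dst F x t (t + h) := by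
    unfold err dst
    congr 1
    ext k
    simp only [Finset.mem_filter]
    exact and_congr_right fun _ => ne_comm
  omega

/-- pairs by their difference, for a symmetric relation -/
theorem pairs_le (A N : ℕ) (hN : 1 ≤ N) (R : ℕ → ℕ → Prop) [∀ s t, Decidable (R s t)]
    (hR : ∀ s t, R s t → R t s) :
    ((Finset.Ico A (A + N) ×ˢ Finset.Ico A (A + N)).filter fun p => R p.1 p.2).card ≤
      N + 2 * ∑ h ∈ Finset.Ico 1 N, ((Finset.Ico A (A + N)).filter fun t => R t (t + h)).card := by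
  classical
  set B := Finset.Ico A (A + N) with hBdef
  have hmaps : ∀ p ∈ ((B ×ˢ B).filter fun p => R p.1 p.2), (p.1 - p.2) + (p.2 - p.1) ∈ Finset.range N := by
    intro p hp
    rw [Finset.mem_filter, Finset.mem_product] at hp
    have h1 := hp.1.1
    have h2 := hp.1.2
    rw [hBdef, Finset.mem_Ico] at h1 h2
    rw [Finset.mem_range]
    omega
  rw [Finset.card_eq_sum_card_fiberwise (f := fun p : ℕ × ℕ => (p.1 - p.2) + (p.2 - p.1)) hmaps]
  rw [← Finset.sum_range_add_sum_Ico _ hN, Finset.sum_range_one, Finset.mul_sum]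
  refine Nat.add_le_add ?_ (Finset.sum_le_sum fun h hh => ?_)
  · have hc : B.card = N := by
      rw [hBdef, Nat.card_Ico]
      omega
    rw [← hc]
    refine Finset.card_le_card_of_injOn (fun p => p.1) ?_ ?_
    · intro p hp
      rw [Finset.mem_coe, Finset.mem_filter, Finset.mem_filter, Finset.mem_product] at hp
      exact hp.1.1.1
    · intro p hp q hq hpq
      rw [Finset.mem_coe, Finset.mem_filter, Finset.mem_filter, Finset.mem_product] at hp hq
      have h1 := hp.2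
      have h2 := hq.2
      simp only at h1 h2 hpq
      refine Prod.ext hpq ?_
      omega
  · rw [Finset.mem_Ico] at hh
    set D := B.filter fun t => R t (t + h) with hD
    have hsub : (((B ×ˢ B).filter fun p => R p.1 p.2).filter fun p => (p.1 - p.2) + (p.2 - p.1) = h) ⊆
        (D.image fun t => (t, t + h)) ∪ (D.image fun t => (t + h, t)) := by
      intro p hp
      rw [Finset.mem_filter, Finset.mem_filter, Finset.mem_product] at hp
      rw [Finset.mem_union, Finset.mem_image, Finset.mem_image]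
      obtain ⟨⟨⟨h1, h2⟩, hr⟩, h3⟩ := hp
      rcases le_total p.1 p.2 with hle | hle
      · left
        have e : p.1 + h = p.2 := by omega
        refine ⟨p.1, ?_, Prod.ext rfl e⟩
        rw [hD, Finset.mem_filter, e]
        exact ⟨h1, hr⟩
      · right
        have e : p.2 + h = p.1 := by omega
        refine ⟨p.2, ?_, Prod.ext e rfl⟩
        rw [hD, Finset.mem_filter, e]
        exact ⟨h2, hR _ _ hr⟩
    calc _ ≤ _ := Finset.card_le_card hsub
      _ ≤ _ := Finset.card_union_le _ _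
      _ ≤ D.card + D.card := Nat.add_le_add Finset.card_image_le Finset.card_image_le
      _ = 2 * D.card := by ring

theorem pairs_small (ε : ℝ) (hε : 0 < ε) (hε1 : ε ≤ 1) :
    ∃ C : ℝ, 0 < C ∧ ∀ F : S, coeff 0 F ≠ 0 → ∀ (A x N : ℕ) (y : ℝ), 1 ≤ x → 1 ≤ N → 1 ≤ y →
      (((Finset.Ico A (A + N) ×ˢ Finset.Ico A (A + N)).filter fun p =>
        (dst F x p.1 p.2 : ℝ) ≤ y).card : ℝ) ≤ C * y * (N : ℝ) ^ 2 / ((min x N : ℕ) : ℝ) ^ (1 - ε) := by
  classical
  obtain ⟨C, hC, hcore⟩ := core lineStatement treeStatement ε hε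
  refine ⟨5 + 4 * C, by positivity, fun F hF A x N y hx hN hy => ?_⟩
  set z := min x N with hz
  have hz1 : 1 ≤ z := le_min hx hN
  have hzx : z ≤ x := min_le_left _ _
  have hzN : z ≤ N := min_le_right _ _
  have hzr : (1 : ℝ) ≤ z := by exact_mod_cast hz1
  set Z : ℝ := (z : ℝ) ^ (1 - ε) with hZ
  have hZpos : 0 < Z := by positivity
  have hZz : Z ≤ z := by
    calc Z ≤ (z : ℝ) ^ (1 : ℝ) := Real.rpow_le_rpow_of_exponent_le hzr (by linarith)
      _ = z := Real.rpow_one _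
  have hNr : (1 : ℝ) ≤ N := by exact_mod_cast hN
  have hxr : (1 : ℝ) ≤ x := by exact_mod_cast hx
  have hshift : ∀ h ∈ Finset.Ico 1 N, ¬ 2 ^ (Nat.log 2 x) ∣ h →
      (((Finset.Ico A (A + N)).filter fun t => (dst F x t (t + h) : ℝ) ≤ y).card : ℝ) ≤
        2 * C * y * N / Z := by
    intro h hh hdvd
    rw [Finset.mem_Ico] at hh
    obtain ⟨v, G, hv, hG0, hG⟩ := one_add_pow h hh.1
    have hvx : 2 * 2 ^ v ≤ x := by
      have h1 : v < Nat.log 2 x := by
        by_contra hcon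
        push Not at hcon
        exact hdvd ((pow_dvd_pow 2 hcon).trans hv)
      calc 2 * 2 ^ v = 2 ^ (v + 1) := by rw [pow_succ]; ring
        _ ≤ 2 ^ (Nat.log 2 x) := Nat.pow_le_pow_right (by norm_num) h1
        _ ≤ x := Nat.pow_log_le_self 2 (by omega)
    have hFG : coeff 0 (F * G) ≠ 0 := by
      rw [coeff_zero_eq_constantCoeff_apply, map_mul, ← coeff_zero_eq_constantCoeff_apply,
        ← coeff_zero_eq_constantCoeff_apply]
      exact mul_ne_zero hF hG0
    have hp : 0 < 2 ^ v := by positivity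
    have hx1 : 1 ≤ x - 2 ^ v := by omega
    have h1 := hcore (F * G) hFG A (x - 2 ^ v) N y hx1 hN hy
    have h2 : (((Finset.Ico A (A + N)).filter fun t => (dst F x t (t + h) : ℝ) ≤ y).card : ℝ) ≤
        (((Finset.Ico A (A + N)).filter fun t =>
          (cnt (F * G) (x - 2 ^ v) t : ℝ) ≤ y).card : ℝ) := by
      have : ((Finset.Ico A (A + N)).filter fun t => (dst F x t (t + h) : ℝ) ≤ y) ⊆
          ((Finset.Ico A (A + N)).filter fun t => (cnt (F * G) (x - 2 ^ v) t : ℝ) ≤ y) := by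
        intro t ht
        rw [Finset.mem_filter] at ht ⊢
        refine ⟨ht.1, ?_⟩
        have h5 : (cnt (F * G) (x - 2 ^ v) t : ℝ) ≤ (dst F x t (t + h) : ℝ) := by
          exact_mod_cast cnt_le_dst F x t h v G hG
        exact h5.trans ht.2
      exact_mod_cast Finset.card_le_card this
    refine (h2.trans h1).trans ?_
    set w := min (x - 2 ^ v) N with hw
    have hw1 : 1 ≤ w := le_min hx1 hN
    have hwz : z ≤ 2 * w := by
      rcases le_total (x - 2 ^ v) N with hle | hle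
      · rw [hw, min_eq_left hle]
        omega
      · rw [hw, min_eq_right hle]
        omega
    have hwr : (1 : ℝ) ≤ w := by exact_mod_cast hw1
    have hwzr : (z : ℝ) ≤ 2 * w := by exact_mod_cast hwz
    have h6 : Z ≤ 2 * (w : ℝ) ^ (1 - ε) := by
      calc Z ≤ (2 * (w : ℝ)) ^ (1 - ε) := Real.rpow_le_rpow (by positivity) hwzr (by linarith)
        _ = (2 : ℝ) ^ (1 - ε) * (w : ℝ) ^ (1 - ε) := Real.mul_rpow (by positivity) (by positivity)
        _ ≤ 2 * (w : ℝ) ^ (1 - ε) := by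
          have : (2 : ℝ) ^ (1 - ε) ≤ 2 := by
            calc (2 : ℝ) ^ (1 - ε) ≤ (2 : ℝ) ^ (1 : ℝ) :=
                  Real.rpow_le_rpow_of_exponent_le (by norm_num) (by linarith)
              _ = 2 := Real.rpow_one _
          gcongr
    have hwp : (0 : ℝ) < (w : ℝ) ^ (1 - ε) := by positivity
    rw [div_le_div_iff₀ hwp hZpos]
    have hc0 : 0 ≤ C * y * N := by positivity
    calc C * y * N * Z ≤ C * y * N * (2 * (w : ℝ) ^ (1 - ε)) := by gcongr
      _ = 2 * C * y * N * (w : ℝ) ^ (1 - ε) := by ring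
  have hsum : ((∑ h ∈ Finset.Ico 1 N,
      ((Finset.Ico A (A + N)).filter fun t => (dst F x t (t + h) : ℝ) ≤ y).card : ℕ) : ℝ) ≤
      2 * C * y * N / Z * N + 2 * N / x * N := by
    rw [← Finset.sum_filter_add_sum_filter_not (Finset.Ico 1 N)
      (fun h => 2 ^ (Nat.log 2 x) ∣ h), Nat.cast_add, add_comm, Nat.cast_sum, Nat.cast_sum]
    refine add_le_add ?_ ?_
    · calc _ ≤ ∑ h ∈ (Finset.Ico 1 N).filter (fun h => ¬ 2 ^ (Nat.log 2 x) ∣ h),
              2 * C * y * N / Z := by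
            refine Finset.sum_le_sum fun h hh => ?_
            rw [Finset.mem_filter] at hh
            exact hshift h hh.1 hh.2
        _ = ((Finset.Ico 1 N).filter (fun h => ¬ 2 ^ (Nat.log 2 x) ∣ h)).card *
              (2 * C * y * N / Z) := by
            rw [Finset.sum_const, nsmul_eq_mul]
        _ ≤ (N : ℝ) * (2 * C * y * N / Z) := by
            have h1 : ((Finset.Ico 1 N).filter (fun h => ¬ 2 ^ (Nat.log 2 x) ∣ h)).card ≤ N := by
              refine (Finset.card_filter_le _ _).trans ?_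
              rw [Nat.card_Ico]
              omega
            have h2 : ((((Finset.Ico 1 N).filter (fun h => ¬ 2 ^ (Nat.log 2 x) ∣ h)).card : ℕ) : ℝ) ≤ N := by
              exact_mod_cast h1
            gcongr
        _ = 2 * C * y * N / Z * N := by ring
    · calc _ ≤ ∑ h ∈ (Finset.Ico 1 N).filter (fun h => 2 ^ (Nat.log 2 x) ∣ h), (N : ℝ) := by
            refine Finset.sum_le_sum fun h _ => ?_
            have h1 := Finset.card_filter_le (Finset.Ico A (A + N)) (fun t => (dst F x t (t + h) : ℝ) ≤ y)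
            rw [Nat.card_Ico] at h1
            have h2 : ((Finset.Ico A (A + N)).filter fun t => (dst F x t (t + h) : ℝ) ≤ y).card ≤ N := by
              omega
            exact_mod_cast h2
        _ = ((Finset.Ico 1 N).filter (fun h => 2 ^ (Nat.log 2 x) ∣ h)).card * (N : ℝ) := by
            rw [Finset.sum_const, nsmul_eq_mul]
        _ ≤ 2 * N / x * N := by
            have := card_mult_le x N hx
            gcongr
  have hp := pairs_le A N hN (fun s t => (dst F x s t : ℝ) ≤ y) (fun s t h => by rwa [dst_comm])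
  have hp' : (((Finset.Ico A (A + N) ×ˢ Finset.Ico A (A + N)).filter fun p =>
        (dst F x p.1 p.2 : ℝ) ≤ y).card : ℝ) ≤ N + 2 * (2 * C * y * N / Z * N + 2 * N / x * N) := by
    calc _ ≤ (N : ℝ) + 2 * ((∑ h ∈ Finset.Ico 1 N,
          ((Finset.Ico A (A + N)).filter fun t => (dst F x t (t + h) : ℝ) ≤ y).card : ℕ) : ℝ) := by
            exact_mod_cast hp
      _ ≤ _ := by gcongr
  refine hp'.trans ?_
  have hZN : Z ≤ N := hZz.trans (by exact_mod_cast hzN)
  have hZx : Z ≤ x := hZz.trans (by exact_mod_cast hzx)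
  have e1 : (N : ℝ) ≤ y * (N : ℝ) ^ 2 / Z := by
    rw [le_div_iff₀ hZpos]
    have : (N : ℝ) * Z ≤ N * N := by gcongr
    have h2 : (1 : ℝ) * (N : ℝ) ^ 2 ≤ y * (N : ℝ) ^ 2 := by gcongr
    nlinarith
  have e2 : (N : ℝ) / x * N ≤ y * (N : ℝ) ^ 2 / Z := by
    have h1 : (N : ℝ) / x * N = 1 * (N : ℝ) ^ 2 / x := by ring
    rw [h1]
    gcongr
  have e3 : (N : ℝ) + 2 * (2 * C * y * N / Z * N + 2 * N / x * N) =
      N + 4 * C * (y * (N : ℝ) ^ 2 / Z) + 4 * (N / x * N) := by ring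
  rw [e3]
  calc (N : ℝ) + 4 * C * (y * (N : ℝ) ^ 2 / Z) + 4 * (N / x * N) ≤
      y * (N : ℝ) ^ 2 / Z + 4 * C * (y * (N : ℝ) ^ 2 / Z) + 4 * (y * (N : ℝ) ^ 2 / Z) := by
        gcongr
    _ = (5 + 4 * C) * y * (N : ℝ) ^ 2 / Z := by ring

theorem pairs (ε : ℝ) (hε : 0 < ε) :
    ∃ C : ℝ, 0 < C ∧ ∀ F : S, coeff 0 F ≠ 0 → ∀ (A x N : ℕ) (y : ℝ), 1 ≤ x → 1 ≤ N → 1 ≤ y →
      (((Finset.Ico A (A + N) ×ˢ Finset.Ico A (A + N)).filter fun p =>
        (dst F x p.1 p.2 : ℝ) ≤ y).card : ℝ) ≤ C * y * (N : ℝ) ^ 2 / ((min x N : ℕ) : ℝ) ^ (1 - ε) := by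
  obtain ⟨C, hC, h⟩ := pairs_small (min ε 1) (lt_min hε one_pos) (min_le_right _ _)
  refine ⟨C, hC, fun F hF A x N y hx hN hy => (h F hF A x N y hx hN hy).trans ?_⟩
  have hz : 1 ≤ min x N := le_min hx hN
  have hxr : (1 : ℝ) ≤ ((min x N : ℕ) : ℝ) := by exact_mod_cast hz
  have h1 : ((min x N : ℕ) : ℝ) ^ (1 - ε) ≤ ((min x N : ℕ) : ℝ) ^ (1 - min ε 1) :=
    Real.rpow_le_rpow_of_exponent_le hxr (by linarith [min_le_left ε 1])
  have hxp : (0 : ℝ) < ((min x N : ℕ) : ℝ) ^ (1 - ε) := by positivity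
  have hy0 : 0 < y := by linarith
  gcongr

/-- classes of a map -/
theorem class_sq_le {ι : Type} [DecidableEq ι] (B : Finset ℕ) (I : Finset ι) (c : ℕ → ι)
    (hc : ∀ t ∈ B, c t ∈ I) :
    B.card ^ 2 ≤ I.card * ((B ×ˢ B).filter fun p => c p.1 = c p.2).card := by
  classical
  have h1 : B.card = ∑ i ∈ I, (B.filter fun t => c t = i).card :=
    Finset.card_eq_sum_card_fiberwise hc
  have h2 : ((B ×ˢ B).filter fun p => c p.1 = c p.2).card =
      ∑ i ∈ I, (B.filter fun t => c t = i).card ^ 2 := by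
    rw [Finset.card_eq_sum_card_fiberwise (f := fun p : ℕ × ℕ => c p.1) (t := I)]
    · refine Finset.sum_congr rfl fun i _ => ?_
      rw [pow_two, ← Finset.card_product]
      congr 1
      ext p
      simp only [Finset.mem_filter, Finset.mem_product]
      constructor
      · rintro ⟨⟨⟨a1, a2⟩, a3⟩, a4⟩
        exact ⟨⟨a1, a4⟩, a2, a3 ▸ a4⟩
      · rintro ⟨⟨a1, a2⟩, a3, a4⟩
        exact ⟨⟨⟨a1, a3⟩, a2.trans a4.symm⟩, a2⟩
    · intro p hp
      rw [Finset.mem_coe, Finset.mem_filter, Finset.mem_product] at hp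
      exact hc _ hp.1.1
  rw [h1, h2]
  exact sq_sum_le_card_mul_sum_sq

theorem fam (ε : ℝ) (hε : 0 < ε) :
    ∃ C : ℝ, 0 < C ∧ ∀ F : S, coeff 0 F ≠ 0 → ∀ (𝒢 : Finset (ℕ → ZMod 2)) (A x N : ℕ) (y : ℝ),
      1 ≤ x → 1 ≤ N → 1 ≤ y → ∀ B : Finset ℕ, B ⊆ Finset.Ico A (A + N) →
      (∀ t ∈ B, ∃ g ∈ 𝒢, (err F g x t : ℝ) ≤ y) →
        (B.card : ℝ) ≤ C * N * Real.sqrt (𝒢.card * y / ((min x N : ℕ) : ℝ) ^ (1 - ε)) := by
  classical
  obtain ⟨C, hC, h⟩ := pairs ε hε
  refine ⟨Real.sqrt (2 * C), Real.sqrt_pos.2 (by positivity), fun F hF 𝒢 A x N y hx hN hy B hB hBg => ?_⟩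
  have hz : 1 ≤ min x N := le_min hx hN
  have hxr : (1 : ℝ) ≤ ((min x N : ℕ) : ℝ) := by exact_mod_cast hz
  set Z : ℝ := ((min x N : ℕ) : ℝ) ^ (1 - ε) with hZ
  have hZpos : 0 < Z := by positivity
  have hex : ∀ t : ℕ, ∃ g : ℕ → ZMod 2, t ∈ B → g ∈ 𝒢 ∧ (err F g x t : ℝ) ≤ y := by
    intro t
    by_cases ht : t ∈ B
    · obtain ⟨g, hg1, hg2⟩ := hBg t ht
      exact ⟨g, fun _ => ⟨hg1, hg2⟩⟩
    · exact ⟨fun _ => 0, fun h => absurd h ht⟩
  choose c hc using hex
  have h1 := class_sq_le B 𝒢 c (fun t ht => (hc t ht).1)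
  have h2 : (((B ×ˢ B).filter fun p => c p.1 = c p.2).card : ℝ) ≤ C * (2 * y) * (N : ℝ) ^ 2 / Z := by
    refine le_trans ?_ (h F hF A x N (2 * y) hx hN (by linarith))
    have : ((B ×ˢ B).filter fun p => c p.1 = c p.2) ⊆
        ((Finset.Ico A (A + N) ×ˢ Finset.Ico A (A + N)).filter fun p =>
          (dst F x p.1 p.2 : ℝ) ≤ 2 * y) := by
      intro p hp
      rw [Finset.mem_filter, Finset.mem_product] at hp ⊢
      refine ⟨⟨hB hp.1.1, hB hp.1.2⟩, ?_⟩
      have a1 := (hc _ hp.1.1).2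
      have a2 := (hc _ hp.1.2).2
      rw [← hp.2] at a2
      have a3 : (dst F x p.1 p.2 : ℝ) ≤ (err F (c p.1) x p.1 : ℝ) + (err F (c p.1) x p.2 : ℝ) := by
        exact_mod_cast dst_le_err F (c p.1) x p.1 p.2
      linarith
    exact_mod_cast Finset.card_le_card this
  have h3 : (B.card : ℝ) ^ 2 ≤ (𝒢.card : ℝ) * (C * (2 * y) * (N : ℝ) ^ 2 / Z) := by
    calc (B.card : ℝ) ^ 2 ≤ (𝒢.card : ℝ) * (((B ×ˢ B).filter fun p => c p.1 = c p.2).card : ℝ) := by
          exact_mod_cast h1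
      _ ≤ _ := by gcongr
  have h4 : (B.card : ℝ) ≤ Real.sqrt ((𝒢.card : ℝ) * (C * (2 * y) * (N : ℝ) ^ 2 / Z)) :=
    Real.le_sqrt_of_sq_le h3
  refine h4.trans (le_of_eq ?_)
  have e : (𝒢.card : ℝ) * (C * (2 * y) * (N : ℝ) ^ 2 / Z) = (2 * C) * ((N : ℝ) ^ 2 * (𝒢.card * y / Z)) := by
    ring
  rw [e, Real.sqrt_mul (show (0 : ℝ) ≤ 2 * C by positivity),
    Real.sqrt_mul (show (0 : ℝ) ≤ (N : ℝ) ^ 2 by positivity), Real.sqrt_sq (show (0 : ℝ) ≤ (N : ℝ) by positivity)]
  ring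

end Pool.Agent.L0h63.MP
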