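import Pool.Agent.L0h63.MP.Fam1

set_option autoImplicit false

/-!
# Pairs of exponents, two series
-/

namespace Pool.Agent.L0h63.MP

open PowerSeries

theorem c0P (n : ℕ) : coeff 0 (P ^ n) ≠ (0 : ZMod 2) := by
  rcases Nat.eq_zero_or_pos n with h | h
  · rw [h, pow_zero, coeff_zero_one]
    exact one_ne_zero
  · obtain ⟨v, G, -, -, hG⟩ := one_add_pow n h
    have h1 : coeff 0 ((1 : S) + P ^ n) = 0 := by
      rw [hG, coeff_zero_eq_constantCoeff_apply, map_mul, map_pow, constantCoeff_X, zero_pow (by positivity), zero_mul]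
    rw [map_add, coeff_zero_one] at h1
    intro h2
    rw [h2, add_zero] at h1
    exact one_ne_zero h1

theorem c0mul (A B : S) (hA : coeff 0 A ≠ 0) (hB : coeff 0 B ≠ 0) : coeff 0 (A * B) ≠ 0 := by
  rw [coeff_zero_eq_constantCoeff_apply, map_mul, ← coeff_zero_eq_constantCoeff_apply,
    ← coeff_zero_eq_constantCoeff_apply]
  exact mul_ne_zero hA hB

theorem bad_diff (H : S) (hH : coeff 0 H ≠ 0) {h₁ h₂ w : ℕ} (hlt : h₁ < h₂)
    (hw : ∀ k < w, coeff k (H * P ^ h₁ + H * P ^ h₂) = 0) : w ≤ h₂ - h₁ := by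
  obtain ⟨v, G, hv, hG0, hG⟩ := one_add_pow (h₂ - h₁) (by omega)
  have e : H * P ^ h₁ + H * P ^ h₂ = X ^ (2 ^ v) * (H * P ^ h₁ * G) := by
    have e1 : P ^ h₂ = P ^ h₁ * P ^ (h₂ - h₁) := by
      rw [← pow_add]
      congr 1
      omega
    rw [e1]
    linear_combination H * P ^ h₁ * hG
  have h1 : coeff (2 ^ v) (H * P ^ h₁ + H * P ^ h₂) ≠ 0 := by
    rw [e]
    have := coeff_X_pow_mul (R := ZMod 2) (H * P ^ h₁ * G) (2 ^ v) 0
    rw [zero_add] at this
    rw [this]
    exact c0mul _ _ (c0mul _ _ hH (c0P _)) hG0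
  have h2 : w ≤ 2 ^ v := by
    by_contra hcon
    push Not at hcon
    exact h1 (hw _ hcon)
  exact h2.trans (Nat.le_of_dvd (by omega) hv)

theorem sep_card (N w : ℕ) (hw : 1 ≤ w) (B : Finset ℕ) (hB : B ⊆ Finset.range N)
    (hsep : ∀ a ∈ B, ∀ b ∈ B, a < b → w ≤ b - a) : B.card ≤ N / w + 1 := by
  rw [← Finset.card_range (N / w + 1)]
  refine Finset.card_le_card_of_injOn (fun h => h / w) ?_ ?_
  · intro h hh
    have := Finset.mem_range.1 (hB hh)
    rw [Finset.mem_coe, Finset.mem_range]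
    exact Nat.lt_succ_of_le (Nat.div_le_div_right this.le)
  · intro a ha b hb hab
    have key : ∀ a b : ℕ, a < b → a / w = b / w → b - a < w := by
      intro a b hlt he
      have h1 := Nat.div_add_mod a w
      have h2 := Nat.div_add_mod b w
      have h3 := Nat.mod_lt b hw
      rw [← he] at h2
      omega
    rcases lt_trichotomy a b with h | h | h
    · have := hsep a ha b hb h
      have := key a b h hab
      omega
    · exact h
    · have := hsep b hb a ha h
      have := key b a h hab.symm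
      omega

/-- one side of the diagonal -/
theorem side (ε : ℝ) (hε : 0 < ε) (hε1 : ε ≤ 1) :
    ∃ C : ℝ, 0 < C ∧ ∀ (D : ℕ → S) (A x N : ℕ) (y : ℝ), 1 ≤ x → 1 ≤ N → 1 ≤ y →
      (∀ h₁ < N, ∀ h₂ < N, h₁ < h₂ → (∀ k < x / 2 + 1, coeff k (D h₁) = 0) →
        (∀ k < x / 2 + 1, coeff k (D h₂) = 0) → x / 2 + 1 ≤ h₂ - h₁) →
      ((∑ h ∈ Finset.range N, ((Finset.Ico A (A + N)).filter fun t =>
        (cnt (D h) x t : ℝ) ≤ y).card : ℕ) : ℝ) ≤
          C * y * (N : ℝ) ^ 2 / ((min x N : ℕ) : ℝ) ^ (1 - ε) := by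
  classical
  obtain ⟨C, hC, hcore⟩ := core lineStatement treeStatement ε hε
  refine ⟨3 + 2 * C, by positivity, fun D A x N y hx hN hy hsep => ?_⟩
  set z := min x N with hz
  have hz1 : 1 ≤ z := le_min hx hN
  have hzx : z ≤ x := min_le_left _ _
  have hzN : z ≤ N := min_le_right _ _
  have hzr : (1 : ℝ) ≤ z := by exact_mod_cast hz1
  set Z : ℝ := (z : ℝ) ^ (1 - ε) with hZ
  have hZpos : 0 < Z := by positivity
  have hZz : Z ≤ z := by
    calc Z ≤ (z : ℝ) ^ (1 : ℝ) := Real.rpow_le_rpow_of_exponent_le hzr (by linarith)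
      _ = z := Real.rpow_one _
  have hNr : (1 : ℝ) ≤ N := by exact_mod_cast hN
  have hxr : (1 : ℝ) ≤ x := by exact_mod_cast hx
  set w := x / 2 + 1 with hwdef
  have hgood : ∀ h, ¬ (∀ k < w, coeff k (D h) = 0) →
      (((Finset.Ico A (A + N)).filter fun t => (cnt (D h) x t : ℝ) ≤ y).card : ℝ) ≤
        2 * C * y * N / Z := by
    intro h hh
    push Not at hh
    have hex : ∃ k, coeff k (D h) ≠ 0 := ⟨hh.choose, hh.choose_spec.2⟩
    set v := Nat.find hex with hv
    have hv0 : coeff v (D h) ≠ 0 := Nat.find_spec hex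
    have hvmin : ∀ k < v, coeff k (D h) = 0 := fun k hk => by
      by_contra hne
      exact Nat.find_min hex hk hne
    have hvw : v < w := lt_of_le_of_lt (Nat.find_min' hex hh.choose_spec.2) hh.choose_spec.1
    obtain ⟨G, hG⟩ := X_pow_dvd_iff.2 hvmin
    have hG0 : coeff 0 G ≠ 0 := by
      have := coeff_X_pow_mul (R := ZMod 2) G v 0
      rw [zero_add, ← hG] at this
      rw [← this]
      exact hv0
    have hx1 : 1 ≤ x - v := by omega
    have h1 := hcore G hG0 A (x - v) N y hx1 hN hy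
    have h2 : (((Finset.Ico A (A + N)).filter fun t => (cnt (D h) x t : ℝ) ≤ y).card : ℝ) ≤
        (((Finset.Ico A (A + N)).filter fun t => (cnt G (x - v) t : ℝ) ≤ y).card : ℝ) := by
      have : ((Finset.Ico A (A + N)).filter fun t => (cnt (D h) x t : ℝ) ≤ y) ⊆
          ((Finset.Ico A (A + N)).filter fun t => (cnt G (x - v) t : ℝ) ≤ y) := by
        intro t ht
        rw [Finset.mem_filter] at ht ⊢
        refine ⟨ht.1, ?_⟩
        have h5 : cnt G (x - v) t ≤ cnt (D h) x t := by
          unfold cnt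
          refine Finset.card_le_card_of_injOn (fun k => k + v) ?_ (fun k _ k' _ h => by simpa using h)
          intro k hk
          rw [Finset.mem_coe, Finset.mem_filter, Finset.mem_range] at hk
          rw [Finset.mem_coe, Finset.mem_filter, Finset.mem_range]
          have hk1 := hk.1
          refine ⟨show k + v < x by omega, ?_⟩
          show coeff (k + v) (D h * P ^ t) ≠ 0
          have e : D h * P ^ t = X ^ v * (G * P ^ t) := by
            rw [hG]
            ring
          rw [e, coeff_X_pow_mul]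
          exact hk.2
        have h6 : (cnt G (x - v) t : ℝ) ≤ (cnt (D h) x t : ℝ) := by exact_mod_cast h5
        exact h6.trans ht.2
      exact_mod_cast Finset.card_le_card this
    refine (h2.trans h1).trans ?_
    set u := min (x - v) N with hu
    have hu1 : 1 ≤ u := le_min hx1 hN
    have huz : z ≤ 2 * u := by
      rcases le_total (x - v) N with hle | hle
      · rw [hu, min_eq_left hle]
        omega
      · rw [hu, min_eq_right hle]
        omega
    have hur : (1 : ℝ) ≤ u := by exact_mod_cast hu1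
    have huzr : (z : ℝ) ≤ 2 * u := by exact_mod_cast huz
    have h6 : Z ≤ 2 * (u : ℝ) ^ (1 - ε) := by
      calc Z ≤ (2 * (u : ℝ)) ^ (1 - ε) := Real.rpow_le_rpow (by positivity) huzr (by linarith)
        _ = (2 : ℝ) ^ (1 - ε) * (u : ℝ) ^ (1 - ε) := Real.mul_rpow (by positivity) (by positivity)
        _ ≤ 2 * (u : ℝ) ^ (1 - ε) := by
          have : (2 : ℝ) ^ (1 - ε) ≤ 2 := by
            calc (2 : ℝ) ^ (1 - ε) ≤ (2 : ℝ) ^ (1 : ℝ) :=
                  Real.rpow_le_rpow_of_exponent_le (by norm_num) (by linarith)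
              _ = 2 := Real.rpow_one _
          gcongr
    have hup : (0 : ℝ) < (u : ℝ) ^ (1 - ε) := by positivity
    rw [div_le_div_iff₀ hup hZpos]
    have hc0 : 0 ≤ C * y * N := by positivity
    calc C * y * N * Z ≤ C * y * N * (2 * (u : ℝ) ^ (1 - ε)) := by gcongr
      _ = 2 * C * y * N * (u : ℝ) ^ (1 - ε) := by ring
  set Bd := (Finset.range N).filter fun h => ∀ k < w, coeff k (D h) = 0 with hBd
  have hcard : Bd.card ≤ N / w + 1 := by
    refine sep_card N w (by omega) Bd (Finset.filter_subset _ _) fun a ha b hb hab => ?_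
    rw [hBd, Finset.mem_filter, Finset.mem_range] at ha hb
    exact hsep a ha.1 b hb.1 hab ha.2 hb.2
  have hcardr : (Bd.card : ℝ) ≤ 2 * N / x + 1 := by
    have h1 : (Bd.card : ℝ) ≤ ((N / w + 1 : ℕ) : ℝ) := by exact_mod_cast hcard
    have h2 : ((N / w : ℕ) : ℝ) ≤ (N : ℝ) / w := Nat.cast_div_le
    have hwx : (x : ℝ) ≤ 2 * w := by
      have : x ≤ 2 * w := by omega
      exact_mod_cast this
    have hw0 : (0 : ℝ) < w := by linarith
    have h3 : (N : ℝ) / w ≤ 2 * N / x := by
      rw [div_le_div_iff₀ hw0 (by linarith)]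
      nlinarith
    push_cast at h1
    linarith
  have hsum : ((∑ h ∈ Finset.range N,
      ((Finset.Ico A (A + N)).filter fun t => (cnt (D h) x t : ℝ) ≤ y).card : ℕ) : ℝ) ≤
      2 * C * y * N / Z * N + (2 * N / x + 1) * N := by
    rw [← Finset.sum_filter_add_sum_filter_not (Finset.range N)
      (fun h => ∀ k < w, coeff k (D h) = 0), Nat.cast_add, add_comm, Nat.cast_sum, Nat.cast_sum]
    refine add_le_add ?_ ?_
    · calc _ ≤ ∑ h ∈ (Finset.range N).filter (fun h => ¬ ∀ k < w, coeff k (D h) = 0),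
              2 * C * y * N / Z := by
            refine Finset.sum_le_sum fun h hh => ?_
            rw [Finset.mem_filter] at hh
            exact hgood h hh.2
        _ = ((Finset.range N).filter (fun h => ¬ ∀ k < w, coeff k (D h) = 0)).card *
              (2 * C * y * N / Z) := by
            rw [Finset.sum_const, nsmul_eq_mul]
        _ ≤ (N : ℝ) * (2 * C * y * N / Z) := by
            have h1 : ((Finset.range N).filter (fun h => ¬ ∀ k < w, coeff k (D h) = 0)).card ≤ N := by
              refine (Finset.card_filter_le _ _).trans ?_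
              rw [Finset.card_range]
            have h2 : ((((Finset.range N).filter
                (fun h => ¬ ∀ k < w, coeff k (D h) = 0)).card : ℕ) : ℝ) ≤ N := by
              exact_mod_cast h1
            gcongr
        _ = 2 * C * y * N / Z * N := by ring
    · calc _ ≤ ∑ h ∈ Bd, (N : ℝ) := by
            refine Finset.sum_le_sum fun h _ => ?_
            have h1 := Finset.card_filter_le (Finset.Ico A (A + N)) (fun t => (cnt (D h) x t : ℝ) ≤ y)
            rw [Nat.card_Ico] at h1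
            have h2 : ((Finset.Ico A (A + N)).filter fun t => (cnt (D h) x t : ℝ) ≤ y).card ≤ N := by
              omega
            exact_mod_cast h2
        _ = Bd.card * (N : ℝ) := by rw [Finset.sum_const, nsmul_eq_mul]
        _ ≤ (2 * N / x + 1) * N := by gcongr
  refine hsum.trans ?_
  have hZN : Z ≤ N := hZz.trans (by exact_mod_cast hzN)
  have hZx : Z ≤ x := hZz.trans (by exact_mod_cast hzx)
  have e1 : (N : ℝ) ≤ y * (N : ℝ) ^ 2 / Z := by
    rw [le_div_iff₀ hZpos]
    have : (N : ℝ) * Z ≤ N * N := by gcongr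
    have h2 : (1 : ℝ) * (N : ℝ) ^ 2 ≤ y * (N : ℝ) ^ 2 := by gcongr
    nlinarith
  have e2 : (N : ℝ) / x * N ≤ y * (N : ℝ) ^ 2 / Z := by
    have h1 : (N : ℝ) / x * N = 1 * (N : ℝ) ^ 2 / x := by ring
    rw [h1]
    gcongr
  have e3 : 2 * C * y * N / Z * N + (2 * N / x + 1) * N =
      2 * C * (y * (N : ℝ) ^ 2 / Z) + 2 * (N / x * N) + N := by ring
  rw [e3]
  calc 2 * C * (y * (N : ℝ) ^ 2 / Z) + 2 * (N / x * N) + (N : ℝ) ≤
      2 * C * (y * (N : ℝ) ^ 2 / Z) + 2 * (y * (N : ℝ) ^ 2 / Z) + y * (N : ℝ) ^ 2 / Z := by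
        gcongr
    _ = (3 + 2 * C) * y * (N : ℝ) ^ 2 / Z := by ring

/-- the Hamming distance of the first `x` coefficients of `F P ^ s` and `E P ^ t` -/
noncomputable def dst2 (F E : S) (x s t : ℕ) : ℕ :=
  ((Finset.range x).filter fun k => coeff k (F * P ^ s) ≠ coeff k (E * P ^ t)).card

theorem dst2_eq (F E D : S) (x s t r : ℕ) (h : F * P ^ s + E * P ^ t = D * P ^ r) :
    dst2 F E x s t = cnt D x r := by
  unfold dst2 cnt
  congr 1
  ext k
  simp only [Finset.mem_filter]
  refine and_congr_right fun _ => ?_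
  rw [← h, map_add, ne_eq, ne_eq, not_iff_not]
  exact (CharTwo.add_eq_zero).symm

theorem pairs2_small (ε : ℝ) (hε : 0 < ε) (hε1 : ε ≤ 1) :
    ∃ C : ℝ, 0 < C ∧ ∀ F E : S, coeff 0 F ≠ 0 → ∀ (A x N : ℕ) (y : ℝ), 1 ≤ x → 1 ≤ N → 1 ≤ y →
      (((Finset.Ico A (A + N) ×ˢ Finset.Ico A (A + N)).filter fun p =>
        (dst2 F E x p.1 p.2 : ℝ) ≤ y).card : ℝ) ≤ C * y * (N : ℝ) ^ 2 / ((min x N : ℕ) : ℝ) ^ (1 - ε) := by
  classical
  obtain ⟨C, hC, hs⟩ := side ε hε hε1
  refine ⟨2 * C, by positivity, fun F E hF A x N y hx hN hy => ?_⟩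
  set I := Finset.Ico A (A + N) with hI
  have s1 := hs (fun h => F + E * P ^ h) A x N y hx hN hy (by
    intro h₁ _ h₂ _ hlt b1 b2
    have hE : coeff 0 E ≠ 0 := by
      intro h0
      have h3 := b1 0 (by omega)
      rw [map_add, coeff_zero_eq_constantCoeff_apply (E * P ^ h₁), map_mul,
        ← coeff_zero_eq_constantCoeff_apply, h0, zero_mul, add_zero] at h3
      exact hF h3
    refine bad_diff E hE hlt fun k hk => ?_
    have h3 := b1 k hk
    have h4 := b2 k hk
    rw [map_add] at h3 h4 ⊢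
    have h5 := congrArg₂ (· + ·) h3 h4
    simp only [add_zero] at h5
    have h6 : coeff k F + coeff k F = (0 : ZMod 2) := CharTwo.add_self_eq_zero _
    linear_combination h5 - h6)
  have s2 := hs (fun h => F * P ^ h + E) A x N y hx hN hy (by
    intro h₁ _ h₂ _ hlt b1 b2
    refine bad_diff F hF hlt fun k hk => ?_
    have h3 := b1 k hk
    have h4 := b2 k hk
    rw [map_add] at h3 h4 ⊢
    have h5 := congrArg₂ (· + ·) h3 h4
    simp only [add_zero] at h5
    have h6 : coeff k E + coeff k E = (0 : ZMod 2) := CharTwo.add_self_eq_zero _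
    linear_combination h5 - h6)
  have hcard : ((I ×ˢ I).filter fun p => (dst2 F E x p.1 p.2 : ℝ) ≤ y).card ≤
      ∑ h ∈ Finset.range N, (I.filter fun t => (cnt (F + E * P ^ h) x t : ℝ) ≤ y).card +
      ∑ h ∈ Finset.range N, (I.filter fun t => (cnt (F * P ^ h + E) x t : ℝ) ≤ y).card := by
    have hsub : ((I ×ˢ I).filter fun p => (dst2 F E x p.1 p.2 : ℝ) ≤ y) ⊆
        ((Finset.range N).biUnion fun h =>
          (I.filter fun t => (cnt (F + E * P ^ h) x t : ℝ) ≤ y).image fun t => (t, t + h)) ∪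
        ((Finset.range N).biUnion fun h =>
          (I.filter fun t => (cnt (F * P ^ h + E) x t : ℝ) ≤ y).image fun t => (t + h, t)) := by
      rintro ⟨s, t⟩ hp
      rw [Finset.mem_filter, Finset.mem_product] at hp
      obtain ⟨⟨hs1, ht1⟩, hd⟩ := hp
      simp only at hs1 ht1 hd
      have hs2 := Finset.mem_Ico.1 hs1
      have ht2 := Finset.mem_Ico.1 ht1
      rw [Finset.mem_union, Finset.mem_biUnion, Finset.mem_biUnion]
      rcases le_total s t with hle | hle
      · left
        refine ⟨t - s, Finset.mem_range.2 (by omega), ?_⟩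
        rw [Finset.mem_image]
        refine ⟨s, ?_, Prod.ext rfl (by simp only; omega)⟩
        rw [Finset.mem_filter]
        refine ⟨hs1, ?_⟩
        rw [← dst2_eq F E (F + E * P ^ (t - s)) x s t s ?_]
        · exact hd
        · have e : P ^ t = P ^ (t - s) * P ^ s := by
            rw [← pow_add]
            congr 1
            omega
          rw [e]
          ring
      · right
        refine ⟨s - t, Finset.mem_range.2 (by omega), ?_⟩
        rw [Finset.mem_image]
        refine ⟨t, ?_, Prod.ext (by simp only; omega) rfl⟩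
        rw [Finset.mem_filter]
        refine ⟨ht1, ?_⟩
        rw [← dst2_eq F E (F * P ^ (s - t) + E) x s t t ?_]
        · exact hd
        · have e : P ^ s = P ^ (s - t) * P ^ t := by
            rw [← pow_add]
            congr 1
            omega
          rw [e]
          ring
    refine (Finset.card_le_card hsub).trans ((Finset.card_union_le _ _).trans (Nat.add_le_add ?_ ?_))
    · exact Finset.card_biUnion_le.trans (Finset.sum_le_sum fun h _ => Finset.card_image_le)
    · exact Finset.card_biUnion_le.trans (Finset.sum_le_sum fun h _ => Finset.card_image_le)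
  calc (((I ×ˢ I).filter fun p => (dst2 F E x p.1 p.2 : ℝ) ≤ y).card : ℝ) ≤
      ((∑ h ∈ Finset.range N, (I.filter fun t => (cnt (F + E * P ^ h) x t : ℝ) ≤ y).card : ℕ) : ℝ) +
      ((∑ h ∈ Finset.range N, (I.filter fun t => (cnt (F * P ^ h + E) x t : ℝ) ≤ y).card : ℕ) : ℝ) := by
        exact_mod_cast hcard
    _ ≤ _ := add_le_add s1 s2
    _ = _ := by ring

theorem pairs2 (ε : ℝ) (hε : 0 < ε) :
    ∃ C : ℝ, 0 < C ∧ ∀ F E : S, coeff 0 F ≠ 0 → ∀ (A x N : ℕ) (y : ℝ), 1 ≤ x → 1 ≤ N → 1 ≤ y →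
      (((Finset.Ico A (A + N) ×ˢ Finset.Ico A (A + N)).filter fun p =>
        (dst2 F E x p.1 p.2 : ℝ) ≤ y).card : ℝ) ≤ C * y * (N : ℝ) ^ 2 / ((min x N : ℕ) : ℝ) ^ (1 - ε) := by
  obtain ⟨C, hC, h⟩ := pairs2_small (min ε 1) (lt_min hε one_pos) (min_le_right _ _)
  refine ⟨C, hC, fun F E hF A x N y hx hN hy => (h F E hF A x N y hx hN hy).trans ?_⟩
  have hz : 1 ≤ min x N := le_min hx hN
  have hxr : (1 : ℝ) ≤ ((min x N : ℕ) : ℝ) := by exact_mod_cast hz
  have h1 : ((min x N : ℕ) : ℝ) ^ (1 - ε) ≤ ((min x N : ℕ) : ℝ) ^ (1 - min ε 1) :=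
    Real.rpow_le_rpow_of_exponent_le hxr (by linarith [min_le_left ε 1])
  have hxp : (0 : ℝ) < ((min x N : ℕ) : ℝ) ^ (1 - ε) := by positivity
  have hy0 : 0 < y := by linarith
  gcongr

end Pool.Agent.L0h63.MP
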