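import Pool.Agent.L0h63.MP.Defs

set_option autoImplicit false

/-!
# From powers of `T` to powers of `P`, and the final count
-/

namespace Pool.Agent.L0h63.MP

open PowerSeries

noncomputable abbrev P : S := Pool.Agent.TH693.PP.P

theorem constP : constantCoeff P = 1 := Pool.Agent.TH693.PP.constP

theorem P3T : P ^ 3 * T = 1 := Pool.Agent.TH693.PP.P3T

/-- multiplication by a series in `X ^ M` with constant term 1 does not change the first nonzero
coefficient in a class modulo `M` -/
theorem first_coeff (M : ℕ) (hM : M ≠ 0) (A B : S) (hB : constantCoeff B = 1) (r : ℕ) (hr : r < M)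
    (a : ℕ) (h0 : ∀ b < a, coeff (r + M * b) A = 0) :
    coeff (r + M * a) (A * PowerSeries.expand M hM B) = coeff (r + M * a) A := by
  rw [coeff_mul, Finset.sum_eq_single (r + M * a, 0)]
  · rw [coeff_expand, if_pos (dvd_zero M), Nat.zero_div]
    rw [coeff_zero_eq_constantCoeff_apply, hB, mul_one]
  · rintro ⟨k, l⟩ hkl hne
    rw [Finset.HasAntidiagonal.mem_antidiagonal] at hkl
    simp only at hkl ⊢
    rw [coeff_expand]
    by_cases hd : M ∣ l
    · obtain ⟨c, rfl⟩ := hd
      have hc : c ≠ 0 := by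
        rintro rfl
        apply hne
        rw [mul_zero, add_zero] at hkl
        rw [mul_zero, hkl]
      have hca : c ≤ a := by
        by_contra h
        push Not at h
        have : M * (a + 1) ≤ M * c := Nat.mul_le_mul_left M h
        have e : M * (a + 1) = M * a + M := by ring
        omega
      have hk : k = r + M * (a - c) := by
        obtain ⟨d, rfl⟩ := Nat.exists_eq_add_of_le hca
        have e : M * (c + d) = M * c + M * d := by ring
        have e' : c + d - c = d := by omega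
        rw [e']
        omega
      rw [hk, h0 (a - c) (by omega), zero_mul]
    · rw [if_neg hd, mul_zero]
  · intro h
    exact absurd (Finset.HasAntidiagonal.mem_antidiagonal.mpr (by simp)) h

/-- comparison of powers of `P` and powers of `T` -/
theorem G_le (j W n : ℕ) (F : S) (s t : ℕ) (h : (2 ^ j) ^ n ∣ t + 3 * s) :
    G j W T n F s ≤
      ((Finset.range (W * (2 ^ j) ^ n)).filter fun k => coeff k (F * P ^ t) ≠ 0).card := by
  classical
  obtain ⟨h', hh⟩ := h
  set M := (2 ^ j) ^ n with hMdef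
  have hM : M ≠ 0 := by positivity
  have hM2 : M = 2 ^ (j * n) := by rw [hMdef, pow_mul]
  have e1 : F * P ^ t = (T ^ s * F) * PowerSeries.expand M hM (P ^ h') := by
    have h1 : PowerSeries.expand M hM (P ^ h') = P ^ (M * h') := by
      rw [← Pool.Agent.H397R2.PP.pow_eq_expand' M (j * n) hM hM2, ← pow_mul, mul_comm h' M]
    rw [h1, ← hh]
    calc F * P ^ t = F * P ^ t * (P ^ 3 * T) ^ s := by rw [P3T, one_pow, mul_one]
      _ = T ^ s * F * P ^ (t + 3 * s) := by
        rw [pow_add, pow_mul, mul_pow]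
        ring
  have hB : constantCoeff (P ^ h') = 1 := by rw [map_pow, constP, one_pow]
  unfold G
  rw [← hMdef]
  -- injection
  let φ : ℕ → ℕ := fun r => if hr : ∃ a < W, coeff (r + M * a) (T ^ s * F) ≠ 0 then
    r + M * (Nat.find (p := fun a => coeff (r + M * a) (T ^ s * F) ≠ 0) ⟨hr.choose, hr.choose_spec.2⟩)
    else 0
  refine Finset.card_le_card_of_injOn φ ?_ ?_
  · intro r hr
    rw [Finset.mem_coe, Finset.mem_filter, Finset.mem_range] at hr ⊢
    obtain ⟨hrM, hr2⟩ := hr
    have hφ : φ r = r + M * (Nat.find (p := fun a => coeff (r + M * a) (T ^ s * F) ≠ 0)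
      ⟨hr2.choose, hr2.choose_spec.2⟩) := by
      simp only [φ]
      rw [dif_pos hr2]
    set a := Nat.find (p := fun a => coeff (r + M * a) (T ^ s * F) ≠ 0)
      ⟨hr2.choose, hr2.choose_spec.2⟩ with ha
    have ha1 : coeff (r + M * a) (T ^ s * F) ≠ 0 := Nat.find_spec (p := fun a => coeff (r + M * a) (T ^ s * F) ≠ 0) _
    have ha2 : ∀ b < a, coeff (r + M * b) (T ^ s * F) = 0 := by
      intro b hb
      by_contra hcon
      exact Nat.find_min (p := fun a => coeff (r + M * a) (T ^ s * F) ≠ 0) _ hb hcon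
    have haW : a < W := by
      obtain ⟨b, hb1, hb2⟩ := hr2
      exact lt_of_le_of_lt (Nat.find_min' (p := fun a => coeff (r + M * a) (T ^ s * F) ≠ 0) _ hb2) hb1
    rw [hφ]
    constructor
    · have : M * (a + 1) ≤ M * W := Nat.mul_le_mul_left M haW
      rw [mul_comm W M]
      have e : M * (a + 1) = M * a + M := by ring
      omega
    · rw [e1, first_coeff M hM _ _ hB r hrM a ha2]
      exact ha1
  · intro r hr r' hr' hrr
    rw [Finset.mem_coe, Finset.mem_filter, Finset.mem_range] at hr hr'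
    simp only [φ] at hrr
    rw [dif_pos hr.2, dif_pos hr'.2] at hrr
    have h1 := congrArg (fun z => z % M) hrr
    simp only [Nat.add_mul_mod_self_left] at h1
    rw [Nat.mod_eq_of_lt hr.1, Nat.mod_eq_of_lt hr'.1] at h1
    exact h1

/-- the inverse of `-3` modulo a power of 2 -/
theorem exists_inv (k : ℕ) : ∃ v : ℕ, 2 ^ k ∣ 1 + 3 * v := by
  have h : 2 ^ k % 3 = 1 ∨ 2 ^ k % 3 = 2 := by
    have : ¬ 3 ∣ 2 ^ k := by
      intro h
      have := Nat.Prime.dvd_of_dvd_pow (by norm_num : Nat.Prime 3) h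
      omega
    omega
  rcases h with h | h
  · exact ⟨2 ^ k / 3, ⟨1, by omega⟩⟩
  · exact ⟨(2 * 2 ^ k) / 3, ⟨2, by omega⟩⟩

/-- number of elements of a residue class in an interval -/
theorem card_class (M A T : ℕ) (s : ℕ) :
    ((Finset.Ico A (A + T)).filter fun t => M ∣ t + 3 * s).card ≤ T / M + 1 := by
  rcases Nat.eq_zero_or_pos M with hM | hM
  · subst hM
    rw [Nat.div_zero, zero_add]
    apply Finset.card_le_one.mpr
    intro t ht t' ht'
    rw [Finset.mem_filter] at ht ht'
    have h1 := Nat.eq_zero_of_zero_dvd ht.2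
    have h2 := Nat.eq_zero_of_zero_dvd ht'.2
    omega
  have h : ((Finset.Ico A (A + T)).filter fun t => M ∣ t + 3 * s).card ≤
      (Finset.range (T / M + 1)).card := by
    rcases Finset.eq_empty_or_nonempty ((Finset.Ico A (A + T)).filter fun t => M ∣ t + 3 * s) with
      h0 | h0
    · rw [h0]
      simp
    set t0 := Finset.min' _ h0 with ht0
    have ht0m := Finset.min'_mem _ h0
    rw [← ht0, Finset.mem_filter, Finset.mem_Ico] at ht0m
    refine Finset.card_le_card_of_injOn (fun t => (t - t0) / M) ?_ ?_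
    · intro t ht
      rw [Finset.mem_coe, Finset.mem_filter, Finset.mem_Ico] at ht
      rw [Finset.mem_coe, Finset.mem_range]
      exact Nat.lt_succ_of_le (Nat.div_le_div_right (by omega))
    · intro t ht t' ht' h
      have hle := Finset.min'_le _ t (Finset.mem_coe.mp ht)
      have hle' := Finset.min'_le _ t' (Finset.mem_coe.mp ht')
      rw [← ht0] at hle hle'
      rw [Finset.mem_coe, Finset.mem_filter] at ht ht'
      simp only at h
      obtain ⟨c, hc⟩ : M ∣ t - t0 := by
        have := Nat.dvd_sub ht.2 ht0m.2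
        have e : t + 3 * s - (t0 + 3 * s) = t - t0 := by omega
        rwa [e] at this
      obtain ⟨c', hc'⟩ : M ∣ t' - t0 := by
        have := Nat.dvd_sub ht'.2 ht0m.2
        have e : t' + 3 * s - (t0 + 3 * s) = t' - t0 := by omega
        rwa [e] at this
      rw [hc, hc', Nat.mul_div_cancel_left _ hM, Nat.mul_div_cancel_left _ hM] at h
      rw [h] at hc
      omega
  simpa using h

/-- the count for one `n` -/
theorem count_n (hTree : TreeStatement) {j W : ℕ} (hj : 1 ≤ j) (hL : Line j W T)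
    (n : ℕ) (F : S) (hF : ∃ a < W, coeff a F ≠ 0) (A N : ℕ) (hN : (2 ^ j) ^ n ≤ N) (y : ℝ)
    (hy : 0 < y) :
    (((Finset.Ico A (A + N)).filter fun t =>
      (((Finset.range (W * (2 ^ j) ^ n)).filter fun k => coeff k (F * P ^ t) ≠ 0).card : ℝ) ≤ y).card : ℝ)
      ≤ 2 * (N : ℝ) / ((2 ^ j) ^ n : ℝ) * (y * (1 + (j : ℝ) / 2) ^ n) := by
  classical
  set M := (2 ^ j) ^ n with hMdef
  have hM : 0 < M := by positivity
  have hM2 : M = 2 ^ (j * n) := by rw [hMdef, pow_mul]
  obtain ⟨v, hv⟩ := exists_inv (j * n)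
  rw [← hM2] at hv
  obtain ⟨hG1, hG2⟩ := hTree j W T hj (by
    rw [coeff_zero_eq_constantCoeff_apply, Pool.Agent.TH693.PP.constT]
    exact one_ne_zero) hL n F hF
  -- bad `s`
  set B := (Finset.range M).filter fun s => ((G j W T n F s : ℕ) : ℝ) ≤ y with hB
  have hBcard : (B.card : ℝ) ≤ y * (1 + (j : ℝ) / 2) ^ n := by
    have h1 : ∑ s ∈ B, (1 : ℝ) / (G j W T n F s : ℝ) ≤ (1 + (j : ℝ) / 2) ^ n := by
      refine le_trans (Finset.sum_le_sum_of_subset_of_nonneg (Finset.filter_subset _ _) ?_) hG2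
      intro i _ _
      positivity
    have h2 : (B.card : ℝ) * (1 / y) ≤ ∑ s ∈ B, (1 : ℝ) / (G j W T n F s : ℝ) := by
      rw [← nsmul_eq_mul]
      refine Finset.card_nsmul_le_sum _ _ _ ?_
      intro s hs
      rw [hB, Finset.mem_filter] at hs
      have : (0 : ℝ) < (G j W T n F s : ℝ) := by
        exact_mod_cast hG1 s
      exact one_div_le_one_div_of_le this hs.2
    have h3 := h2.trans h1
    rw [mul_one_div, div_le_iff₀ hy] at h3
    linarith
  -- the map
  have hsub : ((Finset.Ico A (A + N)).filter fun t =>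
      (((Finset.range (W * M)).filter fun k => coeff k (F * P ^ t) ≠ 0).card : ℝ) ≤ y) ⊆
      B.biUnion fun s => (Finset.Ico A (A + N)).filter fun t => M ∣ t + 3 * s := by
    intro t ht
    rw [Finset.mem_filter] at ht
    rw [Finset.mem_biUnion]
    have hdvd : M ∣ t + 3 * ((v * t) % M) := by
      have h1 : M ∣ t * (1 + 3 * v) := Dvd.dvd.mul_left hv t
      have h2 : t * (1 + 3 * v) = t + 3 * ((v * t) % M) + M * (3 * ((v * t) / M)) := by
        have := Nat.mod_add_div (v * t) M
        nlinarith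
      rw [h2] at h1
      exact (Nat.dvd_add_left (Dvd.intro _ rfl)).mp h1
    refine ⟨(v * t) % M, ?_, ?_⟩
    · rw [hB, Finset.mem_filter, Finset.mem_range]
      refine ⟨Nat.mod_lt _ hM, ?_⟩
      refine le_trans ?_ ht.2
      exact_mod_cast G_le j W n F _ t hdvd
    · rw [Finset.mem_filter]
      exact ⟨ht.1, hdvd⟩
  have h4 : (((Finset.Ico A (A + N)).filter fun t =>
      (((Finset.range (W * M)).filter fun k => coeff k (F * P ^ t) ≠ 0).card : ℝ) ≤ y).card : ℝ) ≤
      B.card * ((N : ℝ) / M + 1) := by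
    have h5 := (Finset.card_le_card hsub).trans Finset.card_biUnion_le
    have h6 : ∑ s ∈ B, ((Finset.Ico A (A + N)).filter fun t => M ∣ t + 3 * s).card ≤
        B.card * (N / M + 1) := by
      rw [← smul_eq_mul]
      exact Finset.sum_le_card_nsmul _ _ _ fun s _ => card_class M A N s
    have h7 : ((B.card * (N / M + 1) : ℕ) : ℝ) ≤ B.card * ((N : ℝ) / M + 1) := by
      push_cast
      have : ((N / M : ℕ) : ℝ) ≤ (N : ℝ) / M := Nat.cast_div_le
      gcongr
    refine le_trans ?_ h7
    exact_mod_cast h5.trans h6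
  have hMr : (0 : ℝ) < (M : ℝ) := by exact_mod_cast hM
  have h8 : (N : ℝ) / M + 1 ≤ 2 * (N : ℝ) / M := by
    have : (1 : ℝ) ≤ (N : ℝ) / M := by
      rw [le_div_iff₀ hMr, one_mul]
      exact_mod_cast hN
    have e : 2 * (N : ℝ) / M = (N : ℝ) / M + (N : ℝ) / M := by ring
    linarith
  have hMc : ((2 ^ j) ^ n : ℝ) = (M : ℝ) := by rw [hMdef]; push_cast; rfl
  rw [hMc]
  calc _ ≤ (B.card : ℝ) * ((N : ℝ) / M + 1) := h4
    _ ≤ (y * (1 + (j : ℝ) / 2) ^ n) * (2 * (N : ℝ) / M) := by
      have : (0 : ℝ) ≤ (N : ℝ) / M + 1 := by positivity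
      gcongr
    _ = _ := by ring

end Pool.Agent.L0h63.MP
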