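import Pool.Agent.L0h63.MP.Final

set_option autoImplicit false

/-!
# The final count, uniformly in `x`
-/

namespace Pool.Agent.L0h63.MP

open PowerSeries

theorem choose_j (ε : ℝ) (hε : 0 < ε) : ∃ j : ℕ, 1 ≤ j ∧ 1 + (j : ℝ) / 2 ≤ (((2 ^ j : ℕ) : ℝ)) ^ ε := by
  have hr : (1 : ℝ) < (2 : ℝ) ^ ε := Real.one_lt_rpow (by norm_num) hε
  have h := tendsto_pow_const_div_const_pow_of_one_lt 1 hr
  have h1 := (h.eventually_lt_const (show (0 : ℝ) < 1 by norm_num)).and (Filter.eventually_ge_atTop 2)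
  obtain ⟨j, hj1, hj2⟩ := h1.exists
  refine ⟨j, by omega, ?_⟩
  have hpos : (0 : ℝ) < ((2 : ℝ) ^ ε) ^ j := by positivity
  rw [div_lt_one hpos, pow_one] at hj1
  have e : (((2 ^ j : ℕ) : ℝ)) ^ ε = ((2 : ℝ) ^ ε) ^ j := by
    push_cast
    rw [← Real.rpow_natCast, ← Real.rpow_natCast, ← Real.rpow_mul (by norm_num),
      ← Real.rpow_mul (by norm_num), mul_comm]
  rw [e]
  have h2 : (2 : ℝ) ≤ j := by exact_mod_cast hj2
  linarith

/-- number of odd coefficients -/
noncomputable def cnt (F : S) (x t : ℕ) : ℕ :=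
  ((Finset.range x).filter fun k => coeff k (F * P ^ t) ≠ 0).card

theorem cnt_mono (F : S) {z x : ℕ} (t : ℕ) (h : z ≤ x) : cnt F z t ≤ cnt F x t := by
  unfold cnt
  refine Finset.card_le_card fun k hk => ?_
  rw [Finset.mem_filter, Finset.mem_range] at hk ⊢
  exact ⟨by omega, hk.2⟩

theorem core_small (hLine : LineStatement) (hTree : TreeStatement) (ε : ℝ)
    (hε : 0 < ε) (hε1 : ε ≤ 1) :
    ∃ C : ℝ, 0 < C ∧ ∀ F : S, coeff 0 F ≠ 0 → ∀ (A x N : ℕ) (y : ℝ), 1 ≤ x → 1 ≤ N → 1 ≤ y →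
      (((Finset.Ico A (A + N)).filter fun t => (cnt F x t : ℝ) ≤ y).card : ℝ) ≤
        C * y * N / ((min x N : ℕ) : ℝ) ^ (1 - ε) := by
  classical
  obtain ⟨j, hj, hjε⟩ := choose_j ε hε
  obtain ⟨W, hW, hL⟩ := hLine j hj
  set m := 2 ^ j with hm
  have hm2 : 2 ≤ m := by
    calc 2 = 2 ^ 1 := by norm_num
      _ ≤ 2 ^ j := Nat.pow_le_pow_right (by norm_num) hj
  set K : ℕ := W * m with hK
  have hK1 : 1 ≤ K := by
    rw [hK]
    exact Nat.one_le_iff_ne_zero.mpr (by positivity)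
  refine ⟨2 * K + W, by positivity, ?_⟩
  intro F hc A x' N y hx' hN1 hy
  set x := min x' N with hxdef
  have hx : 1 ≤ x := le_min hx' hN1
  have hxN : x ≤ N := min_le_right _ _
  have hxx : x ≤ x' := min_le_left _ _
  have hxr : (1 : ℝ) ≤ x := by exact_mod_cast hx
  have hxp : (0 : ℝ) < (x : ℝ) ^ (1 - ε) := by positivity
  have hy0 : (0 : ℝ) < y := by linarith
  rw [le_div_iff₀ hxp]
  by_cases hxa : x < W
  · -- trivial bound
    have h1 : (((Finset.Ico A (A + N)).filter fun t => (cnt F x' t : ℝ) ≤ y).card : ℝ) ≤ N := by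
      have := Finset.card_filter_le (Finset.Ico A (A + N)) fun t => (cnt F x' t : ℝ) ≤ y
      rw [Nat.card_Ico, Nat.add_sub_cancel_left] at this
      exact_mod_cast this
    have h2 : (x : ℝ) ^ (1 - ε) ≤ (W : ℝ) := by
      calc (x : ℝ) ^ (1 - ε) ≤ (x : ℝ) ^ (1 : ℝ) :=
            Real.rpow_le_rpow_of_exponent_le hxr (by linarith)
        _ = x := Real.rpow_one _
        _ ≤ (W : ℝ) := by exact_mod_cast hxa.le
    have hN0 : (0 : ℝ) ≤ N := by positivity
    calc _ ≤ (N : ℝ) * (W : ℝ) := mul_le_mul h1 h2 hxp.le hN0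
      _ = (W : ℝ) * 1 * N := by ring
      _ ≤ (2 * K + W : ℝ) * y * N := by
        have : (0 : ℝ) ≤ K := by positivity
        gcongr
        linarith
  · push Not at hxa
    set n := Nat.log m (x / W) with hn
    set M := m ^ n with hM
    have hdiv : 1 ≤ x / W := by
      rw [Nat.one_le_div_iff hW]
      omega
    have h1 : M ≤ x / W := Nat.pow_log_le_self m (by omega)
    have h2 : x / W < m ^ (n + 1) := Nat.lt_pow_succ_log_self (by omega) _
    have h3 : W * M ≤ x := by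
      calc W * M ≤ W * (x / W) := Nat.mul_le_mul_left W h1
        _ ≤ x := Nat.mul_div_le _ _
    have h4 : x < W * m ^ (n + 1) := by
      rw [mul_comm]
      exact (Nat.div_lt_iff_lt_mul hW).mp h2
    have hMpos : 0 < M := by positivity
    have h5 : x ≤ K * M := by
      have e : K * M = W * m ^ (n + 1) := by rw [hK, hM]; ring
      omega
    have hMN : M ≤ N := by
      have : M ≤ W * M := Nat.le_mul_of_pos_left M hW
      omega
    have h9 := count_n hTree hj hL n F ⟨0, hW, hc⟩ A N (by rw [← hm]; exact hMN) y hy0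
    have h10 : (((Finset.Ico A (A + N)).filter fun t => (cnt F x' t : ℝ) ≤ y).card : ℝ) ≤
        (((Finset.Ico A (A + N)).filter fun t =>
          (((Finset.range (W * (2 ^ j) ^ n)).filter fun k => coeff k (F * P ^ t) ≠ 0).card : ℝ) ≤
            y).card : ℝ) := by
      have : ((Finset.Ico A (A + N)).filter fun t => (cnt F x' t : ℝ) ≤ y) ⊆
        ((Finset.Ico A (A + N)).filter fun t =>
          (((Finset.range (W * (2 ^ j) ^ n)).filter fun k => coeff k (F * P ^ t) ≠ 0).card : ℝ) ≤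
            y) := by
        intro t ht
        rw [Finset.mem_filter] at ht ⊢
        refine ⟨ht.1, le_trans ?_ ht.2⟩
        have h11 := cnt_mono F t (show W * M ≤ x' by omega)
        rw [← hm, ← hM]
        have h12 : ((cnt F (W * M) t : ℕ) : ℝ) ≤ (cnt F x' t : ℝ) := by exact_mod_cast h11
        exact h12
      exact_mod_cast Finset.card_le_card this
    have hMr : (0 : ℝ) < (M : ℝ) := by exact_mod_cast hMpos
    have hMc : ((2 ^ j) ^ n : ℝ) = (M : ℝ) := by rw [hM, hm]; push_cast; rfl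
    rw [hMc] at h9
    have h11 : (1 + (j : ℝ) / 2) ^ n ≤ (M : ℝ) ^ ε := by
      have e : (M : ℝ) ^ ε = ((m : ℝ) ^ ε) ^ n := by
        rw [hM]
        push_cast
        rw [← Real.rpow_natCast, ← Real.rpow_natCast, ← Real.rpow_mul (by positivity),
          ← Real.rpow_mul (by positivity), mul_comm]
      rw [e]
      exact pow_le_pow_left₀ (by positivity) hjε n
    have h12 : (x : ℝ) ^ (1 - ε) ≤ K * (M : ℝ) ^ (1 - ε) := by
      have hKr : (1 : ℝ) ≤ K := by exact_mod_cast hK1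
      calc (x : ℝ) ^ (1 - ε) ≤ ((K : ℝ) * M) ^ (1 - ε) := by
            apply Real.rpow_le_rpow (by positivity) _ (by linarith)
            exact_mod_cast h5
        _ = (K : ℝ) ^ (1 - ε) * (M : ℝ) ^ (1 - ε) := Real.mul_rpow (by positivity) (by positivity)
        _ ≤ K * (M : ℝ) ^ (1 - ε) := by
          have : (K : ℝ) ^ (1 - ε) ≤ K := by
            calc (K : ℝ) ^ (1 - ε) ≤ (K : ℝ) ^ (1 : ℝ) :=
                  Real.rpow_le_rpow_of_exponent_le hKr (by linarith)
              _ = K := Real.rpow_one _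
          gcongr
    have hprod : (M : ℝ) ^ ε * (M : ℝ) ^ (1 - ε) = M := by
      rw [← Real.rpow_add hMr]
      simp
    have hN0 : (0 : ℝ) ≤ N := by positivity
    calc _ ≤ (2 * (N : ℝ) / M * (y * (1 + (j : ℝ) / 2) ^ n)) * (x : ℝ) ^ (1 - ε) := by
            gcongr
            exact h10.trans h9
      _ ≤ (2 * (N : ℝ) / M * (y * (M : ℝ) ^ ε)) * (K * (M : ℝ) ^ (1 - ε)) := by
            gcongr
      _ = 2 * (N : ℝ) * y * K * ((M : ℝ) ^ ε * (M : ℝ) ^ (1 - ε)) / M := by ring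
      _ = 2 * K * y * N := by
            rw [hprod]
            field_simp
      _ ≤ (2 * K + W : ℝ) * y * N := by
            have : (0 : ℝ) ≤ (W : ℝ) := by positivity
            gcongr
            linarith

theorem core (hLine : LineStatement) (hTree : TreeStatement) (ε : ℝ)
    (hε : 0 < ε) :
    ∃ C : ℝ, 0 < C ∧ ∀ F : S, coeff 0 F ≠ 0 → ∀ (A x N : ℕ) (y : ℝ), 1 ≤ x → 1 ≤ N → 1 ≤ y →
      (((Finset.Ico A (A + N)).filter fun t => (cnt F x t : ℝ) ≤ y).card : ℝ) ≤
        C * y * N / ((min x N : ℕ) : ℝ) ^ (1 - ε) := by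
  obtain ⟨C, hC, h⟩ := core_small hLine hTree (min ε 1) (lt_min hε one_pos) (min_le_right _ _)
  refine ⟨C, hC, fun F hF A x N y hx hN hy => (h F hF A x N y hx hN hy).trans ?_⟩
  have hz : 1 ≤ min x N := le_min hx hN
  have hxr : (1 : ℝ) ≤ ((min x N : ℕ) : ℝ) := by exact_mod_cast hz
  have h1 : ((min x N : ℕ) : ℝ) ^ (1 - ε) ≤ ((min x N : ℕ) : ℝ) ^ (1 - min ε 1) :=
    Real.rpow_le_rpow_of_exponent_le hxr (by linarith [min_le_left ε 1])
  have hxp : (0 : ℝ) < ((min x N : ℕ) : ℝ) ^ (1 - ε) := by positivity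
  gcongr

end Pool.Agent.L0h63.MP
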