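import Pool.Agent.L0h63.MP.All

set_option autoImplicit false

/-!
# Arbitrary predictors: two different values of `t`
-/

namespace Pool.Agent.L0h63.MP

open PowerSeries

theorem coeff_one_P : coeff 1 P = 1 := by
  show coeff 1 (PowerSeries.mk fun n => (Fintype.card (Nat.Partition n) : ZMod 2)) = 1
  rw [coeff_mk]
  have : Fintype.card (Nat.Partition 1) = 1 := by decide
  rw [this]
  rfl

theorem coeff_one_P_pow (n : ℕ) : coeff 1 (P ^ n) = (n : ZMod 2) := by
  induction n with
  | zero => simp [coeff_one]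
  | succ n ih =>
    rw [pow_succ, coeff_mul]
    have e : Finset.HasAntidiagonal.antidiagonal 1 = {((0 : ℕ), (1 : ℕ)), (1, 0)} := by decide
    rw [e, Finset.sum_insert (by decide), Finset.sum_singleton, ih, coeff_one_P]
    have h1 : coeff 0 (P ^ n) = 1 := by
      rw [coeff_zero_eq_constantCoeff_apply, map_pow, constP, one_pow]
    have h2 : coeff 0 P = 1 := by
      rw [coeff_zero_eq_constantCoeff_apply, constP]
    simp only [h1, h2]
    push_cast
    ring

theorem one_add_pow (h : ℕ) (hh : 0 < h) : ∃ (v : ℕ) (G : S), 2 ^ v ∣ h ∧ coeff 0 G ≠ 0 ∧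
    (1 : S) + P ^ h = X ^ (2 ^ v) * G := by
  obtain ⟨v, c, hc, rfl⟩ := Nat.exists_eq_two_pow_mul_odd hh.ne'
  have hdiv : (X : S) ∣ P ^ c + 1 := by
    rw [X_dvd_iff, map_add, map_pow, constP, one_pow, map_one]
    decide
  obtain ⟨G0, hG0⟩ := hdiv
  have hG1 : coeff 0 G0 = 1 := by
    have h1 := congrArg (coeff 1) hG0
    have h2 : coeff 1 (X * G0) = coeff 0 G0 := coeff_succ_X_mul 0 G0
    rw [h2, map_add, coeff_one_P_pow, coeff_one, if_neg one_ne_zero, add_zero] at h1
    rw [← h1]
    obtain ⟨d, rfl⟩ := hc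
    push_cast
    have : (2 : ZMod 2) = 0 := rfl
    rw [this]
    ring
  refine ⟨v, PowerSeries.expand (2 ^ v) (by positivity) G0, Dvd.intro _ rfl, ?_, ?_⟩
  · rw [coeff_expand, if_pos (dvd_zero _), Nat.zero_div, hG1]
    exact one_ne_zero
  · have h1 : P ^ (2 ^ v * c) = PowerSeries.expand (2 ^ v) (by positivity) (P ^ c) := by
      rw [← Pool.Agent.H397R2.PP.pow_eq_expand' (2 ^ v) v (by positivity) rfl, ← pow_mul, mul_comm c]
    have h2 : P ^ c = X * G0 + 1 := by
      rw [← hG0]
      have := Pool.Agent.TH693.PP.add_self (1 : S)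
      linear_combination -this
    rw [h1, h2, map_add, map_mul, map_one]
    have h3 : PowerSeries.expand (2 ^ v) (by positivity) (X : S) = X ^ (2 ^ v) := by
      exact PowerSeries.expand_X _ _
    rw [h3]
    have := Pool.Agent.TH693.PP.add_self (1 : S)
    linear_combination this

/-- number of errors of the predictor `g` -/
noncomputable def err (F : S) (g : ℕ → ZMod 2) (x t : ℕ) : ℕ :=
  ((Finset.range x).filter fun k => coeff k (F * P ^ t) ≠ g k).card

theorem cnt_le_err (F : S) (g : ℕ → ZMod 2) (x t h v : ℕ) (G : S)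
    (hG : (1 : S) + P ^ h = X ^ (2 ^ v) * G) :
    cnt (F * G) (x - 2 ^ v) t ≤ err F g x t + err F g x (t + h) := by
  classical
  unfold cnt err
  rw [← Finset.card_union_add_card_inter]
  refine le_trans ?_ (Nat.le_add_right _ _)
  refine Finset.card_le_card_of_injOn (fun k => k + 2 ^ v) ?_ (fun k _ k' _ h => by simpa using h)
  intro k hk
  rw [Finset.mem_coe, Finset.mem_filter, Finset.mem_range] at hk
  rw [Finset.mem_coe, Finset.mem_union, Finset.mem_filter, Finset.mem_filter, Finset.mem_range]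
  have hlt : k + 2 ^ v < x := by omega
  have e : coeff (k + 2 ^ v) (F * P ^ t) + coeff (k + 2 ^ v) (F * P ^ (t + h)) =
      coeff k (F * G * P ^ t) := by
    have h1 : F * P ^ t + F * P ^ (t + h) = X ^ (2 ^ v) * (F * G * P ^ t) := by
      rw [pow_add]
      linear_combination F * P ^ t * hG
    rw [← map_add, h1, coeff_X_pow_mul]
  by_contra hcon
  push Not at hcon
  have h1 := hcon.1 hlt
  have h2 := hcon.2 hlt
  apply hk.2
  rw [← e, h1, h2]
  exact CharTwo.add_self_eq_zero _

end Pool.Agent.L0h63.MP
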