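import Pool.Agent.L0h63.MP.Pred1

set_option autoImplicit false

/-!
# Arbitrary predictors: the count
-/

namespace Pool.Agent.L0h63.MP

open PowerSeries

/-- pairs at distance `h` -/
theorem card_sq_le (A N : ℕ) (hN : 1 ≤ N) (B : Finset ℕ) (hB : B ⊆ Finset.Ico A (A + N)) :
    B.card * B.card ≤ B.card + 2 * ∑ h ∈ Finset.Ico 1 N, (B.filter fun t => t + h ∈ B).card := by
  classical
  rw [← Finset.card_product]
  have hmaps : ∀ p ∈ B ×ˢ B, (p.1 - p.2) + (p.2 - p.1) ∈ Finset.range N := by
    intro p hp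
    rw [Finset.mem_product] at hp
    have h1 := hB hp.1
    have h2 := hB hp.2
    rw [Finset.mem_Ico] at h1 h2
    rw [Finset.mem_range]
    omega
  rw [Finset.card_eq_sum_card_fiberwise (f := fun p : ℕ × ℕ => (p.1 - p.2) + (p.2 - p.1)) hmaps]
  rw [← Finset.sum_range_add_sum_Ico _ hN, Finset.sum_range_one, Finset.mul_sum]
  refine Nat.add_le_add ?_ (Finset.sum_le_sum fun h hh => ?_)
  · refine Finset.card_le_card_of_injOn (fun p => p.1) ?_ ?_
    · intro p hp
      rw [Finset.mem_coe, Finset.mem_filter, Finset.mem_product] at hp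
      exact hp.1.1
    · intro p hp q hq hpq
      rw [Finset.mem_coe, Finset.mem_filter, Finset.mem_product] at hp hq
      have h1 := hp.2
      have h2 := hq.2
      simp only at h1 h2 hpq
      refine Prod.ext hpq ?_
      omega
  · rw [Finset.mem_Ico] at hh
    set D := B.filter fun t => t + h ∈ B with hD
    have hsub : ((B ×ˢ B).filter fun p => (p.1 - p.2) + (p.2 - p.1) = h) ⊆
        (D.image fun t => (t, t + h)) ∪ (D.image fun t => (t + h, t)) := by
      intro p hp
      rw [Finset.mem_filter, Finset.mem_product] at hp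
      rw [Finset.mem_union, Finset.mem_image, Finset.mem_image]
      obtain ⟨⟨h1, h2⟩, h3⟩ := hp
      rcases le_total p.1 p.2 with hle | hle
      · left
        have e : p.1 + h = p.2 := by omega
        refine ⟨p.1, ?_, Prod.ext rfl e⟩
        rw [hD, Finset.mem_filter, e]
        exact ⟨h1, h2⟩
      · right
        have e : p.2 + h = p.1 := by omega
        refine ⟨p.2, ?_, Prod.ext e rfl⟩
        rw [hD, Finset.mem_filter, e]
        exact ⟨h2, h1⟩
    calc _ ≤ _ := Finset.card_le_card hsub
      _ ≤ _ := Finset.card_union_le _ _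
      _ ≤ D.card + D.card := Nat.add_le_add Finset.card_image_le Finset.card_image_le
      _ = 2 * D.card := by ring

/-- the multiples of a large power of 2 -/
theorem card_mult_le (x N : ℕ) (hx : 1 ≤ x) :
    (((Finset.Ico 1 N).filter fun h => 2 ^ (Nat.log 2 x) ∣ h).card : ℝ) ≤ 2 * N / x := by
  set K := 2 ^ (Nat.log 2 x) with hK
  have hKpos : 0 < K := by positivity
  have h1 : x < 2 * K := by
    have := Nat.lt_pow_succ_log_self (b := 2) (by norm_num) x
    rw [pow_succ] at this
    omega
  have h2 : ((Finset.Ico 1 N).filter fun h => K ∣ h).card ≤ N / K := by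
    have e : ((Finset.Ico 1 N).filter fun h => K ∣ h) ⊆ ((Finset.Ioc 0 N).filter fun h => K ∣ h) := by
      intro h hh
      rw [Finset.mem_filter, Finset.mem_Ico] at hh
      rw [Finset.mem_filter, Finset.mem_Ioc]
      exact ⟨by omega, hh.2⟩
    refine (Finset.card_le_card e).trans (le_of_eq ?_)
    exact Nat.Ioc_filter_dvd_card_eq_div N K
  have hxr : (0 : ℝ) < x := by exact_mod_cast hx
  have hKr : (0 : ℝ) < K := by exact_mod_cast hKpos
  calc (((Finset.Ico 1 N).filter fun h => K ∣ h).card : ℝ) ≤ ((N / K : ℕ) : ℝ) := by exact_mod_cast h2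
    _ ≤ (N : ℝ) / K := Nat.cast_div_le
    _ ≤ 2 * N / x := by
      rw [div_le_div_iff₀ hKr hxr]
      have : (x : ℝ) ≤ 2 * K := by exact_mod_cast h1.le
      have hN : (0 : ℝ) ≤ N := by positivity
      nlinarith

theorem quad (b M C : ℝ) (hb : 0 ≤ b) (hM : 0 ≤ M) (hC : 0 ≤ C)
    (h : b * b ≤ 5 * M * b + 8 * C * (M * M)) : b ≤ (6 + 8 * C) * M := by
  by_contra hcon
  push Not at hcon
  have h1 : M ≤ b := by nlinarith
  have h2 : 0 < b := by
    rcases hb.lt_or_eq with h | h
    · exact h
    · rw [← h] at hcon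
      nlinarith
  have h3 : 8 * C * (M * M) ≤ 8 * C * (M * b) := by gcongr
  nlinarith

end Pool.Agent.L0h63.MP
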