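import Pool.Agent.L0h63.MP.Defs

set_option autoImplicit false

/-!
# Equivariance of the theta series, part 1
-/

namespace Pool.Agent.L0h63.MP

open PowerSeries

namespace Stab

/-- the quotient field of the power series ring -/
abbrev Om := FractionRing S

/-- the theta series in the field `Om` -/
noncomputable def th (N : ℕ) (a : ℤ) : Om := algebraMap S Om (Th N a)

theorem two_zero : (2 : Om) = 0 := by
  have h := congrArg (algebraMap S Om) Pool.Agent.TH693.PP.two_zero
  rwa [map_ofNat, map_zero] at h

theorem add_self (x : Om) : x + x = 0 := by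
  linear_combination x * two_zero

theorem inj : Function.Injective (algebraMap S Om) := IsFractionRing.injective S Om

/-- the graph of a ring homomorphism on a subfield -/
def R (K : Subfield Om) (τ : K →+* Om) (x y : Om) : Prop := ∃ h : x ∈ K, τ ⟨x, h⟩ = y

variable {K : Subfield Om} {τ : K →+* Om}

theorem R.add {x y x' y' : Om} (h : R K τ x y) (h' : R K τ x' y') : R K τ (x + x') (y + y') := by
  obtain ⟨h1, h2⟩ := h
  obtain ⟨h3, h4⟩ := h'
  refine ⟨K.add_mem h1 h3, ?_⟩
  rw [← h2, ← h4, ← map_add]
  rfl

theorem R.mul {x y x' y' : Om} (h : R K τ x y) (h' : R K τ x' y') : R K τ (x * x') (y * y') := by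
  obtain ⟨h1, h2⟩ := h
  obtain ⟨h3, h4⟩ := h'
  refine ⟨K.mul_mem h1 h3, ?_⟩
  rw [← h2, ← h4, ← map_mul]
  rfl

theorem R.inv {x y : Om} (h : R K τ x y) : R K τ x⁻¹ y⁻¹ := by
  obtain ⟨h1, h2⟩ := h
  refine ⟨K.inv_mem h1, ?_⟩
  rw [← h2, ← map_inv₀]
  rfl

theorem R.div {x y x' y' : Om} (h : R K τ x y) (h' : R K τ x' y') : R K τ (x / x') (y / y') := by
  rw [div_eq_mul_inv, div_eq_mul_inv]
  exact h.mul h'.inv

theorem R.pow {x y : Om} (h : R K τ x y) (n : ℕ) : R K τ (x ^ n) (y ^ n) := by
  obtain ⟨h1, h2⟩ := h
  refine ⟨K.pow_mem h1 n, ?_⟩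
  rw [← h2, ← map_pow]
  rfl

theorem R.one : R K τ 1 1 := ⟨K.one_mem, map_one τ⟩

theorem R.zero : R K τ 0 0 := ⟨K.zero_mem, map_zero τ⟩

theorem R.unique {x y y' : Om} (h : R K τ x y) (h' : R K τ x y') : y = y' := by
  obtain ⟨h1, h2⟩ := h
  obtain ⟨h3, h4⟩ := h'
  rw [← h2, ← h4]

theorem R.congr {x y x' y' : Om} (h : R K τ x y) (hx : x = x') (hy : y = y') : R K τ x' y' := by
  rw [← hx, ← hy]
  exact h

section facts

variable (H : ThetaFacts)

include H

theorem th_congr (N : ℕ) {a b : ℤ} (h : (N : ℤ) ∣ a - b) : th N a = th N b := by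
  rw [th, th, H.congr N a b h]

theorem th_neg (N : ℕ) (a : ℤ) : th N (-a) = th N a := by
  rw [th, th, H.neg]

theorem th_add {M : ℕ} (hM : 0 < M) (a : ℤ) : th (2 * M) a + th (2 * M) (a + M) = th M a := by
  rw [th, th, th, ← map_add, H.add M hM]

theorem th_add' {M : ℕ} (hM : 0 < M) (a : ℤ) : th (2 * M) (a + M) = th M a + th (2 * M) a := by
  rw [← th_add H hM a]
  linear_combination (-th (2 * M) a) * two_zero

theorem th_two {M : ℕ} (hM : 0 < M) (a : ℤ) : th (2 * M) (2 * a) = th M a ^ 4 := by
  rw [th, th, H.two M hM, map_pow]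

theorem th_mul {M : ℕ} (hM : 0 < M) (u v : ℤ) : th (2 * M) (u + v) * th (2 * M) (u - v) =
    (th (2 * M) u * th (2 * M) v + th (2 * M) (u + M) * th (2 * M) (v + M)) ^ 2 := by
  simp only [th]
  rw [← map_mul, H.mul M hM, map_pow, map_add, map_mul, map_mul]

/-- a homomorphism which is right on level `M` and on one series of level `2 M` is right on all
series of level `2 M` -/
theorem equiv {M : ℕ} (hM : 0 < M) {K : Subfield Om} {τ : K →+* Om} {e : ℤ}
    (h0 : th (2 * M) 1 ≠ 0) (he : th (2 * M) e ≠ 0)
    (h1 : ∀ a, R K τ (th M a) (th M (e * a))) (h2 : R K τ (th (2 * M) 1) (th (2 * M) e)) :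
    ∀ b, R K τ (th (2 * M) b) (th (2 * M) (e * b)) := by
  have key : ∀ n : ℕ, ∀ b : ℤ, b.natAbs = n → R K τ (th (2 * M) b) (th (2 * M) (e * b)) := by
    intro n
    induction n using Nat.strong_induction_on with
    | _ n ih =>
      have pos : ∀ b : ℤ, 0 ≤ b → b.natAbs = n → R K τ (th (2 * M) b) (th (2 * M) (e * b)) := by
        intro b hb hbn
        rcases Int.even_or_odd' b with ⟨c, hc | hc⟩
        · have := (h1 c).pow 4
          refine this.congr ?_ ?_
          · rw [hc, th_two H hM]
          · rw [hc, ← th_two H hM]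
            congr 1
            ring
        · by_cases hb1 : b = 1
          · subst hb1
            rw [mul_one]
            exact h2
          · -- b = 2 c + 1, c ≥ 1
            have hc1 : 1 ≤ c := by omega
            have hu := ih (c + 1).natAbs (by omega) (c + 1) rfl
            have hv := ih c.natAbs (by omega) c rfl
            have hu' : R K τ (th (2 * M) (c + 1 + M)) (th (2 * M) (e * (c + 1) + M)) := by
              rw [th_add' H hM, th_add' H hM]
              exact (h1 _).add hu
            have hv' : R K τ (th (2 * M) (c + M)) (th (2 * M) (e * c + M)) := by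
              rw [th_add' H hM, th_add' H hM]
              exact (h1 _).add hv
            have hm := (((hu.mul hv).add (hu'.mul hv')).pow 2)
            rw [← th_mul H hM, ← th_mul H hM] at hm
            have e1 : c + 1 + c = b := by omega
            have e2 : c + 1 - c = 1 := by omega
            have e3 : e * (c + 1) + e * c = e * b := by rw [hc]; ring
            have e4 : e * (c + 1) - e * c = e := by ring
            rw [e1, e2, e3, e4] at hm
            have hd := hm.div h2
            refine hd.congr ?_ ?_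
            · exact mul_div_cancel_right₀ _ h0
            · exact mul_div_cancel_right₀ _ he
      intro b hbn
      rcases le_total 0 b with hb | hb
      · exact pos b hb hbn
      · have := pos (-b) (by omega) (by rw [Int.natAbs_neg]; exact hbn)
        refine this.congr (th_neg H _ _) ?_
        rw [mul_neg, th_neg H]
  intro b
  exact key _ b rfl

end facts

end Stab

end Pool.Agent.L0h63.MP
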