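import Pool.Agent.L0h63.MP.Stab1

set_option autoImplicit false

/-!
# Equivariance of the theta series, part 2: extension to a quadratic extension
-/

namespace Pool.Agent.L0h63.MP



namespace Stab

open Polynomial in
/-- if `α` is a root of `f = X ^ 2 + b X + c`, is not in `K`, and `β` is a root of the image of `f`, then
every polynomial with root `α` has an image with root `β` -/
theorem eval₂_zero {K : Subfield Om} {τ : K →+* Om} {α β : Om} (b c : K)
    (hα : α ^ 2 + b * α + c = 0) (hβ : β ^ 2 + τ b * β + τ c = 0) (hαK : α ∉ K) (p : K[X])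
    (hp : aeval α p = 0) : p.eval₂ τ β = 0 := by
  set f : K[X] := X ^ 2 + C b * X + C c with hf
  have hfm : f.Monic := by
    rw [hf]
    monicity!
  have hdeg : f.natDegree = 2 := by
    rw [hf]
    compute_degree!
  have hfα : aeval α f = 0 := by
    simp only [hf, map_add, map_mul, map_pow, aeval_X, aeval_C]
    exact hα
  have hfβ : f.eval₂ τ β = 0 := by
    simp only [hf, eval₂_add, eval₂_mul, eval₂_pow, eval₂_X, eval₂_C]
    exact hβ
  have hmod := modByMonic_add_div p f
  set r := p %ₘ f with hr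
  have hrdeg : r.natDegree < 2 := by
    have h1 : r.natDegree < f.natDegree := by
      refine natDegree_modByMonic_lt p hfm ?_
      intro h1
      rw [h1, natDegree_one] at hdeg
      omega
    omega
  have hrα : aeval α r = 0 := by
    have := congrArg (aeval α) hmod
    rw [map_add, map_mul, hfα, zero_mul, add_zero, hp] at this
    exact this
  have hrform : r = C (r.coeff 1) * X + C (r.coeff 0) := by
    refine Polynomial.ext fun n => ?_
    rcases n with _ | _ | n
    · simp
    · simp [coeff_C]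
    · rw [coeff_eq_zero_of_natDegree_lt (by omega)]
      simp [coeff_C, coeff_X]
  have hr0 : r = 0 := by
    rw [hrform] at hrα
    simp only [map_add, map_mul, aeval_X, aeval_C] at hrα
    have hrα' : (r.coeff 1 : Om) * α + (r.coeff 0 : Om) = 0 := hrα
    by_cases h1 : r.coeff 1 = 0
    · rw [h1] at hrα' hrform
      have h2 : (r.coeff 0 : Om) = 0 := by simpa using hrα'
      have h3 : r.coeff 0 = 0 := by exact_mod_cast h2
      rw [hrform, h3]
      simp
    · exfalso
      apply hαK
      have h2 : (r.coeff 1 : Om) ≠ 0 := by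
        intro h3
        exact h1 (by exact_mod_cast h3)
      have h3 : α = -(r.coeff 0 : Om) / (r.coeff 1 : Om) := by
        rw [eq_div_iff h2]
        linear_combination hrα'
      rw [h3]
      exact K.div_mem (K.neg_mem (r.coeff 0).2) (r.coeff 1).2
  rw [← hmod, hr0, zero_add, eval₂_mul, hfβ, zero_mul]

open IntermediateField in
theorem extend {K : Subfield Om} {τ : K →+* Om} {α β : Om} (b c : K)
    (hα : α ^ 2 + b * α + c = 0) (hβ : β ^ 2 + τ b * β + τ c = 0) (hαK : α ∉ K) :
    ∃ (K1 : Subfield Om) (τ1 : K1 →+* Om), (∀ x y, R K τ x y → R K1 τ1 x y) ∧ R K1 τ1 α β := by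
  have hint : IsIntegral K α := by
    refine ⟨Polynomial.X ^ 2 + Polynomial.C b * Polynomial.X + Polynomial.C c, by monicity!, ?_⟩
    simp only [Polynomial.eval₂_add, Polynomial.eval₂_mul, Polynomial.eval₂_pow,
      Polynomial.eval₂_X, Polynomial.eval₂_C]
    exact hα
  have hmin : (minpoly K α).eval₂ τ β = 0 :=
    eval₂_zero b c hα hβ hαK _ (minpoly.aeval K α)
  let ψ : K⟮α⟯ →+* Om := (AdjoinRoot.lift τ β hmin).comp
    ((adjoinRootEquivAdjoin K hint).symm : K⟮α⟯ ≃ₐ[K] AdjoinRoot (minpoly K α)).toRingEquiv.toRingHom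
  let ι : (K⟮α⟯.toSubfield) →+* K⟮α⟯ :=
    { toFun := fun x => ⟨x.1, x.2⟩
      map_one' := rfl
      map_mul' := fun _ _ => rfl
      map_zero' := rfl
      map_add' := fun _ _ => rfl }
  refine ⟨K⟮α⟯.toSubfield, ψ.comp ι, ?_, ?_⟩
  · rintro x y ⟨hx, hy⟩
    have hm : x ∈ K⟮α⟯ := (algebraMap K K⟮α⟯ ⟨x, hx⟩).2
    refine ⟨hm, ?_⟩
    have e : ι ⟨x, hm⟩ = algebraMap K K⟮α⟯ ⟨x, hx⟩ := rfl
    rw [RingHom.comp_apply, e]
    show (AdjoinRoot.lift τ β hmin) ((adjoinRootEquivAdjoin K hint).symm (algebraMap K K⟮α⟯ ⟨x, hx⟩)) = y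
    rw [AlgEquiv.commutes]
    show (AdjoinRoot.lift τ β hmin) (AdjoinRoot.of (minpoly K α) ⟨x, hx⟩) = y
    rw [AdjoinRoot.lift_of, hy]
  · refine ⟨mem_adjoin_simple_self K α, ?_⟩
    have e : ι ⟨α, mem_adjoin_simple_self K α⟩ = AdjoinSimple.gen K α := rfl
    rw [RingHom.comp_apply, e]
    show (AdjoinRoot.lift τ β hmin) ((adjoinRootEquivAdjoin K hint).symm (AdjoinSimple.gen K α)) = β
    rw [adjoinRootEquivAdjoin_symm_apply_gen, AdjoinRoot.lift_root]

end Stab

end Pool.Agent.L0h63.MP
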