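import Pool.Agent.L0h63.MP.Stab2

set_option autoImplicit false

/-!
# Equivariance of the theta series, part 3: the quadratic equations and nonvanishing
-/

namespace Pool.Agent.L0h63.MP

open PowerSeries

namespace Stab

/-- the coefficient at `a ^ 2` -/
theorem Th_self (N : ℕ) (a : ℤ) (h : ¬ (N : ℤ) ∣ 2 * a) : coeff (a ^ 2).toNat (Th N a) = 1 := by
  have hn : (((a ^ 2).toNat : ℕ) : ℤ) = a ^ 2 := Int.toNat_of_nonneg (sq_nonneg a)
  rw [Th, coeff_mk, hn]
  have e : (Finset.Icc (-(a ^ 2)) (a ^ 2)).filter (fun k => k ^ 2 = a ^ 2 ∧ (N : ℤ) ∣ k - a) = {a} := by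
    ext k
    simp only [Finset.mem_filter, Finset.mem_Icc, Finset.mem_singleton]
    constructor
    · rintro ⟨-, h1, h2⟩
      rcases sq_eq_sq_iff_eq_or_eq_neg.mp h1 with h3 | h3
      · exact h3
      · exfalso
        apply h
        rw [h3] at h2
        have : (N : ℤ) ∣ -(-a - a) := (dvd_neg).mpr h2
        have e : -(-a - a) = 2 * a := by ring
        rwa [e] at this
    · rintro rfl
      refine ⟨⟨?_, ?_⟩, rfl, by simp⟩
      · rcases le_total 0 k with h1 | h1 <;> nlinarith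
      · rcases le_total 0 k with h1 | h1 <;> nlinarith
  rw [e]
  simp

theorem Th_ne (N : ℕ) (a : ℤ) (h : ¬ (N : ℤ) ∣ 2 * a) : Th N a ≠ 0 := by
  intro h1
  have h2 := Th_self N a h
  rw [h1] at h2
  simp at h2

theorem th_ne (N : ℕ) (a : ℤ) (h : ¬ (N : ℤ) ∣ 2 * a) : th N a ≠ 0 := by
  intro h1
  apply Th_ne N a h
  apply inj
  rw [map_zero]
  exact h1

theorem th_ne_odd {N : ℕ} (hN : 4 ∣ N) (a : ℤ) (ha : Odd a) : th N a ≠ 0 := by
  apply th_ne
  intro h
  obtain ⟨N', rfl⟩ := hN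
  obtain ⟨c, hc⟩ := ha
  obtain ⟨d, hd⟩ := h
  push_cast at hd
  obtain ⟨z, hz⟩ : ∃ z : ℤ, 2 * a = 4 * z := ⟨(N' : ℤ) * d, by rw [hd]; ring⟩
  omega

section facts

variable (H : ThetaFacts)

include H

/-- the product of the two series over one series of lower level -/
noncomputable def cc (M : ℕ) (a : ℤ) : Om := (th (2 * M) ((M : ℤ) / 2) * th M (a + (M : ℤ) / 2)) ^ 2

omit H in
theorem cc_def (M : ℕ) (a : ℤ) :
    cc M a = (th (2 * M) ((M : ℤ) / 2) * th M (a + (M : ℤ) / 2)) ^ 2 := rfl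

theorem prod_eq {M : ℕ} (hM : 0 < M) (h2 : 2 ∣ M) (a : ℤ) :
    th (2 * M) a * th (2 * M) (a + M) = cc M a := by
  obtain ⟨Q, rfl⟩ := h2
  have hq : (((2 * Q : ℕ) : ℤ)) / 2 = Q := by push_cast; omega
  rw [cc_def, hq]
  have h := th_mul H hM (a + Q) (-(Q : ℤ))
  have e1 : a + (Q : ℤ) + -(Q : ℤ) = a := by ring
  have e2 : a + (Q : ℤ) - -(Q : ℤ) = a + ((2 * Q : ℕ) : ℤ) := by push_cast; ring
  have e3 : -(Q : ℤ) + ((2 * Q : ℕ) : ℤ) = Q := by push_cast; ring
  rw [e1, e2, e3, th_neg H] at h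
  rw [h, ← th_add H hM (a + Q)]
  ring

theorem root {M : ℕ} (hM : 0 < M) (h2 : 2 ∣ M) (a : ℤ) :
    th (2 * M) a ^ 2 + th M a * th (2 * M) a + cc M a = 0 := by
  rw [← prod_eq H hM h2 a, ← th_add H hM a]
  linear_combination (th (2 * M) a ^ 2 + th (2 * M) a * th (2 * M) (a + M)) * two_zero

/-- the roots of the quadratic polynomial -/
theorem root_cases {M : ℕ} (hM : 0 < M) (h2 : 2 ∣ M) (a : ℤ) {y : Om}
    (hy : y ^ 2 + th M a * y + cc M a = 0) : y = th (2 * M) a ∨ y = th (2 * M) (a + M) := by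
  have h : (y - th (2 * M) a) * (y - th (2 * M) (a + M)) = 0 := by
    rw [← prod_eq H hM h2 a, ← th_add H hM a] at hy
    linear_combination hy - (th (2 * M) a + th (2 * M) (a + M)) * y * two_zero
  rcases mul_eq_zero.mp h with h1 | h1
  · left; exact sub_eq_zero.mp h1
  · right; exact sub_eq_zero.mp h1

theorem cc_mem {M : ℕ} (h4 : 4 ∣ M) (hM : 0 < M) {K : Subfield Om} {τ : K →+* Om} {e : ℤ}
    (he : Odd e) (h1 : ∀ a, R K τ (th M a) (th M (e * a))) (a : ℤ) :
    R K τ (cc M a) (cc M (e * a)) := by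
  obtain ⟨Q, rfl⟩ := h4
  have hq : (((4 * Q : ℕ) : ℤ)) / 2 = 2 * Q := by push_cast; omega
  rw [cc_def, cc_def, hq]
  refine R.pow (R.mul ?_ ?_) 2
  · have h2 := (h1 (Q : ℤ)).pow 4
    refine h2.congr ?_ ?_
    · rw [← th_two H hM]
    · rw [← th_two H hM]
      -- 2 e Q ≡ ± 2 Q mod 8 Q
      obtain ⟨c, hc⟩ := he
      rcases Int.even_or_odd' c with ⟨d, hd | hd⟩
      · apply th_congr H
        refine ⟨d, ?_⟩
        rw [hc, hd]
        push_cast
        ring
      · rw [← th_neg H _ (2 * (Q : ℤ))]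
        apply th_congr H
        refine ⟨d + 1, ?_⟩
        rw [hc, hd]
        push_cast
        ring
  · refine (h1 (a + 2 * Q)).congr rfl ?_
    apply th_congr H
    obtain ⟨c, hc⟩ := he
    refine ⟨c, ?_⟩
    rw [hc]
    push_cast
    ring

theorem th_ne_th {M : ℕ} (h4 : 4 ∣ M) (hM : 0 < M) : th (2 * M) (1 + M) ≠ th (2 * M) 1 := by
  intro h
  have h1 := inj h
  have h2 := H.one (2 * M) (by obtain ⟨Q, rfl⟩ := h4; omega)
  rw [← h1] at h2
  have h3 := H.low (2 * M) (1 + M) 1 (by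
    intro k hk
    have hk' : k = 1 ∨ k = -1 := by
      have : k ^ 2 = 1 ^ 2 := by simpa using hk
      rcases sq_eq_sq_iff_eq_or_eq_neg.mp this with h | h
      · exact Or.inl h
      · exact Or.inr h
    obtain ⟨Q, rfl⟩ := h4
    rintro ⟨c, hc⟩
    push_cast at hc
    rcases hk' with rfl | rfl
    · -- -M = 2 M c
      have e : -(4 * (Q : ℤ)) = 2 * (4 * Q) * c := by linear_combination hc
      have hQ : (0 : ℤ) < Q := by omega
      have : (Q : ℤ) * (2 * c + 1) = 0 := by linarith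
      rcases mul_eq_zero.mp this with h | h <;> omega
    · have e : -(2 : ℤ) - 4 * Q = 2 * (4 * Q) * c := by linear_combination hc
      have : (4 : ℤ) * (Q * (2 * c + 1)) = -2 := by linarith
      omega)
  rw [h3] at h2
  exact absurd h2 (by decide)

end facts

end Stab

end Pool.Agent.L0h63.MP
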