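import Pool.Agent.L0h63.MP.Stab3

set_option autoImplicit false

/-!
# Equivariance of the theta series, part 4: the quadratic extensions are nontrivial
-/

namespace Pool.Agent.L0h63.MP

open PowerSeries

namespace Stab

/-- powers of a number which is 3 modulo 8 -/
theorem pow_three {e : ℤ} (he : ∃ d, e = 3 + 8 * d) (n : ℕ) :
    ∃ c : ℤ, e ^ (2 ^ (n + 1)) = 1 + 2 ^ (n + 3) + 2 ^ (n + 4) * c := by
  induction n with
  | zero =>
    obtain ⟨d, rfl⟩ := he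
    exact ⟨3 * d + 4 * d ^ 2, by ring⟩
  | succ n ih =>
    obtain ⟨c, hc⟩ := ih
    refine ⟨c + 2 ^ (n + 1) * (1 + 2 * c) ^ 2, ?_⟩
    rw [pow_succ 2 (n + 1), pow_mul, hc]
    ring

/-- the field generated by the series of level `M` -/
noncomputable def KK (M : ℕ) : Subfield Om := Subfield.closure (Set.range (th M))

theorem th_mem (M : ℕ) (a : ℤ) : th M a ∈ KK M := Subfield.subset_closure ⟨a, rfl⟩

/-- homomorphisms on the field which agree on generators are equal -/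
theorem hom_ext {M : ℕ} {f g : KK M →+* Om}
    (h : ∀ a, f ⟨th M a, th_mem M a⟩ = g ⟨th M a, th_mem M a⟩) : f = g := by
  have h1 : KK M ≤ (RingHom.eqLocusField f g).map (KK M).subtype := by
    refine Subfield.closure_le.mpr ?_
    rintro x ⟨a, rfl⟩
    exact ⟨⟨th M a, th_mem M a⟩, h a, rfl⟩
  ext ⟨x, hx⟩
  obtain ⟨y, hy, hyx⟩ := h1 hx
  have : y = ⟨x, hx⟩ := by
    apply Subtype.ext
    exact hyx
  rw [← this]
  exact hy

/-- a homomorphism which maps generators of the field into it -/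
theorem map_mem {M : ℕ} {f : KK M →+* Om} (h : ∀ a, f ⟨th M a, th_mem M a⟩ ∈ KK M) :
    ∀ x, f x ∈ KK M := by
  have h1 : KK M ≤ ((KK M).comap f).map (KK M).subtype := by
    refine Subfield.closure_le.mpr ?_
    rintro x ⟨a, rfl⟩
    exact ⟨⟨th M a, th_mem M a⟩, h a, rfl⟩
  rintro ⟨x, hx⟩
  obtain ⟨y, hy, hyx⟩ := h1 hx
  have : y = ⟨x, hx⟩ := by
    apply Subtype.ext
    exact hyx
  rw [← this]
  exact hy

section facts

variable (H : ThetaFacts)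

include H

/-- if the first series of level `2 M` is in the field of level `M`, then iteration is possible -/
theorem iterate {M : ℕ} (hM : 0 < M) (h4 : 4 ∣ M) {τ : KK M →+* Om} {e : ℤ} (he : Odd e)
    (h1 : ∀ a, R (KK M) τ (th M a) (th M (e * a)))
    (h2 : R (KK M) τ (th (2 * M) 1) (th (2 * M) e)) (k : ℕ) :
    ∃ ρ : KK M →+* Om, (∀ x, ρ x ∈ KK M) ∧
      (∀ a, R (KK M) ρ (th M a) (th M (e ^ k * a))) ∧
      ∀ a, R (KK M) ρ (th (2 * M) a) (th (2 * M) (e ^ k * a)) := by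
  have h5 : 4 ∣ 2 * M := by omega
  have h3 := equiv H hM (th_ne_odd h5 1 (by decide)) (th_ne_odd h5 e he) h1 h2
  have hτ : ∀ x, τ x ∈ KK M := by
    apply map_mem
    intro a
    obtain ⟨h6, h7⟩ := h1 a
    rw [h7]
    exact th_mem _ _
  induction k with
  | zero =>
    refine ⟨(KK M).subtype, fun x => x.2, fun a => ⟨th_mem _ _, ?_⟩, fun a => ?_⟩
    · simp
    · obtain ⟨h6, -⟩ := h3 a
      exact ⟨h6, by simp⟩
  | succ k ih =>
    obtain ⟨ρ, hρ1, hρ2, hρ3⟩ := ih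
    let τ0 : KK M →+* KK M := τ.codRestrict (KK M) hτ
    refine ⟨ρ.comp τ0, fun x => hρ1 _, fun a => ?_, fun a => ?_⟩
    · obtain ⟨h6, h7⟩ := h1 a
      obtain ⟨h8, h9⟩ := hρ2 (e * a)
      refine ⟨h6, ?_⟩
      rw [RingHom.comp_apply]
      have : τ0 ⟨th M a, h6⟩ = ⟨th M (e * a), h8⟩ := Subtype.ext h7
      rw [this, h9, pow_succ, mul_assoc]
    · obtain ⟨h6, h7⟩ := h3 a
      obtain ⟨h8, h9⟩ := hρ3 (e * a)
      refine ⟨h6, ?_⟩
      rw [RingHom.comp_apply]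
      have : τ0 ⟨th (2 * M) a, h6⟩ = ⟨th (2 * M) (e * a), h8⟩ := Subtype.ext h7
      rw [this, h9, pow_succ, mul_assoc]

/-- for `M ≥ 8` the quadratic extension is not trivial -/
theorem not_mem {m : ℕ} (τ : KK (2 ^ (m + 3)) →+* Om)
    (h1 : ∀ a, R (KK (2 ^ (m + 3))) τ (th (2 ^ (m + 3)) a) (th (2 ^ (m + 3)) (3 * a))) :
    th (2 * 2 ^ (m + 3)) 1 ∉ KK (2 ^ (m + 3)) := by
  intro hα
  have h8 : (2 ^ (m + 3) : ℕ) = 8 * 2 ^ m := by ring
  have hM : 0 < 2 ^ (m + 3) := by positivity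
  have h4 : 4 ∣ 2 ^ (m + 3) := by rw [h8]; exact ⟨2 * 2 ^ m, by ring⟩
  have h2' : 2 ∣ 2 ^ (m + 3) := by rw [h8]; exact ⟨4 * 2 ^ m, by ring⟩
  have h8z : ((2 ^ (m + 3) : ℕ) : ℤ) = 8 * 2 ^ m := by rw [h8]; push_cast; ring
  set y := τ ⟨_, hα⟩ with hy
  have hR : R (KK (2 ^ (m + 3))) τ (th (2 * 2 ^ (m + 3)) 1) y := ⟨hα, rfl⟩
  have hroot := root H hM h2' 1
  have hcc := cc_mem H h4 hM (by decide : Odd (3 : ℤ)) h1 1
  have h13 := h1 1
  rw [mul_one] at hcc h13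
  have hsum := ((hR.pow 2).add (h13.mul hR)).add hcc
  rw [hroot] at hsum
  have hy0 := R.unique hsum R.zero
  obtain ⟨e, he1, he2, he3⟩ : ∃ e : ℤ, (∃ d, e = 3 + 8 * d) ∧ y = th (2 * 2 ^ (m + 3)) e ∧
      ((2 ^ (m + 3) : ℕ) : ℤ) ∣ e - 3 := by
    rcases root_cases H hM h2' 3 hy0 with h | h
    · exact ⟨3, ⟨0, by ring⟩, h, by simp⟩
    · refine ⟨3 + ((2 ^ (m + 3) : ℕ) : ℤ), ⟨2 ^ m, by rw [h8z]⟩, h, by simp⟩
  have hodd : Odd e := by
    obtain ⟨d, rfl⟩ := he1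
    exact ⟨1 + 4 * d, by ring⟩
  rw [he2] at hR
  have h1e : ∀ a, R (KK (2 ^ (m + 3))) τ (th (2 ^ (m + 3)) a) (th (2 ^ (m + 3)) (e * a)) := by
    intro a
    refine (h1 a).congr rfl ?_
    apply th_congr H
    obtain ⟨d, hd⟩ := he3
    refine ⟨-d * a, ?_⟩
    have : e = 3 + ((2 ^ (m + 3) : ℕ) : ℤ) * d := by linear_combination hd
    rw [this]
    ring
  obtain ⟨ρ, -, hρ2, hρ3⟩ := iterate H hM h4 hodd h1e hR (2 ^ (m + 1))
  obtain ⟨c, hc⟩ := pow_three he1 m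
  have hid : ρ = (KK (2 ^ (m + 3))).subtype := by
    apply hom_ext
    intro a
    obtain ⟨h6, h7⟩ := hρ2 a
    rw [h7]
    show _ = th (2 ^ (m + 3)) a
    apply th_congr H
    rw [hc]
    refine ⟨(1 + 2 * c) * a, ?_⟩
    push_cast
    ring
  obtain ⟨h6, h7⟩ := hρ3 1
  rw [hid] at h7
  apply th_ne_th H h4 hM
  rw [show th (2 * 2 ^ (m + 3)) 1 = (KK (2 ^ (m + 3))).subtype ⟨_, h6⟩ from rfl, h7]
  apply th_congr H
  rw [hc]
  refine ⟨-c, ?_⟩
  push_cast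
  ring

end facts

end Stab

end Pool.Agent.L0h63.MP
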