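import Pool.Agent.L0h63.MP.Stab4

set_option autoImplicit false

/-!
# Equivariance of the theta series, part 5: level 4
-/

namespace Pool.Agent.L0h63.MP

open PowerSeries

namespace Stab

/-- a class which is closed under `k ↦ -k` -/
theorem coeff_dbl (N : ℕ) (a : ℤ) (h : (N : ℤ) ∣ 2 * a) (n : ℕ) (hn : n ≠ 0 ∨ ¬ (N : ℤ) ∣ a) :
    coeff n (Th N a) = 0 := by
  rw [Th, coeff_mk, Finset.card_eq_sum_ones, Nat.cast_sum]
  push_cast
  refine Finset.sum_involution (fun k _ => -k) ?_ ?_ ?_ ?_
  · intro k _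
    exact (by decide : (1 : ZMod 2) + 1 = 0)
  · intro k hk _ h1
    rw [Finset.mem_filter] at hk
    have hk0 : k = 0 := by omega
    subst hk0
    obtain ⟨-, h2, h3⟩ := hk
    rcases hn with hn | hn
    · apply hn
      have : (n : ℤ) = 0 := by rw [← h2]; ring
      exact_mod_cast this
    · apply hn
      have : (N : ℤ) ∣ -(0 - a) := (dvd_neg).mpr h3
      simpa using this
  · intro k hk
    rw [Finset.mem_filter, Finset.mem_Icc] at hk ⊢
    obtain ⟨⟨h1, h2⟩, h3, h4⟩ := hk
    refine ⟨⟨by omega, by omega⟩, ?_, ?_⟩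
    · rw [neg_sq]
      exact h3
    · have : (N : ℤ) ∣ -(k - a) - 2 * a := dvd_sub ((dvd_neg).mpr h4) h
      have e : -(k - a) - 2 * a = -k - a := by ring
      rwa [e] at this
  · intro k _
    simp

theorem Th_zero (N : ℕ) : Th N 0 = 1 := by
  ext n
  by_cases hn : n = 0
  · subst hn
    rw [Th, coeff_mk]
    have : (Finset.Icc (-((0 : ℕ) : ℤ)) ((0 : ℕ) : ℤ)).filter
        (fun k => k ^ 2 = ((0 : ℕ) : ℤ) ∧ (N : ℤ) ∣ k - 0) = {0} := by
      ext k
      simp only [Finset.mem_filter, Finset.mem_Icc, Finset.mem_singleton]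
      constructor
      · rintro ⟨h, -⟩
        push_cast at h
        omega
      · rintro rfl
        simp
    rw [this]
    simp
  · rw [coeff_dbl N 0 (by simp) n (Or.inl hn), coeff_one, if_neg hn]

theorem Th_half : Th 4 2 = 0 := by
  ext n
  rw [coeff_dbl 4 2 (by norm_num) n (Or.inr (by norm_num)), map_zero]

/-- the discriminant in the field -/
noncomputable def De : Om := th 4 1

section facts

variable (H : ThetaFacts)

include H

theorem th_four (a : ℤ) : th 4 a = 1 ∨ th 4 a = 0 ∨ th 4 a = De := by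
  have h := Int.emod_emod_of_dvd a (show (4 : ℤ) ∣ 4 from dvd_rfl)
  have h1 : 0 ≤ a % 4 := Int.emod_nonneg _ (by norm_num)
  have h2 : a % 4 < 4 := Int.emod_lt_of_pos _ (by norm_num)
  have h3 : th 4 a = th 4 (a % 4) := by
    apply th_congr H
    exact ⟨a / 4, by have := Int.emod_add_mul_ediv a 4; push_cast; linarith⟩
  rw [h3]
  have h4 : a % 4 = 0 ∨ a % 4 = 1 ∨ a % 4 = 2 ∨ a % 4 = 3 := by omega
  rcases h4 with h4 | h4 | h4 | h4
  · left
    rw [h4, th, Th_zero, map_one]
  · right; right
    rw [h4]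
    rfl
  · right; left
    rw [h4, th, Th_half, map_zero]
  · right; right
    rw [h4, De, ← th_neg H 4 1]
    apply th_congr H
    norm_num

omit H in
theorem De_ne : De ≠ 0 := th_ne_odd dvd_rfl 1 (by decide)

theorem const_D : constantCoeff (Th 4 1) = 0 := by
  rw [← coeff_zero_eq_constantCoeff_apply]
  apply H.low
  intro k hk
  have : k = 0 := by
    have : k ^ 2 = 0 := by simpa using hk
    exact pow_eq_zero_iff (two_ne_zero) |>.mp this
  subst this
  norm_num

theorem trans (n : ℕ) : ∀ P : Polynomial (ZMod 2), P.natDegree ≤ n →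
    Polynomial.aeval (Th 4 1) P = (0 : S) → P = 0 := by
  have hD : Th 4 1 ≠ 0 := Th_ne 4 1 (by norm_num)
  have key : ∀ P : Polynomial (ZMod 2), Polynomial.aeval (Th 4 1) P = (0 : S) → P.coeff 0 = 0 ∧
      Polynomial.aeval (Th 4 1) P.divX = (0 : S) := by
    intro P hP
    have h1 := congrArg (Polynomial.aeval (Th 4 1)) (Polynomial.divX_mul_X_add P)
    rw [hP, map_add, map_mul, Polynomial.aeval_X, Polynomial.aeval_C] at h1
    have h2 := congrArg (constantCoeff (R := ZMod 2)) h1
    rw [map_add, map_mul, const_D H, mul_zero, zero_add, map_zero] at h2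
    have h3 : constantCoeff (algebraMap (ZMod 2) S (P.coeff 0)) = P.coeff 0 := by
      exact PowerSeries.constantCoeff_C _
    rw [h3] at h2
    refine ⟨h2, ?_⟩
    rw [h2, map_zero, add_zero] at h1
    exact (mul_eq_zero.mp h1).resolve_right hD
  induction n with
  | zero =>
    intro P hP h
    have h1 := (key P h).1
    rw [Polynomial.eq_C_of_natDegree_le_zero hP, h1, map_zero]
  | succ n ih =>
    intro P hP h
    obtain ⟨h1, h2⟩ := key P h
    have h3 := ih P.divX (by rw [Polynomial.natDegree_divX_eq_natDegree_tsub_one]; omega) h2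
    rw [← Polynomial.divX_mul_X_add P, h1, h3]
    simp

theorem trans' (P : Polynomial (ZMod 2)) (h : Polynomial.aeval De P = (0 : Om)) : P = 0 := by
  apply trans H P.natDegree P le_rfl
  apply inj
  rw [map_zero, ← h, De, th, Polynomial.aeval_algebraMap_apply]

omit H in
theorem poly_ne (r s : Polynomial (ZMod 2)) (hs : s ≠ 0) :
    r ^ 2 + r * s + Polynomial.X * s ^ 2 ≠ 0 := by
  intro h
  have two : (2 : Polynomial (ZMod 2)) = 0 := by
    have : (2 : Polynomial (ZMod 2)) = Polynomial.C (2 : ZMod 2) := by rw [map_ofNat]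
    rw [this, show (2 : ZMod 2) = 0 from rfl, map_zero]
  have h1 : r * (r + s) = Polynomial.X * s ^ 2 := by
    linear_combination h - (Polynomial.X * s ^ 2) * two
  have h2 : (Polynomial.X * s ^ 2 : Polynomial (ZMod 2)).natDegree = 2 * s.natDegree + 1 := by
    rw [Polynomial.natDegree_X_mul (pow_ne_zero 2 hs), Polynomial.natDegree_pow]
  have h0 : (Polynomial.X * s ^ 2 : Polynomial (ZMod 2)) ≠ 0 :=
    mul_ne_zero Polynomial.X_ne_zero (pow_ne_zero 2 hs)
  have hr : r ≠ 0 := by
    intro h3
    rw [h3, zero_mul] at h1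
    exact h0 h1.symm
  have hrs : r + s ≠ 0 := by
    intro h3
    rw [h3, mul_zero] at h1
    exact h0 h1.symm
  have h3 := congrArg Polynomial.natDegree h1
  rw [Polynomial.natDegree_mul hr hrs, h2] at h3
  rcases lt_trichotomy r.natDegree s.natDegree with h4 | h4 | h4
  · rw [Polynomial.natDegree_add_eq_right_of_natDegree_lt h4] at h3
    omega
  · have := Polynomial.natDegree_add_le r s
    rw [h4, max_self] at this
    omega
  · rw [Polynomial.natDegree_add_eq_left_of_natDegree_lt h4] at h3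
    omega

open IntermediateField in
theorem not_mem_four : th (2 * 4) 1 ∉ KK 4 := by
  intro hα
  have hK : KK 4 ≤ (adjoin (ZMod 2) {De}).toSubfield := by
    refine Subfield.closure_le.mpr ?_
    rintro x ⟨a, rfl⟩
    rcases th_four H a with h | h | h
    · rw [h]
      exact one_mem _
    · rw [h]
      exact zero_mem _
    · rw [h]
      exact mem_adjoin_simple_self _ _
  have hα' : th (2 * 4) 1 ∈ adjoin (ZMod 2) {De} := hK hα
  have hD : De ∈ adjoin (ZMod 2) {De} := mem_adjoin_simple_self _ _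
  have hcc : cc 4 1 = De ^ 10 := by
    rw [cc_def]
    have e1 : (((4 : ℕ) : ℤ)) / 2 = 2 := by norm_num
    rw [e1]
    have e2 : th (2 * 4) 2 = De ^ 4 := by
      have := th_two H (show 0 < 4 by norm_num) 1
      rwa [mul_one] at this
    have e3 : th 4 (1 + 2) = De := by
      rw [De, ← th_neg H 4 1]
      apply th_congr H
      norm_num
    rw [e2, e3]
    ring
  have hroot := root H (show 0 < 4 by norm_num) (by norm_num : 2 ∣ 4) 1
  rw [hcc] at hroot
  have hDne := De_ne
  set Z : Om := th (2 * 4) 1 / De + De ^ 4 + De ^ 2 + De with hZ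
  have hZmem : Z ∈ adjoin (ZMod 2) {De} :=
    add_mem (add_mem (add_mem (div_mem hα' hD) (pow_mem hD 4)) (pow_mem hD 2)) hD
  have hZeq : Z ^ 2 + Z + De = 0 := by
    have h1 : (th (2 * 4) 1 / De) ^ 2 + th (2 * 4) 1 / De + De ^ 8 = 0 := by
      have h2 : (th (2 * 4) 1 / De) * De = th (2 * 4) 1 := div_mul_cancel₀ _ hDne
      have h3 : ((th (2 * 4) 1 / De) ^ 2 + th (2 * 4) 1 / De + De ^ 8) * De ^ 2 = 0 := by
        have e : ((th (2 * 4) 1 / De) ^ 2 + th (2 * 4) 1 / De + De ^ 8) * De ^ 2 =
          ((th (2 * 4) 1 / De) * De) ^ 2 + De * ((th (2 * 4) 1 / De) * De) + De ^ 10 := by ring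
        rw [e, h2]
        exact hroot
      exact (mul_eq_zero.mp h3).resolve_right (pow_ne_zero 2 hDne)
    rw [hZ]
    set z := th (2 * 4) 1 / De
    linear_combination h1 + (z * De ^ 4 + z * De ^ 2 + z * De + De ^ 6 + De ^ 5 + De ^ 4 + De ^ 3 +
      De ^ 2 + De) * two_zero
  rw [mem_adjoin_simple_iff] at hZmem
  obtain ⟨r, s, hrs⟩ := hZmem
  have hs : Polynomial.aeval De s ≠ (0 : Om) := by
    intro h
    rw [h, div_zero] at hrs
    rw [hrs] at hZeq
    apply hDne
    linear_combination hZeq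
  have hs0 : s ≠ 0 := by
    rintro rfl
    simp at hs
  apply poly_ne r s hs0
  apply trans' H
  have h1 : Z * Polynomial.aeval De s = Polynomial.aeval De r := by
    rw [hrs, div_mul_cancel₀ _ hs]
  simp only [map_add, map_mul, map_pow, Polynomial.aeval_X]
  rw [← h1]
  linear_combination (Polynomial.aeval De s) ^ 2 * hZeq

end facts

end Stab

end Pool.Agent.L0h63.MP
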