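import Pool.Agent.L0h63.MP.Defs

set_option autoImplicit false

/-!
# Module M1 of the project on multipartition numbers: formulas for the theta series (helper75)
-/

namespace Pool.Agent.L0h63.MP

open PowerSeries

namespace ThetaM1

/-- the integers `k ≡ a mod N` with `k ^ 2 = n` -/
noncomputable def sol (N : ℕ) (a : ℤ) (n : ℕ) : Finset ℤ :=
  (Finset.Icc (-(n : ℤ)) n).filter fun k => k ^ 2 = (n : ℤ) ∧ (N : ℤ) ∣ k - a

lemma mem_sol {N : ℕ} {a : ℤ} {n : ℕ} {k : ℤ} :
    k ∈ sol N a n ↔ k ^ 2 = (n : ℤ) ∧ (N : ℤ) ∣ k - a := by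
  rw [sol, Finset.mem_filter, Finset.mem_Icc]
  constructor
  · exact fun h => h.2
  · intro h
    refine ⟨?_, h⟩
    have h1 := Int.le_self_sq k
    have h2 := Int.le_self_sq (-k)
    have h3 := h.1
    constructor
    · nlinarith
    · nlinarith

lemma coeff_Th (N : ℕ) (a : ℤ) (n : ℕ) : coeff n (Th N a) = ((sol N a n).card : ZMod 2) := by
  rw [Th, coeff_mk]
  rfl

/-- the pairs of integers with sum of squares `n` in given classes -/
noncomputable def pairs (N : ℕ) (a b : ℤ) (n : ℕ) : Finset (ℤ × ℤ) :=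
  (Finset.Icc (-(n : ℤ)) n ×ˢ Finset.Icc (-(n : ℤ)) n).filter fun x =>
    x.1 ^ 2 + x.2 ^ 2 = (n : ℤ) ∧ (N : ℤ) ∣ x.1 - a ∧ (N : ℤ) ∣ x.2 - b

lemma mem_pairs {N : ℕ} {a b : ℤ} {n : ℕ} {x : ℤ × ℤ} :
    x ∈ pairs N a b n ↔ x.1 ^ 2 + x.2 ^ 2 = (n : ℤ) ∧ (N : ℤ) ∣ x.1 - a ∧ (N : ℤ) ∣ x.2 - b := by
  rw [pairs, Finset.mem_filter, Finset.mem_product, Finset.mem_Icc, Finset.mem_Icc]
  constructor
  · exact fun h => h.2
  · intro h
    refine ⟨?_, h⟩
    have h1 := Int.le_self_sq x.1
    have h2 := Int.le_self_sq (-x.1)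
    have h1' := Int.le_self_sq x.2
    have h2' := Int.le_self_sq (-x.2)
    have h3 := h.1
    have h4 := sq_nonneg x.1
    have h5 := sq_nonneg x.2
    refine ⟨⟨?_, ?_⟩, ?_, ?_⟩ <;> nlinarith

lemma coeff_mul_Th (N : ℕ) (a b : ℤ) (n : ℕ) :
    coeff n (Th N a * Th N b) = ((pairs N a b n).card : ZMod 2) := by
  have hmap : ∀ x ∈ pairs N a b n, (x.1.natAbs ^ 2, x.2.natAbs ^ 2) ∈
      Finset.HasAntidiagonal.antidiagonal n := by
    intro x hx
    rw [mem_pairs] at hx
    rw [Finset.HasAntidiagonal.mem_antidiagonal]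
    have h1 := hx.1
    zify
    rw [sq_abs, sq_abs]
    exact h1
  rw [Finset.card_eq_sum_card_fiberwise hmap, coeff_mul]
  push_cast
  apply Finset.sum_congr rfl
  rintro ⟨p, q⟩ hpq
  rw [Finset.HasAntidiagonal.mem_antidiagonal] at hpq
  rw [coeff_Th, coeff_Th]
  rw [← Nat.cast_mul, ← Finset.card_product]
  congr 2
  ext ⟨x, y⟩
  rw [Finset.mem_product, mem_sol, mem_sol, Finset.mem_filter, mem_pairs]
  simp only [Prod.mk.injEq] at *
  constructor
  · rintro ⟨⟨h1, h2⟩, h3, h4⟩
    refine ⟨⟨?_, h2, h4⟩, ?_, ?_⟩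
    · rw [h1, h3]
      exact_mod_cast hpq
    · zify
      rw [sq_abs, h1]
    · zify
      rw [sq_abs, h3]
  · rintro ⟨⟨h1, h2, h3⟩, h4, h5⟩
    refine ⟨⟨?_, h2⟩, ?_, h3⟩
    · rw [← h4]
      push_cast
      rw [sq_abs]
    · rw [← h5]
      push_cast
      rw [sq_abs]

theorem t_congr : ∀ (N : ℕ) (a b : ℤ), (N : ℤ) ∣ a - b → Th N a = Th N b := by
  intro N a b h
  ext n
  rw [coeff_Th, coeff_Th]
  congr 2
  ext k
  rw [mem_sol, mem_sol]
  have e : k - b = (k - a) + (a - b) := by ring
  rw [e, dvd_add_left h]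

theorem t_neg : ∀ (N : ℕ) (a : ℤ), Th N (-a) = Th N a := by
  intro N a
  ext n
  rw [coeff_Th, coeff_Th]
  congr 1
  apply Finset.card_bij (fun k _ => -k)
  · intro k hk
    rw [mem_sol] at hk ⊢
    refine ⟨by rw [neg_sq]; exact hk.1, ?_⟩
    have e : -k - a = -(k - -a) := by ring
    rw [e, dvd_neg]
    exact hk.2
  · intro x _ y _ h
    exact neg_injective h
  · intro k hk
    refine ⟨-k, ?_, neg_neg k⟩
    rw [mem_sol] at hk ⊢
    refine ⟨by rw [neg_sq]; exact hk.1, ?_⟩
    have e : -k - -a = -(k - a) := by ring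
    rw [e, dvd_neg]
    exact hk.2

lemma not_both {M : ℕ} (hM : 0 < M) {z : ℤ} (h1 : ((2 * M : ℕ) : ℤ) ∣ z) 
    (h2 : ((2 * M : ℕ) : ℤ) ∣ z - M) : False := by
  have h3 : ((2 * M : ℕ) : ℤ) ∣ (M : ℤ) := by
    have := dvd_sub h1 h2
    simpa using this
  have h4 := Int.le_of_dvd (by exact_mod_cast hM) h3
  push_cast at h4
  have : (0 : ℤ) < M := by exact_mod_cast hM
  linarith

lemma dvd_iff {M : ℕ} (z : ℤ) : (M : ℤ) ∣ z ↔ ((2 * M : ℕ) : ℤ) ∣ z ∨
    ((2 * M : ℕ) : ℤ) ∣ z - M := by
  constructor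
  · rintro ⟨c, rfl⟩
    rcases Int.even_or_odd' c with ⟨d, rfl | rfl⟩
    · left
      exact ⟨d, by push_cast; ring⟩
    · right
      exact ⟨d, by push_cast; ring⟩
  · have h0 : (M : ℤ) ∣ ((2 * M : ℕ) : ℤ) := ⟨2, by push_cast; ring⟩
    rintro (h | h)
    · exact h0.trans h
    · have := dvd_add (h0.trans h) (dvd_refl (M : ℤ))
      simpa using this

theorem t_add : ∀ (M : ℕ), 0 < M → ∀ a : ℤ, Th (2 * M) a + Th (2 * M) (a + M) = Th M a := by
  intro M hM a
  ext n
  rw [map_add, coeff_Th, coeff_Th, coeff_Th, ← Nat.cast_add, ← Finset.card_union_of_disjoint]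
  · congr 2
    ext k
    rw [Finset.mem_union, mem_sol, mem_sol, mem_sol, dvd_iff (M := M) (k - a)]
    have e : k - (a + M) = k - a - M := by ring
    rw [e]
    tauto
  · rw [Finset.disjoint_left]
    intro k h1 h2
    rw [mem_sol] at h1 h2
    have e : k - (a + M) = k - a - M := by ring
    rw [e] at h2
    exact not_both hM h1.2 h2.2

theorem t_two : ∀ (M : ℕ), 0 < M → ∀ a : ℤ, Th (2 * M) (2 * a) = Th M a ^ 4 := by
  intro M hM a
  rw [Pool.Agent.H397R2.PP.pow_eq_expand' 4 2 (by norm_num) (by norm_num)]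
  ext n
  rw [coeff_expand]
  split_ifs with hd
  · obtain ⟨n', rfl⟩ := hd
    rw [Nat.mul_div_cancel_left _ (by norm_num), coeff_Th, coeff_Th]
    congr 1
    symm
    apply Finset.card_bij (fun k _ => 2 * k)
    · intro k hk
      rw [mem_sol] at hk ⊢
      obtain ⟨h1, c, h2⟩ := hk
      refine ⟨by push_cast; rw [mul_pow, h1]; norm_num, c, ?_⟩
      push_cast
      linear_combination 2 * h2
    · intro x _ y _ h
      simpa using h
    · intro k hk
      rw [mem_sol] at hk
      obtain ⟨h1, c, h2⟩ := hk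
      push_cast at h1 h2
      refine ⟨a + M * c, ?_, ?_⟩
      · rw [mem_sol]
        refine ⟨?_, c, by ring⟩
        have e : k = 2 * (a + M * c) := by linear_combination h2
        rw [e] at h1
        linarith
      · linear_combination -h2
  · rw [coeff_Th]
    have : sol (2 * M) (2 * a) n = ∅ := by
      rw [Finset.eq_empty_iff_forall_notMem]
      intro k hk
      rw [mem_sol] at hk
      obtain ⟨h1, c, h2⟩ := hk
      push_cast at h2
      apply hd
      have e : k = 2 * (a + M * c) := by linear_combination h2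
      rw [e] at h1
      have h3 : (4 : ℤ) ∣ (n : ℤ) := ⟨(a + M * c) ^ 2, by rw [← h1]; ring⟩
      exact_mod_cast h3
    rw [this]
    simp

theorem t_mul : ∀ (M : ℕ), 0 < M → ∀ u v : ℤ, Th (2 * M) (u + v) * Th (2 * M) (u - v) =
    (Th (2 * M) u * Th (2 * M) v + Th (2 * M) (u + M) * Th (2 * M) (v + M)) ^ 2 := by
  intro M hM u v
  rw [Pool.Agent.H397R2.PP.pow_eq_expand' 2 1 (by norm_num) (by norm_num)]
  ext n
  rw [coeff_expand, coeff_mul_Th]
  split_ifs with hd
  · obtain ⟨n', rfl⟩ := hd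
    rw [Nat.mul_div_cancel_left _ (by norm_num), map_add, coeff_mul_Th, coeff_mul_Th,
      ← Nat.cast_add, ← Finset.card_union_of_disjoint]
    · congr 1
      symm
      apply Finset.card_bij (fun x _ => (x.1 + x.2, x.1 - x.2))
      · rintro ⟨r, s⟩ hx
        rw [Finset.mem_union, mem_pairs, mem_pairs] at hx
        rw [mem_pairs]
        simp only at hx ⊢
        push_cast at hx ⊢
        rcases hx with ⟨h1, ⟨c, h2⟩, ⟨d, h3⟩⟩ | ⟨h1, ⟨c, h2⟩, ⟨d, h3⟩⟩
        · refine ⟨by linear_combination 2 * h1, ⟨c + d, by linear_combination h2 + h3⟩,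
            ⟨c - d, by linear_combination h2 - h3⟩⟩
        · refine ⟨by linear_combination 2 * h1, ⟨c + d + 1, by linear_combination h2 + h3⟩,
            ⟨c - d, by linear_combination h2 - h3⟩⟩
      · rintro ⟨r, s⟩ _ ⟨r', s'⟩ _ h
        simp only [Prod.mk.injEq] at h ⊢
        omega
      · rintro ⟨x, y⟩ hx
        rw [mem_pairs] at hx
        simp only at hx
        push_cast at hx
        obtain ⟨h1, ⟨c, h2⟩, ⟨d, h3⟩⟩ := hx
        -- x = u + v + 2 M c, y = u - v + 2 M d
        refine ⟨(u + M * (c + d), v + M * (c - d)), ?_, ?_⟩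
        · have hx : x = u + v + 2 * M * c := by linear_combination h2
          have hy : y = u - v + 2 * M * d := by linear_combination h3
          subst hx hy
          rw [Finset.mem_union, mem_pairs, mem_pairs]
          simp only
          push_cast
          have h4 : (u + M * (c + d)) ^ 2 + (v + M * (c - d)) ^ 2 = (n' : ℤ) := by
            have : 2 * ((u + M * (c + d)) ^ 2 + (v + M * (c - d)) ^ 2) = 2 * (n' : ℤ) := by
              rw [← h1]; ring
            linarith
          rcases Int.even_or_odd' (c + d) with ⟨e, he | he⟩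
          · left
            refine ⟨h4, ⟨e, ?_⟩, ⟨e - d, ?_⟩⟩
            · rw [he]; ring
            · have : c - d = 2 * e - 2 * d := by linear_combination he
              rw [this]; ring
          · right
            refine ⟨h4, ⟨e, ?_⟩, ⟨e - d, ?_⟩⟩
            · rw [he]; ring
            · have : c - d = 2 * e + 1 - 2 * d := by linear_combination he
              rw [this]; ring
        · simp only [Prod.mk.injEq]
          constructor
          · linear_combination -h2
          · linear_combination -h3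
    · rw [Finset.disjoint_left]
      intro x h1 h2
      rw [mem_pairs] at h1 h2
      have e : x.1 - (u + M) = x.1 - u - M := by ring
      rw [e] at h2
      exact not_both hM h1.2.1 h2.2.1
  · have : pairs (2 * M) (u + v) (u - v) n = ∅ := by
      rw [Finset.eq_empty_iff_forall_notMem]
      rintro ⟨x, y⟩ hx
      rw [mem_pairs] at hx
      simp only at hx
      push_cast at hx
      obtain ⟨h1, ⟨c, h2⟩, ⟨d, h3⟩⟩ := hx
      apply hd
      have hx : x = u + v + 2 * M * c := by linear_combination h2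
      have hy : y = u - v + 2 * M * d := by linear_combination h3
      rw [hx, hy] at h1
      have h4 : (2 : ℤ) ∣ (n : ℤ) :=
        ⟨(u + M * (c + d)) ^ 2 + (v + M * (c - d)) ^ 2, by rw [← h1]; ring⟩
      exact_mod_cast h4
    rw [this]
    simp

theorem t_low : ∀ (N : ℕ) (a : ℤ) (n : ℕ), (∀ k : ℤ, k ^ 2 = (n : ℤ) → ¬ (N : ℤ) ∣ k - a) →
    coeff n (Th N a) = 0 := by
  intro N a n h
  rw [coeff_Th]
  have : sol N a n = ∅ := by
    rw [Finset.eq_empty_iff_forall_notMem]
    intro k hk
    rw [mem_sol] at hk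
    exact h k hk.1 hk.2
  rw [this]
  simp

theorem t_one : ∀ (N : ℕ), 3 ≤ N → coeff 1 (Th N 1) = 1 := by
  intro N hN
  rw [coeff_Th]
  have : sol N 1 1 = {1} := by
    ext k
    rw [mem_sol, Finset.mem_singleton]
    constructor
    · rintro ⟨h1, h2⟩
      have h3 : k = 1 ∨ k = -1 := by
        have : (k - 1) * (k + 1) = 0 := by
          push_cast at h1
          linear_combination h1
        rcases mul_eq_zero.1 this with h | h
        · left; linarith
        · right; linarith
      rcases h3 with h3 | h3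
      · exact h3
      · exfalso
        rw [h3] at h2
        have h4 : (N : ℤ) ∣ 2 := by
          have := (dvd_neg (α := ℤ)).2 h2
          norm_num at this
          exact this
        have := Int.le_of_dvd (by norm_num) h4
        omega
    · rintro rfl
      simp
  rw [this]
  simp

/-- `k` lies in one of the classes `2 s + 1`, `s < m` modulo `4 m` -/
def P (m : ℕ) (k : ℤ) : Prop := ∃ s < m, ((4 * m : ℕ) : ℤ) ∣ k - (2 * (s : ℤ) + 1)

lemma P_or {m : ℕ} (hm : 1 ≤ m) (k : ℤ) (hk : k % 2 = 1) : P m k ∨ P m (-k) := by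
  have h4 : (0 : ℤ) < 4 * m := by positivity
  have h1 := Int.emod_nonneg k h4.ne'
  have h2 := Int.emod_lt_of_pos k h4
  have h3 := Int.emod_add_mul_ediv k (4 * m)
  set r := k % (4 * m) with hr
  set q := k / (4 * m) with hq
  have h5 : r % 2 = 1 := by
    have : r = k - 2 * (2 * m * q) := by linear_combination h3
    omega
  rcases lt_or_ge r (2 * m) with h6 | h6
  · left
    refine ⟨(r / 2).toNat, by omega, q, ?_⟩
    have : ((r / 2).toNat : ℤ) = r / 2 := by omega
    rw [this]
    have h7 : 2 * (r / 2) + 1 = r := by omega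
    rw [h7]
    push_cast
    linear_combination -h3
  · right
    refine ⟨((4 * m - r) / 2).toNat, by omega, -q - 1, ?_⟩
    have : (((4 * m - r) / 2).toNat : ℤ) = (4 * m - r) / 2 := by omega
    rw [this]
    have h7 : 2 * ((4 * m - r) / 2) + 1 = 4 * m - r := by omega
    rw [h7]
    push_cast
    linear_combination h3

lemma P_not {m : ℕ} (hm : 1 ≤ m) (k : ℤ) (h1 : P m k) (h2 : P m (-k)) : False := by
  obtain ⟨s, hs, c, h3⟩ := h1
  obtain ⟨t, ht, d, h4⟩ := h2
  push_cast at h3 h4
  have h5 : (2 * (m : ℤ)) ∣ ((s : ℤ) + t + 1) := by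
    refine ⟨-(c + d), ?_⟩
    have : 2 * ((s : ℤ) + t + 1) = 2 * (2 * m * (-(c + d))) := by linear_combination -h3 - h4
    linarith
  have := Int.le_of_dvd (by positivity) h5
  omega

lemma P_odd {m : ℕ} (k : ℤ) (h1 : P m k) : k % 2 = 1 := by
  obtain ⟨s, hs, c, h3⟩ := h1
  push_cast at h3
  have : k = 2 * (s + 2 * m * c) + 1 := by linear_combination h3
  omega

theorem t_sum : ∀ (m : ℕ), 1 ≤ m → Db = ∑ s ∈ Finset.range m, Th (4 * m) (2 * (s : ℤ) + 1) := by
  intro m hm
  classical
  ext n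
  rw [show Db = Pool.Agent.H397R2.PP.Db from rfl, Pool.Agent.H397R2.PP.TH.Db_ind,
    Pool.Agent.H397R2.PP.TH.coeff_ind, map_sum]
  simp_rw [coeff_Th]
  rw [← Nat.cast_sum, ← Finset.card_biUnion]
  · have hset : ∀ k, k ∈ (Finset.range m).biUnion (fun s => sol (4 * m) (2 * (s : ℤ) + 1) n) ↔
        k ^ 2 = (n : ℤ) ∧ P m k := by
      intro k
      rw [Finset.mem_biUnion]
      constructor
      · rintro ⟨s, hs, hk⟩
        rw [mem_sol] at hk
        exact ⟨hk.1, s, Finset.mem_range.1 hs, hk.2⟩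
      · rintro ⟨h1, s, hs, h2⟩
        exact ⟨s, Finset.mem_range.2 hs, mem_sol.2 ⟨h1, h2⟩⟩
    split_ifs with h
    · obtain ⟨i, hi⟩ := h
      have key : ∃ k0 : ℤ, k0 ^ 2 = (n : ℤ) ∧ P m k0 := by
        rcases P_or hm (2 * (i : ℤ) + 1) (by omega) with h | h
        · exact ⟨_, by rw [hi]; push_cast; ring, h⟩
        · exact ⟨_, by rw [hi]; push_cast; ring, h⟩
      obtain ⟨k0, h1, h2⟩ := key
      have : (Finset.range m).biUnion (fun s => sol (4 * m) (2 * (s : ℤ) + 1) n) = {k0} := by
        ext k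
        rw [hset, Finset.mem_singleton]
        constructor
        · rintro ⟨h3, h4⟩
          have h5 : k ^ 2 = k0 ^ 2 := by rw [h3, h1]
          rcases sq_eq_sq_iff_eq_or_eq_neg.1 h5 with h6 | h6
          · exact h6
          · exfalso
            rw [h6] at h4
            exact P_not hm k0 h2 h4
        · rintro rfl
          exact ⟨h1, h2⟩
      rw [this]
      simp
    · have : (Finset.range m).biUnion (fun s => sol (4 * m) (2 * (s : ℤ) + 1) n) = ∅ := by
        rw [Finset.eq_empty_iff_forall_notMem]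
        intro k hk
        rw [hset] at hk
        apply h
        have h5 := P_odd k hk.2
        refine ⟨k.natAbs / 2, ?_⟩
        have h6 : 2 * (k.natAbs / 2) + 1 = k.natAbs := by omega
        rw [h6]
        zify
        rw [sq_abs, hk.1]
      rw [this]
      simp
  · intro s hs t ht hst
    rw [Function.onFun, Finset.disjoint_left]
    intro k h1 h2
    rw [mem_sol] at h1 h2
    obtain ⟨_, c, h3⟩ := h1
    obtain ⟨_, d, h4⟩ := h2
    push_cast at h3 h4
    have hs' : s < m := Finset.mem_range.1 hs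
    have ht' : t < m := Finset.mem_range.1 ht
    have h5 : (2 * (m : ℤ)) ∣ ((s : ℤ) - t) := by
      refine ⟨d - c, ?_⟩
      have : 2 * ((s : ℤ) - t) = 2 * (2 * m * (d - c)) := by linear_combination h4 - h3
      linarith
    have h6 : (s : ℤ) - t = 0 := by
      apply Int.eq_zero_of_abs_lt_dvd h5
      rw [abs_lt]
      constructor <;> omega
    apply hst
    omega

theorem t_four : Th 4 1 = Db := by
  have := t_sum 1 le_rfl
  simpa using this.symm

end ThetaM1

theorem thetaFacts : ThetaFacts where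
  congr := ThetaM1.t_congr
  neg := ThetaM1.t_neg
  add := ThetaM1.t_add
  two := ThetaM1.t_two
  mul := ThetaM1.t_mul
  low := ThetaM1.t_low
  one := ThetaM1.t_one
  sum := ThetaM1.t_sum
  four := ThetaM1.t_four

end Pool.Agent.L0h63.MP
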